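import Pool.Agent.T9h75.WT.Alts

set_option autoImplicit false
set_option linter.unusedSectionVars false

namespace Pool.Agent.T9h75.WT

open Finset Pool.Agent.T9h16 Pool.Agent.T9h75.WH
open scoped Classical

section
variable {β : Type} {M : ℕ}

theorem KC_altE {Bf : (Set β → Prop) → Prop} : ∀ (r : ℕ) (Y : (Fin (lv r) → Fin M) → Set β → Prop),
    (∀ i, Bf (Y i)) → KC Bf M r (fun v => Alt M (lv r) true fun i => Y i v)
  | 0, _, h => h _
  | r + 1, Y, h => ⟨fun a b v => Alt M (lv r) true fun i => Y (Fin.cons a (Fin.cons b i)) v,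
      fun a b => KC_altE r (fun i => Y (Fin.cons a (Fin.cons b i))) (fun _ => h _),
      fun _ => Iff.rfl⟩

theorem KC_altO {h : ℕ} : ∀ (r : ℕ) (Y : (Fin (lv r + 1) → Fin M) → Set β → Prop),
    (∀ i, ∃ O : Finset β, O.card ≤ h ∧ ∀ v, Y i v ↔ ∃ o ∈ O, o ∈ v) →
      KC (BfO h) M r (fun v => Alt M (lv r + 1) true fun i => Y i v)
  | 0, Y, hY => by
    choose O hO hOY using hY
    refine ⟨{P | ∃ j : Fin M, P = O (Fin.cons j Fin.elim0)}, ?_, ?_⟩
    · rintro P ⟨j, rfl⟩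
      exact hO _
    · intro v
      constructor
      · rintro h1 P ⟨j, rfl⟩
        exact (hOY _ v).1 (h1 j)
      · intro h1 j
        exact (hOY _ v).2 (h1 _ ⟨j, rfl⟩)
  | r + 1, Y, hY =>
    ⟨fun a b v => Alt M (lv r + 1) true fun i => Y (Fin.cons a (Fin.cons b i)) v,
      fun a b => KC_altO r (fun i => Y (Fin.cons a (Fin.cons b i))) (fun _ => hY _),
      fun _ => Iff.rfl⟩

theorem KC.fix {Bf : (Set β → Prop) → Prop} (hT : Bf fun _ => True) :
    ∀ {r : ℕ} {f : Set β → Prop}, KC Bf M r f → KC Bf (max M 1) r f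
  | 0, _, h => h
  | r + 1, f, h => by
    rcases Nat.eq_zero_or_pos M with hM | hM
    · obtain ⟨g, -, hg⟩ := h
      have hf : f = fun _ => True := by
        funext v
        refine propext ⟨fun _ => trivial, fun _ => (hg v).2 fun a => ?_⟩
        exact absurd a.isLt (by omega)
      rw [hf]
      exact KC.of_base (by omega) hT _
    · have : max M 1 = M := by omega
      rwa [this]

end

section
variable {N M ρ g : ℕ}

/-- The part of the target problem that belongs to a fixed set `S` of variables. -/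
def FS (t : ℕ) (S : Finset (Fin N)) (V : Set ((Fin ρ → Fin N) × (Fin t → Fin M))) : Prop :=
  Alt M t true fun i =>
    (Even t → ∀ a : Fin ρ → Fin N, (∀ l, a l ∈ S) → (a, i) ∈ V) ∧
    (¬ Even t → ∃ a : Fin ρ → Fin N, (∀ l, a l ∈ S) ∧ (a, i) ∈ V)

theorem WSat_iff (t : ℕ) (v : (Fin ρ → Fin N) × (Fin t → Fin M) → Prop) :
    WSat t ρ g v ↔ ∃ ψ : {S : Finset (Fin N) // S.card = g}, FS t ψ.1 v := by
  constructor
  · rintro ⟨S, hS, h⟩
    exact ⟨⟨S, hS⟩, h⟩
  · rintro ⟨⟨S, hS⟩, h⟩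
    exact ⟨S, hS, h⟩

theorem card_tuples (S : Finset (Fin N)) (t : ℕ) (i : Fin t → Fin M) (hS : S.card = g) :
    ∃ O : Finset ((Fin ρ → Fin N) × (Fin t → Fin M)), O.card ≤ g ^ ρ + 1 ∧
      ∀ o, o ∈ O ↔ (∀ l, o.1 l ∈ S) ∧ o.2 = i := by
  refine ⟨(Fintype.piFinset fun _ : Fin ρ => S).image fun a => (a, i), ?_, ?_⟩
  · refine card_image_le.trans ?_
    rw [Fintype.card_piFinset, prod_const, card_univ, Fintype.card_fin, hS]
    exact Nat.le_succ _
  · rintro ⟨a, i'⟩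
    rw [mem_image]
    constructor
    · rintro ⟨a', ha', h⟩
      obtain ⟨rfl, rfl⟩ := Prod.ext_iff.1 h
      exact ⟨fun l => Fintype.mem_piFinset.1 ha' l, rfl⟩
    · rintro ⟨h1, h2⟩
      refine ⟨a, Fintype.mem_piFinset.2 h1, ?_⟩
      rw [← h2]

theorem KC_FS_even (r : ℕ) (S : Finset (Fin N)) (hS : S.card = g) :
    KC (BfE (g ^ ρ + 1)) (max M 1) r (FS (ρ := ρ) (M := M) (lv r) S) := by
  have heven : Even (lv r) := by
    rw [lv_eq]
    exact even_two_mul r
  apply KC.fix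
  · exact ⟨∅, by simp, fun v => ⟨fun _ o ho => absurd ho (notMem_empty _), fun _ => trivial⟩⟩
  · have h := KC_altE (Bf := BfE (g ^ ρ + 1)) r
      (fun (i : Fin (lv r) → Fin M) (V : Set ((Fin ρ → Fin N) × (Fin (lv r) → Fin M))) =>
        ∀ a : Fin ρ → Fin N, (∀ l, a l ∈ S) → (a, i) ∈ V) (by
      intro i
      obtain ⟨O, hO, hOm⟩ := card_tuples (ρ := ρ) S (lv r) i hS
      refine ⟨O, hO, fun V => ⟨?_, ?_⟩⟩
      · rintro h1 ⟨a, i'⟩ ho
        obtain ⟨h2, h3⟩ := (hOm _).1 ho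
        have h3' : i' = i := h3
        rw [h3']
        exact h1 a h2
      · intro h1 a ha
        exact h1 _ ((hOm _).2 ⟨ha, rfl⟩))
    have he : FS (ρ := ρ) (M := M) (lv r) S = fun V => Alt M (lv r) true fun i =>
        ∀ a : Fin ρ → Fin N, (∀ l, a l ∈ S) → (a, i) ∈ V := by
      funext V
      refine propext (Alt_congr _ _ fun i => ?_)
      exact ⟨fun h => h.1 heven, fun h => ⟨fun _ => h, fun h' => absurd heven h'⟩⟩
    rw [he]
    exact h

theorem KC_FS_odd (r : ℕ) (S : Finset (Fin N)) (hS : S.card = g) :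
    KC (BfO (g ^ ρ + 1)) (max M 1) r (FS (ρ := ρ) (M := M) (lv r + 1) S) := by
  have hodd : ¬ Even (lv r + 1) := by
    rw [lv_eq, Nat.not_even_iff_odd]
    exact odd_two_mul_add_one r
  apply KC.fix
  · exact ⟨∅, by simp, fun v => ⟨fun _ O hO => absurd hO (Set.notMem_empty _), fun _ => trivial⟩⟩
  · have h := KC_altO (h := g ^ ρ + 1) r
      (fun (i : Fin (lv r + 1) → Fin M) (V : Set ((Fin ρ → Fin N) × (Fin (lv r + 1) → Fin M))) =>
        ∃ a : Fin ρ → Fin N, (∀ l, a l ∈ S) ∧ (a, i) ∈ V) (by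
      intro i
      obtain ⟨O, hO, hOm⟩ := card_tuples (ρ := ρ) S (lv r + 1) i hS
      refine ⟨O, hO, fun V => ⟨?_, ?_⟩⟩
      · rintro ⟨a, ha, haV⟩
        exact ⟨_, (hOm _).2 ⟨ha, rfl⟩, haV⟩
      · rintro ⟨⟨a, i'⟩, ho, hoV⟩
        obtain ⟨h2, h3⟩ := (hOm _).1 ho
        have h3' : i' = i := h3
        rw [h3'] at hoV
        exact ⟨a, h2, hoV⟩)
    have he : FS (ρ := ρ) (M := M) (lv r + 1) S = fun V => Alt M (lv r + 1) true fun i =>
        ∃ a : Fin ρ → Fin N, (∀ l, a l ∈ S) ∧ (a, i) ∈ V := by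
      funext V
      refine propext (Alt_congr _ _ fun i => ?_)
      exact ⟨fun h => h.2 hodd, fun h => ⟨fun h' => absurd h' hodd, fun _ => h⟩⟩
    rw [he]
    exact h

theorem card_sets : Fintype.card {S : Finset (Fin N) // S.card = g} ≤ N ^ g := by
  rw [Fintype.card_finset_len, Fintype.card_fin]
  exact Nat.choose_le_pow N g

end

end Pool.Agent.T9h75.WT
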