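import Pool.Agent.T9h75.WT.Br

set_option autoImplicit false
set_option linter.unusedSectionVars false

namespace Pool.Agent.T9h75.WT

open Finset Pool.Agent.T9h16 Pool.Agent.T9h75.WH
open scoped Classical

section
variable {k w : ℕ} {D : Type} [Fintype D] [DecidableEq D]

/-- Positive tests for a single column: the column is covered by the row of the group `v` only. -/
def posE (φ : Fin k → Fin w) (v : Fin k) : Set (Fin k × Fin w) := {e | e.1 = v ∧ φ e.1 = e.2}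

/-- Negative tests for a single column: the row is absent where the random value is `0`. -/
def negE {A : ℕ} (v : Fin k × Fin w → Fin A) : Set (Fin k × Fin w) := {e | (v e).val ≠ 0}

/-- The approximation data. -/
def parE (ℓ c : ℕ) (hℓ : 1 ≤ ℓ) (hc : 1 ≤ c) : Par (Fin k × Fin w) where
  ℓ := ℓ
  c := c
  R := fun _ => True
  hℓ := hℓ
  hc := hc
  R0 := trivial
  R1 := fun _ => trivial
  hR := fun _ _ _ _ => trivial

/-- The exceptional row choices for a fixed assignment of the columns. -/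
def ExE (𝒞 : Set (Finset (D × (Fin k × Fin w)))) (θ : D → Fin k) : (Fin k → Fin w) → Prop :=
  BrBad (X := Fin k × Fin w) (fun φ v => φ v.1 = v.2) (k - 1)
    {r : Finset (Finset (Fin k × Fin w)) | ∃ F ∈ 𝒞,
      r = (F.filter fun e => e.2.1 = θ e.1).image fun e => {e.2}}

theorem cnt_ExE (hk : 1 ≤ k) (hw : 1 ≤ w) {c : ℕ} (hc1 : 1 ≤ c)
    (𝒞 : Set (Finset (D × (Fin k × Fin w))))
    (hc : ∀ F ∈ 𝒞, F.card ≤ c) (θ : D → Fin k) : cnt (ExE 𝒞 θ) ≤ c ^ k := by
  have h := branch (Ω := Fin k → Fin w) (X := Fin k × Fin w) (fun φ v => φ v.1 = v.2) w c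
    (k - 1) hw hc1 (cnt_prescribed w)
    {r : Finset (Finset (Fin k × Fin w)) | ∃ F ∈ 𝒞,
      r = (F.filter fun e => e.2.1 = θ e.1).image fun e => {e.2}} (by
      rintro r ⟨F, hF, rfl⟩
      exact card_image_le.trans ((card_filter_le _ _).trans (hc F hF)))
  have hk1 : k - 1 + 1 = k := by omega
  rw [hk1, Fintype.card_fun, Fintype.card_fin, Fintype.card_fin] at h
  exact Nat.le_of_mul_le_mul_right h (Nat.pow_pos hw)

/-- The sets of literals seen in the rows chosen by `φ` outside of the group `x₀`. -/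
def famE (𝒞 : Set (Finset (D × (Fin k × Fin w)))) (φ : Fin k → Fin w) (x₀ : Fin k) :
    Set (Finset (D × Fin k)) :=
  {G | ∃ F ∈ 𝒞, G = (F.filter fun e => φ e.2.1 = e.2.2 ∧ e.2.1 ≠ x₀).image fun e => (e.1, e.2.1)}

theorem badE_cover (hk : 1 ≤ k) {A M c : ℕ} (hM : 1 ≤ M) (hc : 1 ≤ c)
    (𝒞 : Set (Finset (D × (Fin k × Fin w))))
    (t : (Fin k → Fin w) × (D → Fin k))
    (ht : (baseSys D (posE (k := k) (w := w)) (negE (A := A))
      (parE (M * c ^ 2) c (Nat.mul_pos hM (Nat.pow_pos hc)) hc)).BadP 𝒞 t) :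
    ExE 𝒞 t.2 t.1 ∨ ∃ x₀, Bad (famE 𝒞 t.1 x₀) (M * c ^ 2) t.2 := by
  obtain ⟨hhit, hsmall⟩ := ht
  by_contra hcon
  push Not at hcon
  obtain ⟨h1, h2⟩ := hcon
  unfold ExE BrBad at h1
  push Not at h1
  obtain ⟨Y, hYc, hYφ, hY⟩ := h1 (by
    rintro r ⟨F, hF, rfl⟩
    obtain ⟨e, he, hep⟩ := hhit F hF
    refine ⟨{e.2}, ?_, ?_⟩
    · rw [mem_image]
      exact ⟨e, mem_filter.2 ⟨he, hep.1⟩, rfl⟩
    · intro v hv
      rw [mem_singleton] at hv
      subst hv
      exact hep.2)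
  -- a group outside of `Y`
  obtain ⟨x₀, hx₀⟩ : ∃ x₀ : Fin k, x₀ ∉ Y.image Prod.fst := by
    by_contra hall
    push Not at hall
    have : (univ : Finset (Fin k)) ⊆ Y.image Prod.fst := fun x _ => hall x
    have := card_le_card this
    have h3 := (card_image_le (s := Y) (f := Prod.fst)).trans hYc
    rw [card_univ, Fintype.card_fin] at this
    omega
  have hYF : ∀ F ∈ 𝒞, ∃ e ∈ F, e.2.1 = t.2 e.1 ∧ e.2 ∈ Y := by
    intro F hF
    obtain ⟨O, hO, hOY⟩ := hY _ ⟨F, hF, rfl⟩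
    rw [mem_image] at hO
    obtain ⟨e, he, rfl⟩ := hO
    rw [mem_filter] at he
    exact ⟨e, he.1, he.2, hOY (mem_singleton_self _)⟩
  apply h2 x₀
  refine ⟨?_, ?_⟩
  · rintro G ⟨F, hF, rfl⟩
    obtain ⟨e, he, hθ, heY⟩ := hYF F hF
    refine ⟨(e.1, e.2.1), ?_, hθ.symm⟩
    rw [mem_image]
    refine ⟨e, mem_filter.2 ⟨he, hYφ _ heY, ?_⟩, rfl⟩
    rintro rfl
    exact hx₀ (mem_image_of_mem Prod.fst heY)
  · intro Y' hY'
    obtain ⟨F, hF, hFY⟩ := hsmall (Y'.image fun j => (j, (t.2 j, t.1 (t.2 j))))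
      ⟨card_image_le.trans hY', trivial⟩ (by
        intro e he
        rw [mem_image] at he
        obtain ⟨j, -, rfl⟩ := he
        exact ⟨rfl, rfl⟩)
    refine ⟨_, ⟨F, hF, rfl⟩, ?_⟩
    intro p hp hpY hθp
    rw [mem_image] at hp
    obtain ⟨e, he, rfl⟩ := hp
    rw [mem_filter] at he
    simp only at hpY hθp
    apply hFY e he.1
    rw [mem_image]
    refine ⟨e.1, hpY, ?_⟩
    rw [hθp, he.2.1]

theorem card_badE (hk : 1 ≤ k) (hw : 1 ≤ w) {A c M a : ℕ} (hM : 1 ≤ M) (hc1 : 1 ≤ c)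
    (ha : k ^ c ≤ a) (𝒞 : Set (Finset (D × (Fin k × Fin w)))) (hc : ∀ F ∈ 𝒞, F.card ≤ c) :
    (univ.filter ((baseSys D (posE (k := k) (w := w)) (negE (A := A))
      (parE (M * c ^ 2) c (Nat.mul_pos hM (Nat.pow_pos hc1)) hc1)).BadP 𝒞)).card *
        (w ^ k * a ^ M) ≤
      (c ^ k * a ^ M + k * w ^ k * (a - 1) ^ M) *
        Fintype.card ((Fin k → Fin w) × (D → Fin k)) := by
  obtain ⟨n, hn⟩ : ∃ n, n = Fintype.card (D → Fin k) := ⟨_, rfl⟩
  have hN : Fintype.card ((Fin k → Fin w) × (D → Fin k)) = w ^ k * n := by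
    rw [Fintype.card_prod, Fintype.card_fun, Fintype.card_fin, Fintype.card_fin, hn]
  have h1 : cnt (fun t : (Fin k → Fin w) × (D → Fin k) => ExE 𝒞 t.2 t.1) ≤ n * c ^ k := by
    rw [cnt_prod']
    calc ∑ θ : D → Fin k, cnt (ExE 𝒞 θ)
        ≤ ∑ _θ : D → Fin k, c ^ k := sum_le_sum fun θ _ => cnt_ExE hk hw hc1 𝒞 hc θ
      _ = n * c ^ k := by rw [sum_const, smul_eq_mul, card_univ, hn]
  have h2 : ∀ x₀, cnt (fun t : (Fin k → Fin w) × (D → Fin k) =>
      Bad (famE 𝒞 t.1 x₀) (M * c ^ 2) t.2) * a ^ M ≤ w ^ k * ((a - 1) ^ M * n) := by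
    intro x₀
    rw [cnt_prod, sum_mul]
    calc ∑ φ : Fin k → Fin w, cnt (Bad (famE 𝒞 φ x₀) (M * c ^ 2)) * a ^ M
        ≤ ∑ _φ : Fin k → Fin w, (a - 1) ^ M * n := by
          apply sum_le_sum
          intro φ _
          rw [hn]
          refine cnt_cols (D := D) (V := Fin k) a c M (by rwa [Fintype.card_fin])
            (by rwa [Fintype.card_fin]) (famE 𝒞 φ x₀) ?_ ?_
          · rintro G ⟨F, hF, rfl⟩
            exact card_image_le.trans ((card_filter_le _ _).trans (hc F hF))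
          · rintro G ⟨F, hF, rfl⟩
            refine ⟨fun _ => x₀, ?_⟩
            intro p hp
            rw [mem_image] at hp
            obtain ⟨e, he, rfl⟩ := hp
            exact (mem_filter.1 he).2.2.symm
      _ = w ^ k * ((a - 1) ^ M * n) := by
          rw [sum_const, smul_eq_mul, card_univ, Fintype.card_fun, Fintype.card_fin,
            Fintype.card_fin]
  have h3 : (univ.filter ((baseSys D (posE (k := k) (w := w)) (negE (A := A))
      (parE (M * c ^ 2) c (Nat.mul_pos hM (Nat.pow_pos hc1)) hc1)).BadP 𝒞)).card ≤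
      cnt (fun t : (Fin k → Fin w) × (D → Fin k) => ExE 𝒞 t.2 t.1) +
      ∑ x₀, cnt (fun t : (Fin k → Fin w) × (D → Fin k) =>
        Bad (famE 𝒞 t.1 x₀) (M * c ^ 2) t.2) :=
    (cnt_or (fun t ht => badE_cover hk hM hc1 𝒞 t ht)).trans
      (Nat.add_le_add_left (cnt_exists fun t ht => ht) _)
  calc _ ≤ (cnt (fun t : (Fin k → Fin w) × (D → Fin k) => ExE 𝒞 t.2 t.1) +
        ∑ x₀, cnt (fun t : (Fin k → Fin w) × (D → Fin k) =>
          Bad (famE 𝒞 t.1 x₀) (M * c ^ 2) t.2)) * (w ^ k * a ^ M) := Nat.mul_le_mul_right _ h3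
    _ = cnt (fun t : (Fin k → Fin w) × (D → Fin k) => ExE 𝒞 t.2 t.1) * (w ^ k * a ^ M) +
        w ^ k * ∑ x₀, cnt (fun t : (Fin k → Fin w) × (D → Fin k) =>
          Bad (famE 𝒞 t.1 x₀) (M * c ^ 2) t.2) * a ^ M := by
        rw [← sum_mul]; ring
    _ ≤ (n * c ^ k) * (w ^ k * a ^ M) +
          w ^ k * ∑ _x₀ : Fin k, w ^ k * ((a - 1) ^ M * n) := by
        apply Nat.add_le_add
        · exact Nat.mul_le_mul_right _ h1
        · exact Nat.mul_le_mul_left _ (sum_le_sum fun x₀ _ => h2 x₀)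
    _ = _ := by
        rw [sum_const, smul_eq_mul, card_univ, Fintype.card_fin, hN]
        ring

/-- Uncurrying the random values. -/
def unc (D X : Type) (A : ℕ) : (D → (X → Fin A)) ≃ (D × X → Fin A) :=
  ⟨fun u e => u e.1 e.2, fun v d x => v (d, x), fun _ => rfl, fun _ => rfl⟩

theorem card_badNE {A c ℓ : ℕ} (hA : 1 ≤ A) (hℓ : 1 ≤ ℓ) (hc : 1 ≤ c)
    (𝒲 : Set (Finset (D × (Fin k × Fin w)))) (hW : ∀ W ∈ 𝒲, W.card ≤ ℓ) :
    (univ.filter ((baseSys D (posE (k := k) (w := w)) (negE (A := A))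
      (parE ℓ c hℓ hc)).BadN 𝒲)).card * A ^ (c + 1) ≤
      ℓ ^ (c + 1) * Fintype.card (D → (Fin k × Fin w → Fin A)) := by
  have hbr := branch (Ω := D × (Fin k × Fin w) → Fin A) (X := D × (Fin k × Fin w))
    (fun χ e => (χ e).val = 0) A ℓ c hA hℓ (cnt_zero A hA)
    {r | ∃ W ∈ 𝒲, r = W.image fun e => {e}} (by
      rintro r ⟨W, hW', rfl⟩
      exact card_image_le.trans (hW W hW'))
  rw [Fintype.card_congr (unc D (Fin k × Fin w) A)]
  refine le_trans (Nat.mul_le_mul_right _ ?_) hbr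
  refine cnt_le_of_inj (unc D (Fin k × Fin w) A) ?_
    (fun u u' _ _ h => (unc D (Fin k × Fin w) A).injective h)
  rintro u ⟨h1, h2⟩
  refine ⟨?_, ?_⟩
  · rintro r ⟨W, hW', rfl⟩
    obtain ⟨e, he, he'⟩ := h1 W hW'
    refine ⟨{e}, mem_image_of_mem _ he, ?_⟩
    intro e' he''
    rw [mem_singleton] at he''
    subst he''
    have h3 : ¬ ((u e'.1 e'.2).val ≠ 0) := he'
    exact not_not.1 h3
  · intro Y hY hYz
    obtain ⟨W, hW', hWY⟩ := h2 Y hY (fun e he hcon => hcon (hYz e he))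
    refine ⟨_, ⟨W, hW', rfl⟩, ?_⟩
    intro O hO hOY
    rw [mem_image] at hO
    obtain ⟨e, he, rfl⟩ := hO
    have heY := hOY (mem_singleton_self e)
    exact hWY e heY he

end

end Pool.Agent.T9h75.WT
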