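import Pool.Agent.T9h75.WT.Br

set_option autoImplicit false
set_option linter.unusedSectionVars false

namespace Pool.Agent.T9h75.WT

open Finset Pool.Agent.T9h16 Pool.Agent.T9h75.WH
open scoped Classical

/-- Filtering, with a fixed decidability instance. -/
noncomputable def flt {α : Type} (s : Finset α) (p : α → Prop) : Finset α := s.filter p

theorem mem_flt {α : Type} {s : Finset α} {p : α → Prop} {a : α} : a ∈ flt s p ↔ a ∈ s ∧ p a :=
  mem_filter

theorem flt_card {α : Type} (s : Finset α) (p : α → Prop) : (flt s p).card ≤ s.card :=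
  card_filter_le _ _

/-- Small sets are coded by tuples. -/
theorem exists_code {X : Type} (Z : Finset X) (b : ℕ) (h : Z.card ≤ b) :
    ∃ i : Fin b → Option X, ∀ x, x ∈ Z ↔ ∃ j, i j = some x := by
  refine ⟨fun j => if hj : j.val < Z.card then some (Z.equivFin.symm ⟨j.val, hj⟩).1 else none,
    fun x => ⟨fun hx => ?_, ?_⟩⟩
  · refine ⟨⟨(Z.equivFin ⟨x, hx⟩).val, lt_of_lt_of_le (Z.equivFin ⟨x, hx⟩).isLt h⟩, ?_⟩
    beta_reduce
    rw [dif_pos (Z.equivFin ⟨x, hx⟩).isLt]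
    simp
  · rintro ⟨j, hj⟩
    beta_reduce at hj
    by_cases hjc : j.val < Z.card
    · rw [dif_pos hjc] at hj
      rw [← Option.some.inj hj]
      exact (Z.equivFin.symm ⟨j.val, hjc⟩).2
    · rw [dif_neg hjc] at hj
      exact absurd hj (by simp)

section
variable {k w n : ℕ} {D : Type} [Fintype D] [DecidableEq D]

/-- Positive tests for a single column: the entry `v` is completely covered. -/
def posO (φ : Fin k → Fin w) (v : Fin n) : Set ((Fin k × Fin w) × Fin n) :=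
  {e | φ e.1.1 = e.1.2 ∧ v = e.2}

/-- Negative tests for a single column. -/
def negO {A : ℕ} (v : (Fin k × Fin w → Fin A) × (Fin n → Fin k)) :
    Set ((Fin k × Fin w) × Fin n) :=
  {e | ¬ ((v.1 e.1).val = 0 ∧ v.2 e.2 = e.1.1)}

/-- The approximation data. -/
def parO (k w n ℓ c : ℕ) (hk : 2 ≤ k) (hℓ : 1 ≤ ℓ) (hc : 1 ≤ c) :
    Par ((Fin k × Fin w) × Fin n) where
  ℓ := ℓ
  c := c
  R := fun T => ∃ x₀, ∀ e ∈ T, e.1.1 ≠ x₀
  hℓ := hℓ
  hc := hc
  R0 := ⟨⟨0, by omega⟩, fun e he => absurd he (notMem_empty e)⟩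
  R1 := fun e => by
    by_cases h : e.1.1 = ⟨0, by omega⟩
    · refine ⟨⟨1, by omega⟩, fun e' he' => ?_⟩
      rw [mem_singleton] at he'
      subst he'
      rw [h]
      intro hcon
      exact absurd (congrArg Fin.val hcon) (by simp)
    · refine ⟨⟨0, by omega⟩, fun e' he' => ?_⟩
      rw [mem_singleton] at he'
      subst he'
      exact h
  hR := fun T T' hT ⟨x₀, h⟩ => ⟨x₀, fun e he => h e (hT he)⟩

/-- The exceptional row choices for a fixed assignment of the columns. -/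
def ExO (𝒞 : Set (Finset (D × ((Fin k × Fin w) × Fin n)))) (θ : D → Fin n) :
    (Fin k → Fin w) → Prop :=
  BrBad (X := Fin k × Fin w) (fun φ v => φ v.1 = v.2) (k - 1)
    {r : Finset (Finset (Fin k × Fin w)) | ∃ F ∈ 𝒞,
      r = (F.filter fun e => θ e.1 = e.2.2).image fun e => {e.2.1}}

/-- The exceptional column assignments for a fixed choice of the rows. -/
def ThO (𝒞 : Set (Finset (D × ((Fin k × Fin w) × Fin n)))) (φ : Fin k → Fin w) (x₀ : Fin k) :
    (D → Fin n) → Prop :=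
  BrBad (X := D × Fin n) (fun θ v => θ v.1 = v.2) (k - 1)
    {r : Finset (Finset (D × Fin n)) | ∃ F ∈ 𝒞,
      r = (F.filter fun e => φ e.2.1.1 = e.2.1.2 ∧ e.2.1.1 ≠ x₀).image fun e => {(e.1, e.2.2)}}

theorem cnt_ExO (hk : 1 ≤ k) (hw : 1 ≤ w) {c : ℕ} (hc1 : 1 ≤ c)
    (𝒞 : Set (Finset (D × ((Fin k × Fin w) × Fin n))))
    (hc : ∀ F ∈ 𝒞, F.card ≤ c) (θ : D → Fin n) : cnt (ExO 𝒞 θ) ≤ c ^ k := by
  have h := branch (Ω := Fin k → Fin w) (X := Fin k × Fin w) (fun φ v => φ v.1 = v.2) w c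
    (k - 1) hw hc1 (cnt_prescribed w)
    {r : Finset (Finset (Fin k × Fin w)) | ∃ F ∈ 𝒞,
      r = (F.filter fun e => θ e.1 = e.2.2).image fun e => {e.2.1}} (by
      rintro r ⟨F, hF, rfl⟩
      exact card_image_le.trans ((card_filter_le _ _).trans (hc F hF)))
  have hk1 : k - 1 + 1 = k := by omega
  rw [hk1, Fintype.card_fun, Fintype.card_fin, Fintype.card_fin] at h
  exact Nat.le_of_mul_le_mul_right h (Nat.pow_pos hw)

theorem cnt_ThO (hk : 1 ≤ k) (hn : 1 ≤ n) {c : ℕ} (hc1 : 1 ≤ c)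
    (𝒞 : Set (Finset (D × ((Fin k × Fin w) × Fin n))))
    (hc : ∀ F ∈ 𝒞, F.card ≤ c) (φ : Fin k → Fin w) (x₀ : Fin k) :
    cnt (ThO 𝒞 φ x₀) * n ^ k ≤ c ^ k * Fintype.card (D → Fin n) := by
  have h := branch (Ω := D → Fin n) (X := D × Fin n) (fun θ v => θ v.1 = v.2) n c
    (k - 1) hn hc1 (cnt_prescribed n)
    {r : Finset (Finset (D × Fin n)) | ∃ F ∈ 𝒞,
      r = (F.filter fun e => φ e.2.1.1 = e.2.1.2 ∧ e.2.1.1 ≠ x₀).image fun e => {(e.1, e.2.2)}} (by
      rintro r ⟨F, hF, rfl⟩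
      exact card_image_le.trans ((card_filter_le _ _).trans (hc F hF)))
  have hk1 : k - 1 + 1 = k := by omega
  rw [hk1] at h
  exact h

theorem badO_cover {A c : ℕ} (hk : 2 ≤ k) (hℓ : 1 ≤ k * k) (hc : 1 ≤ c)
    (𝒞 : Set (Finset (D × ((Fin k × Fin w) × Fin n))))
    (t : (Fin k → Fin w) × (D → Fin n))
    (ht : (baseSys D (posO (k := k) (w := w)) (negO (A := A))
      (parO k w n (k * k) c hk hℓ hc)).BadP 𝒞 t) :
    ExO 𝒞 t.2 t.1 ∨ ∃ x₀, ThO 𝒞 t.1 x₀ t.2 := by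
  obtain ⟨hhit, hsmall⟩ := ht
  by_contra hcon
  push Not at hcon
  obtain ⟨h1, h2⟩ := hcon
  unfold ExO BrBad at h1
  push Not at h1
  obtain ⟨Y, hYc, hYφ, hY⟩ := h1 (by
    rintro r ⟨F, hF, rfl⟩
    obtain ⟨e, he, hep⟩ := hhit F hF
    refine ⟨{e.2.1}, ?_, ?_⟩
    · rw [mem_image]
      exact ⟨e, mem_filter.2 ⟨he, hep.2⟩, rfl⟩
    · intro v hv
      rw [mem_singleton] at hv
      subst hv
      exact hep.1)
  -- a group outside of `Y`
  obtain ⟨x₀, hx₀⟩ : ∃ x₀ : Fin k, x₀ ∉ Y.image Prod.fst := by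
    by_contra hall
    push Not at hall
    have : (univ : Finset (Fin k)) ⊆ Y.image Prod.fst := fun x _ => hall x
    have := card_le_card this
    have h3 := (card_image_le (s := Y) (f := Prod.fst)).trans hYc
    rw [card_univ, Fintype.card_fin] at this
    omega
  have hYF : ∀ F ∈ 𝒞, ∃ e ∈ F, t.2 e.1 = e.2.2 ∧ e.2.1 ∈ Y := by
    intro F hF
    obtain ⟨O, hO, hOY⟩ := hY _ ⟨F, hF, rfl⟩
    rw [mem_image] at hO
    obtain ⟨e, he, rfl⟩ := hO
    rw [mem_filter] at he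
    exact ⟨e, he.1, he.2, hOY (mem_singleton_self _)⟩
  apply h2 x₀
  refine ⟨?_, ?_⟩
  · rintro G ⟨F, hF, rfl⟩
    obtain ⟨e, he, hθ, heY⟩ := hYF F hF
    refine ⟨{(e.1, e.2.2)}, ?_, ?_⟩
    · rw [mem_image]
      refine ⟨e, mem_filter.2 ⟨he, hYφ _ heY, ?_⟩, rfl⟩
      rintro rfl
      exact hx₀ (mem_image_of_mem Prod.fst heY)
    · intro v hv
      rw [mem_singleton] at hv
      subst hv
      exact hθ
  · intro Y' hY'c hY'θ
    obtain ⟨F, hF, hFY⟩ := hsmall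
      ((Y' ×ˢ (univ.filter fun x : Fin k => x ≠ x₀)).image
        fun p => (p.1.1, ((p.2, t.1 p.2), p.1.2)))
      ⟨by
        refine card_image_le.trans ?_
        rw [card_product]
        refine Nat.mul_le_mul (hY'c.trans (Nat.sub_le _ _)) ((card_le_univ _).trans ?_)
        rw [Fintype.card_fin], x₀, by
        intro e he
        obtain ⟨e', he', rfl⟩ := (@mem_image _ _ (_) _ _ _).1 he
        obtain ⟨p, hp, rfl⟩ := (@mem_image _ _ (_) _ _ _).1 he'
        rw [mem_product, mem_filter] at hp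
        exact hp.2.2⟩ (by
        intro e he
        rw [mem_image] at he
        obtain ⟨p, hp, rfl⟩ := he
        rw [mem_product] at hp
        exact ⟨rfl, hY'θ _ hp.1⟩)
    refine ⟨_, ⟨F, hF, rfl⟩, ?_⟩
    intro O hO hOY
    rw [mem_image] at hO
    obtain ⟨e, he, rfl⟩ := hO
    rw [mem_filter] at he
    have heY := hOY (mem_singleton_self _)
    apply hFY e he.1
    rw [mem_image]
    refine ⟨((e.1, e.2.2), e.2.1.1), ?_, ?_⟩
    · rw [mem_product, mem_filter]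
      exact ⟨heY, mem_univ _, he.2.2⟩
    · simp only [he.2.1]

theorem card_badO {A c : ℕ} (hk : 2 ≤ k) (hw : 1 ≤ w) (hn : 1 ≤ n) (hnw : n ≤ w)
    (hℓ : 1 ≤ k * k) (hc1 : 1 ≤ c)
    (𝒞 : Set (Finset (D × ((Fin k × Fin w) × Fin n)))) (hc : ∀ F ∈ 𝒞, F.card ≤ c) :
    (univ.filter ((baseSys D (posO (k := k) (w := w)) (negO (A := A))
      (parO k w n (k * k) c hk hℓ hc1)).BadP 𝒞)).card * n ^ k ≤
      ((k + 1) * c ^ k) * Fintype.card ((Fin k → Fin w) × (D → Fin n)) := by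
  obtain ⟨m, hm⟩ : ∃ m, m = Fintype.card (D → Fin n) := ⟨_, rfl⟩
  have hN : Fintype.card ((Fin k → Fin w) × (D → Fin n)) = w ^ k * m := by
    rw [Fintype.card_prod, Fintype.card_fun, Fintype.card_fin, Fintype.card_fin, hm]
  have h1 : cnt (fun t : (Fin k → Fin w) × (D → Fin n) => ExO 𝒞 t.2 t.1) ≤ m * c ^ k := by
    rw [cnt_prod']
    calc ∑ θ : D → Fin n, cnt (ExO 𝒞 θ)
        ≤ ∑ _θ : D → Fin n, c ^ k := sum_le_sum fun θ _ => cnt_ExO (by omega) hw hc1 𝒞 hc θ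
      _ = m * c ^ k := by rw [sum_const, smul_eq_mul, card_univ, hm]
  have h2 : ∀ x₀, cnt (fun t : (Fin k → Fin w) × (D → Fin n) => ThO 𝒞 t.1 x₀ t.2) * n ^ k ≤
      w ^ k * (c ^ k * m) := by
    intro x₀
    rw [cnt_prod, sum_mul]
    calc ∑ φ : Fin k → Fin w, cnt (ThO 𝒞 φ x₀) * n ^ k
        ≤ ∑ _φ : Fin k → Fin w, c ^ k * m := by
          apply sum_le_sum
          intro φ _
          rw [hm]
          exact cnt_ThO (by omega) hn hc1 𝒞 hc φ x₀
      _ = w ^ k * (c ^ k * m) := by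
          rw [sum_const, smul_eq_mul, card_univ, Fintype.card_fun, Fintype.card_fin,
            Fintype.card_fin]
  have h3 : (univ.filter ((baseSys D (posO (k := k) (w := w)) (negO (A := A))
      (parO k w n (k * k) c hk hℓ hc1)).BadP 𝒞)).card ≤
      cnt (fun t : (Fin k → Fin w) × (D → Fin n) => ExO 𝒞 t.2 t.1) +
      ∑ x₀, cnt (fun t : (Fin k → Fin w) × (D → Fin n) => ThO 𝒞 t.1 x₀ t.2) :=
    (cnt_or (fun t ht => badO_cover hk hℓ hc1 𝒞 t ht)).trans
      (Nat.add_le_add_left (cnt_exists fun t ht => ht) _)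
  calc _ ≤ (cnt (fun t : (Fin k → Fin w) × (D → Fin n) => ExO 𝒞 t.2 t.1) +
        ∑ x₀, cnt (fun t : (Fin k → Fin w) × (D → Fin n) => ThO 𝒞 t.1 x₀ t.2)) * n ^ k :=
        Nat.mul_le_mul_right _ h3
    _ = cnt (fun t : (Fin k → Fin w) × (D → Fin n) => ExO 𝒞 t.2 t.1) * n ^ k +
        ∑ x₀, cnt (fun t : (Fin k → Fin w) × (D → Fin n) => ThO 𝒞 t.1 x₀ t.2) * n ^ k := by
        rw [← sum_mul]; ring
    _ ≤ (m * c ^ k) * w ^ k + ∑ _x₀ : Fin k, w ^ k * (c ^ k * m) := by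
        apply Nat.add_le_add
        · exact Nat.mul_le_mul h1 (Nat.pow_le_pow_left hnw _)
        · exact sum_le_sum fun x₀ _ => h2 x₀
    _ = _ := by
        rw [sum_const, smul_eq_mul, card_univ, Fintype.card_fin, hN]
        ring

/-- Uncurrying the random values. -/
def uncO (D X Y V W : Type) : (D → (X → V) × (Y → W)) ≃ (D × X → V) × (D × Y → W) :=
  ⟨fun u => (fun e => (u e.1).1 e.2, fun e => (u e.1).2 e.2),
    fun v d => (fun x => v.1 (d, x), fun y => v.2 (d, y)), fun _ => rfl, fun _ => rfl⟩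

/-- The exceptional values for a fixed assignment of the entries. -/
def ZO {A : ℕ} (b : ℕ) (𝒲 : Set (Finset (D × ((Fin k × Fin w) × Fin n)))) (ξ : D × Fin n → Fin k) :
    (D × (Fin k × Fin w) → Fin A) → Prop :=
  BrBad (X := D × (Fin k × Fin w)) (fun χ e => (χ e).val = 0) b
    {r | ∃ W ∈ 𝒲, r = (W.filter fun e => ξ (e.1, e.2.2) = e.2.1.1).image fun e => {(e.1, e.2.1)}}

/-- The literals of the entries that belong to the zeros `Z`. -/
def famO (𝒲 : Set (Finset (D × ((Fin k × Fin w) × Fin n)))) (Z : D × (Fin k × Fin w) → Prop) :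
    Set (Finset ((D × Fin n) × Fin k)) :=
  {G | ∃ W ∈ 𝒲, G = (flt W fun e => Z (e.1, e.2.1)).image fun e => ((e.1, e.2.2), e.2.1.1)}

theorem badNO_cover {A ℓ c b M : ℕ} (hk : 2 ≤ k) (hℓ : 1 ≤ ℓ) (hc : 1 ≤ c) (hcb : M * ℓ ^ 2 * b ≤ c)
    (𝒲 : Set (Finset (D × ((Fin k × Fin w) × Fin n))))
    (I : D × (Fin k × Fin w) → Fin A) (ξ : D × Fin n → Fin k)
    (ht : (baseSys D (posO (k := k) (w := w)) (negO (A := A))
      (parO k w n ℓ c hk hℓ hc)).BadN 𝒲 ((uncO _ _ _ _ _).symm (I, ξ))) :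
    ZO b 𝒲 ξ I ∨ ∃ i : Fin b → Option (D × (Fin k × Fin w)),
      Bad (famO 𝒲 fun x => ∃ j, i j = some x) (M * ℓ ^ 2) ξ := by
  obtain ⟨hhit, hsmall⟩ := ht
  by_contra hcon
  push Not at hcon
  obtain ⟨h1, h2⟩ := hcon
  have hhit' : ∀ W ∈ 𝒲, ∃ e ∈ W, (I (e.1, e.2.1)).val = 0 ∧ ξ (e.1, e.2.2) = e.2.1.1 := by
    intro W hW
    obtain ⟨e, he, hen⟩ := hhit W hW
    refine ⟨e, he, ?_⟩
    have hen' : ¬ ¬ ((I (e.1, e.2.1)).val = 0 ∧ ξ (e.1, e.2.2) = e.2.1.1) := hen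
    exact not_not.1 hen'
  unfold ZO BrBad at h1
  push Not at h1
  obtain ⟨Z, hZc, hZI, hZ⟩ := h1 (by
    rintro r ⟨W, hW, rfl⟩
    obtain ⟨e, he, heI, heξ⟩ := hhit' W hW
    refine ⟨{(e.1, e.2.1)}, ?_, ?_⟩
    · rw [mem_image]
      exact ⟨e, mem_filter.2 ⟨he, heξ⟩, rfl⟩
    · intro v hv
      rw [mem_singleton] at hv
      subst hv
      exact heI)
  have hZW : ∀ W ∈ 𝒲, ∃ e ∈ W, ξ (e.1, e.2.2) = e.2.1.1 ∧ (e.1, e.2.1) ∈ Z := by
    intro W hW
    obtain ⟨O, hO, hOZ⟩ := hZ _ ⟨W, hW, rfl⟩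
    rw [mem_image] at hO
    obtain ⟨e, he, rfl⟩ := hO
    rw [mem_filter] at he
    exact ⟨e, he.1, he.2, hOZ (mem_singleton_self _)⟩
  obtain ⟨i, hi⟩ := exists_code Z b hZc
  apply h2 i
  have hfun : (fun x => ∃ j, i j = some x) = fun x => x ∈ Z := by
    funext x
    exact propext (hi x).symm
  rw [hfun]
  refine ⟨?_, ?_⟩
  · rintro G ⟨W, hW, rfl⟩
    obtain ⟨e, he, heξ, heZ⟩ := hZW W hW
    refine ⟨((e.1, e.2.2), e.2.1.1), ?_, heξ⟩
    rw [mem_image]
    exact ⟨e, mem_flt.2 ⟨he, heZ⟩, rfl⟩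
  · intro Y hY
    obtain ⟨W, hW, hWF⟩ := hsmall
      ((Y ×ˢ Z).biUnion fun p => if p.1.1 = p.2.1 ∧ ξ p.1 = p.2.2.1 then
        {(p.1.1, (p.2.2, p.1.2))} else ∅) (by
        refine le_trans (card_biUnion_le.trans ?_) hcb
        calc ∑ p ∈ Y ×ˢ Z, (if p.1.1 = p.2.1 ∧ ξ p.1 = p.2.2.1 then
              ({(p.1.1, (p.2.2, p.1.2))} : Finset (D × ((Fin k × Fin w) × Fin n))) else ∅).card
            ≤ ∑ _p ∈ Y ×ˢ Z, 1 := by
              apply sum_le_sum
              intro p _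
              split_ifs <;> simp
          _ = Y.card * Z.card := by rw [sum_const, smul_eq_mul, mul_one, card_product]
          _ ≤ M * ℓ ^ 2 * b := Nat.mul_le_mul hY hZc) (by
        intro e he
        rw [mem_biUnion] at he
        obtain ⟨p, hp, he⟩ := he
        rw [mem_product] at hp
        split_ifs at he with hif
        · rw [mem_singleton] at he
          subst he
          intro hcon
          apply hcon
          refine ⟨?_, ?_⟩
          · change (I (p.1.1, p.2.2)).val = 0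
            rw [hif.1]
            exact hZI _ hp.2
          · exact hif.2
        · exact absurd he (notMem_empty _))
    refine ⟨_, ⟨W, hW, rfl⟩, ?_⟩
    intro p hp hpY hξp
    rw [mem_image] at hp
    obtain ⟨e, he, rfl⟩ := hp
    rw [mem_flt] at he
    simp only at hpY hξp
    refine hWF e ?_ he.1
    rw [mem_biUnion]
    refine ⟨((e.1, e.2.2), (e.1, e.2.1)), mem_product.2 ⟨hpY, he.2⟩, ?_⟩
    rw [if_pos ⟨rfl, hξp⟩]
    exact mem_singleton_self _

theorem card_badNO {A ℓ c b M a : ℕ} (hk : 2 ≤ k) (hA : 1 ≤ A) (hℓ : 1 ≤ ℓ) (hc : 1 ≤ c)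
    (hcb : M * ℓ ^ 2 * b ≤ c) (ha : k ^ ℓ ≤ a)
    (𝒲 : Set (Finset (D × ((Fin k × Fin w) × Fin n))))
    (hW : ∀ W ∈ 𝒲, W.card ≤ ℓ ∧ ∃ x₀, ∀ e ∈ W, e.2.1.1 ≠ x₀) :
    (univ.filter ((baseSys D (posO (k := k) (w := w)) (negO (A := A))
      (parO k w n ℓ c hk hℓ hc)).BadN 𝒲)).card * (A ^ (b + 1) * a ^ M) ≤
      (ℓ ^ (b + 1) * a ^ M +
        (Fintype.card (D × (Fin k × Fin w)) + 1) ^ b * A ^ (b + 1) * (a - 1) ^ M) *
      Fintype.card (D → (Fin k × Fin w → Fin A) × (Fin n → Fin k)) := by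
  obtain ⟨m₁, hm₁⟩ : ∃ m, m = Fintype.card (D × (Fin k × Fin w) → Fin A) := ⟨_, rfl⟩
  obtain ⟨m₂, hm₂⟩ : ∃ m, m = Fintype.card (D × Fin n → Fin k) := ⟨_, rfl⟩
  have hN : Fintype.card (D → (Fin k × Fin w → Fin A) × (Fin n → Fin k)) = m₁ * m₂ := by
    rw [Fintype.card_congr (uncO D (Fin k × Fin w) (Fin n) (Fin A) (Fin k)), Fintype.card_prod,
      hm₁, hm₂]
  have h1 : cnt (fun t : (D × (Fin k × Fin w) → Fin A) × (D × Fin n → Fin k) =>
      ZO b 𝒲 t.2 t.1) * A ^ (b + 1) ≤ m₂ * (ℓ ^ (b + 1) * m₁) := by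
    rw [cnt_prod', sum_mul]
    calc ∑ ξ : D × Fin n → Fin k, cnt (ZO (A := A) b 𝒲 ξ) * A ^ (b + 1)
        ≤ ∑ _ξ : D × Fin n → Fin k, ℓ ^ (b + 1) * m₁ := by
          apply sum_le_sum
          intro ξ _
          rw [hm₁]
          refine branch (Ω := D × (Fin k × Fin w) → Fin A) (X := D × (Fin k × Fin w))
            (fun χ e => (χ e).val = 0) A ℓ b hA hℓ (cnt_zero A hA) _ ?_
          rintro r ⟨W, hW', rfl⟩
          exact card_image_le.trans ((card_filter_le _ _).trans (hW W hW').1)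
      _ = m₂ * (ℓ ^ (b + 1) * m₁) := by rw [sum_const, smul_eq_mul, card_univ, hm₂]
  have h2 : ∀ i : Fin b → Option (D × (Fin k × Fin w)),
      cnt (fun t : (D × (Fin k × Fin w) → Fin A) × (D × Fin n → Fin k) =>
        Bad (famO 𝒲 fun x => ∃ j, i j = some x) (M * ℓ ^ 2) t.2) * a ^ M ≤
      m₁ * ((a - 1) ^ M * m₂) := by
    intro i
    rw [cnt_prod, sum_mul]
    calc ∑ _I : D × (Fin k × Fin w) → Fin A,
          cnt (Bad (famO 𝒲 fun x => ∃ j, i j = some x) (M * ℓ ^ 2)) * a ^ M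
        ≤ ∑ _I : D × (Fin k × Fin w) → Fin A, (a - 1) ^ M * m₂ := by
          apply sum_le_sum
          intro I _
          rw [hm₂]
          refine cnt_cols (D := D × Fin n) (V := Fin k) a ℓ M (by rwa [Fintype.card_fin])
            (by rw [Fintype.card_fin]; omega) _ ?_ ?_
          · rintro G ⟨W, hW', rfl⟩
            exact card_image_le.trans ((flt_card _ _).trans (hW W hW').1)
          · rintro G ⟨W, hW', rfl⟩
            obtain ⟨x₀, hx₀⟩ := (hW W hW').2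
            refine ⟨fun _ => x₀, ?_⟩
            intro p hp
            rw [mem_image] at hp
            obtain ⟨e, he, rfl⟩ := hp
            exact (hx₀ e (mem_flt.1 he).1).symm
      _ = m₁ * ((a - 1) ^ M * m₂) := by
          rw [sum_const, smul_eq_mul, card_univ, hm₁]
  have h3 : (univ.filter ((baseSys D (posO (k := k) (w := w)) (negO (A := A))
      (parO k w n ℓ c hk hℓ hc)).BadN 𝒲)).card ≤
      cnt (fun t : (D × (Fin k × Fin w) → Fin A) × (D × Fin n → Fin k) => ZO b 𝒲 t.2 t.1) +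
      ∑ i : Fin b → Option (D × (Fin k × Fin w)),
        cnt (fun t : (D × (Fin k × Fin w) → Fin A) × (D × Fin n → Fin k) =>
          Bad (famO 𝒲 fun x => ∃ j, i j = some x) (M * ℓ ^ 2) t.2) := by
    have h4 : cnt (fun t : (D × (Fin k × Fin w) → Fin A) × (D × Fin n → Fin k) =>
        (baseSys D (posO (k := k) (w := w)) (negO (A := A))
          (parO k w n ℓ c hk hℓ hc)).BadN 𝒲 ((uncO _ _ _ _ _).symm t)) ≤ _ :=
      (cnt_or (fun t ht => badNO_cover hk hℓ hc hcb 𝒲 t.1 t.2 ht)).trans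
        (Nat.add_le_add_left (cnt_exists fun t ht => ht) _)
    refine le_trans (cnt_le_of_inj (uncO D (Fin k × Fin w) (Fin n) (Fin A) (Fin k)) ?_
      (fun u u' _ _ h => (uncO _ _ _ _ _).injective h)) h4
    intro u hu
    rw [Equiv.symm_apply_apply]
    exact hu
  have hcardI : Fintype.card (Fin b → Option (D × (Fin k × Fin w))) =
      (Fintype.card (D × (Fin k × Fin w)) + 1) ^ b := by
    rw [Fintype.card_fun, Fintype.card_option, Fintype.card_fin]
  calc _ ≤ (cnt (fun t : (D × (Fin k × Fin w) → Fin A) × (D × Fin n → Fin k) => ZO b 𝒲 t.2 t.1) +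
      ∑ i : Fin b → Option (D × (Fin k × Fin w)),
        cnt (fun t : (D × (Fin k × Fin w) → Fin A) × (D × Fin n → Fin k) =>
          Bad (famO 𝒲 fun x => ∃ j, i j = some x) (M * ℓ ^ 2) t.2)) * (A ^ (b + 1) * a ^ M) :=
        Nat.mul_le_mul_right _ h3
    _ = (cnt (fun t : (D × (Fin k × Fin w) → Fin A) × (D × Fin n → Fin k) =>
          ZO b 𝒲 t.2 t.1) * A ^ (b + 1)) * a ^ M +
        A ^ (b + 1) * ∑ i : Fin b → Option (D × (Fin k × Fin w)),
          cnt (fun t : (D × (Fin k × Fin w) → Fin A) × (D × Fin n → Fin k) =>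
            Bad (famO 𝒲 fun x => ∃ j, i j = some x) (M * ℓ ^ 2) t.2) * a ^ M := by
        rw [← sum_mul]; ring
    _ ≤ (m₂ * (ℓ ^ (b + 1) * m₁)) * a ^ M +
        A ^ (b + 1) * ∑ _i : Fin b → Option (D × (Fin k × Fin w)), m₁ * ((a - 1) ^ M * m₂) := by
        apply Nat.add_le_add
        · exact Nat.mul_le_mul_right _ h1
        · exact Nat.mul_le_mul_left _ (sum_le_sum fun i _ => h2 i)
    _ = _ := by
        rw [sum_const, smul_eq_mul, card_univ, hcardI, hN]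
        ring

end

end Pool.Agent.T9h75.WT
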