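import Pool.Agent.T9h75.WT.Core
import Pool.Agent.T9h75.WT.Odd
import Pool.Agent.T9h75.WH.Param

set_option autoImplicit false
set_option linter.unusedSectionVars false

namespace Pool.Agent.T9h75.WT

open Finset Pool.Agent.T9h16 Pool.Agent.T9h75.WH
open scoped Classical

theorem cnt_coord_le {I Y : Type} [Fintype I] [DecidableEq I] [Fintype Y] (l : I) (a : Y → Prop)
    (A : ℕ) (h : cnt a * A ≤ Fintype.card Y) (hY : 0 < Fintype.card Y) :
    cnt (fun f : I → Y => a (f l)) * A ≤ Fintype.card (I → Y) := by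
  have h1 := cnt_coord l a
  rw [Fintype.card_fun]
  generalize cnt (fun f : I → Y => a (f l)) = X at *
  refine Nat.le_of_mul_le_mul_right ?_ hY
  calc X * A * Fintype.card Y = (X * Fintype.card Y) * A := by ring
    _ = (cnt a * A) * Fintype.card Y ^ Fintype.card I := by rw [h1]; ring
    _ ≤ Fintype.card Y * Fintype.card Y ^ Fintype.card I := Nat.mul_le_mul_right _ h
    _ = _ := by ring

theorem cnt_fst {X Y : Type} [Fintype X] [Fintype Y] (a : X → Prop) :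
    cnt (fun v : X × Y => a v.1) = cnt a * Fintype.card Y := by
  rw [cnt_prod']
  rw [sum_congr rfl (g := fun _ => cnt a) fun _ _ => rfl, sum_const, smul_eq_mul, card_univ,
    mul_comm]

theorem cnt_snd {X Y : Type} [Fintype X] [Fintype Y] (a : Y → Prop) :
    cnt (fun v : X × Y => a v.2) = Fintype.card X * cnt a := by
  rw [cnt_prod]
  rw [sum_congr rfl (g := fun _ => cnt a) fun _ _ => rfl, sum_const, smul_eq_mul, card_univ]

theorem cnt_zero_one {X : Type} [Fintype X] [DecidableEq X] {A : ℕ} (hA : 1 ≤ A) (x : X) :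
    cnt (fun u : X → Fin A => (u x).val = 0) * A ≤ Fintype.card (X → Fin A) := by
  have h := cnt_zero (E := X) A hA {x}
  rw [card_singleton, pow_one] at h
  refine le_trans (Nat.mul_le_mul_right _ (cnt_mono ?_)) h
  intro u hu e he
  rw [mem_singleton] at he
  subst he
  exact hu

theorem cnt_columnO {k w n A : ℕ} (hA : 1 ≤ A) (φ : Fin k → Fin w) :
    cnt (fun v : (Fin k × Fin w → Fin A) × (Fin n → Fin k) => ∃ x, (v.1 (x, φ x)).val ≠ 0) *
      A ^ k ≤ (A ^ k - 1) * Fintype.card ((Fin k × Fin w → Fin A) × (Fin n → Fin k)) := by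
  have h := avoid_step (D := Fin k × Fin w) (V := Fin A) univ
    (univ.image fun x : Fin k => (x, φ x)) (fun _ => ⟨0, hA⟩) (A ^ k) (by
      rw [Fintype.card_fin, card_image_of_injective, card_univ, Fintype.card_fin]
      intro x y h
      exact (Prod.ext_iff.1 h).1) (fun u _ => mem_univ _)
  rw [card_univ] at h
  have h1 : cnt (fun v : Fin k × Fin w → Fin A => ∃ x, (v (x, φ x)).val ≠ 0) * A ^ k ≤
      (A ^ k - 1) * Fintype.card (Fin k × Fin w → Fin A) := by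
    refine le_trans (Nat.mul_le_mul_right _ (le_of_eq (cnt_eq_card _ ?_))) h
    intro v
    constructor
    · intro hv
      obtain ⟨-, j, hj, hv⟩ := (@mem_filter _ _ (_) _ _).1 hv
      rw [mem_image] at hj
      obtain ⟨x, -, rfl⟩ := hj
      exact ⟨x, fun h => hv (Fin.ext h)⟩
    · rintro ⟨x, hx⟩
      refine (@mem_filter _ _ (_) _ _).2
        ⟨mem_univ _, (x, φ x), mem_image_of_mem _ (mem_univ x), fun h => hx ?_⟩
      rw [h]
  rw [cnt_fst (fun v : Fin k × Fin w → Fin A => ∃ x, (v (x, φ x)).val ≠ 0), Fintype.card_prod]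
  calc _ = (cnt (fun v : Fin k × Fin w → Fin A => ∃ x, (v (x, φ x)).val ≠ 0) * A ^ k) *
        Fintype.card (Fin n → Fin k) := by ring
    _ ≤ ((A ^ k - 1) * Fintype.card (Fin k × Fin w → Fin A)) * Fintype.card (Fin n → Fin k) :=
        Nat.mul_le_mul_right _ h1
    _ = _ := by ring

/-- The base class for odd levels: conjunctions of disjunctions of at most `c` variables. -/
def BsO (c : ℕ) (E : Type) (f : Set E → Prop) : Prop :=
  ∃ 𝒞 : Set (Finset E), (∀ F ∈ 𝒞, F.card ≤ c) ∧ ∀ z, f z ↔ ∀ F ∈ 𝒞, ∃ e ∈ F, e ∈ z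

/-- Conjunctions of disjunctions of at most `h` wires. -/
def BfO {β : Type} (h : ℕ) (F : Set β → Prop) : Prop :=
  ∃ 𝒪 : Set (Finset β), (∀ O ∈ 𝒪, O.card ≤ h) ∧ ∀ v, F v ↔ ∀ O ∈ 𝒪, ∃ o ∈ O, o ∈ v

/-- The value of a column: some entry is covered by all chosen rows. -/
def GO {k w n : ℕ} (φ : Fin k → Fin w) (z : Set ((Fin k × Fin w) × Fin n)) : Prop :=
  ∃ l, ∀ x, ((x, φ x), l) ∈ z

theorem base_odd {q k w A N B c : ℕ} (hk : 1 ≤ k) (hA : 1 ≤ A) (hB : 4 * N < 2 ^ B)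
    (hBA : 4 * (B * k) ≤ A) (hq : 1 ≤ q) (hc : 1 ≤ c) (hcq : 2 * c ≤ q)
    (φ : Fin k → Fin w) (E : Type) (s : Set (DC q 0 × ((Fin k × Fin w) × Fin q)) → Set E)
    (hs : SubLeaf s) (f : Set E → Prop) (hf : BsO c E f)
    (hacc : Fintype.card (Sel q 0 × (CP q 0 → Fin q)) ≤
      4 * N * cnt (fun t => f (s (posL posO 0 φ t)))) :
    cnt (fun u => ¬ f (s (negL (negO (A := A)) 0 u))) * 4 ≤
      Fintype.card (Reg q 0 × (CP q 0 → (Fin k × Fin w → Fin A) × (Fin q → Fin k))) := by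
  have hP0 : 0 < Fintype.card (Sel q 0 × (CP q 0 → Fin q)) := by
    have : Nonempty (Sel q 0 × (CP q 0 → Fin q)) := ⟨((), fun _ => ⟨0, hq⟩)⟩
    exact Fintype.card_pos
  have hlit : ∀ e : E, ∃ (act : Prop) (lit : Finset (CP q 0 × Fin q)),
      (∀ t, e ∈ s (posL posO 0 φ t) ↔ act ∧ ∀ v ∈ lit, t.2 v.1 = v.2) ∧
      (∀ u : Reg q 0 × (CP q 0 → (Fin k × Fin w → Fin A) × (Fin q → Fin k)), act →
        (∀ v ∈ lit, ∀ x, ((u.2 v.1).1 (x, φ x)).val ≠ 0) → e ∈ s (negL negO 0 u)) := by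
    intro e
    rcases hs e with ⟨t', ht'⟩ | ⟨e', he'⟩
    · refine ⟨t', ∅, fun t => ?_, fun u ha _ => (ht' _).2 ha⟩
      rw [ht']
      exact ⟨fun h => ⟨h, fun v hv => absurd hv (notMem_empty _)⟩, fun h => h.1⟩
    · refine ⟨φ e'.2.1.1 = e'.2.1.2, {(e'.1, e'.2.2)}, fun t => ?_, fun u ha hu => ?_⟩
      · rw [he']
        constructor
        · rintro ⟨p, hp, hp1, hp2⟩
          refine ⟨hp1, ?_⟩
          intro v hv
          have hv' := mem_singleton.1 hv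
          rw [hv']
          have hp' : p = e'.1 := hp
          rw [← hp']
          exact hp2
        · rintro ⟨h1, h2⟩
          exact ⟨e'.1, rfl, h1, h2 _ (mem_singleton_self _)⟩
      · rw [he']
        intro p hp
        have hp' : p = e'.1 := hp
        subst hp'
        rintro ⟨h1, -⟩
        apply hu _ (mem_singleton_self _) e'.2.1.1
        rw [ha]
        exact h1
  choose act lit hpos hneg using hlit
  obtain ⟨𝒞, hC, hfC⟩ := hf
  obtain ⟨R, hR⟩ : ∃ R : Set (Finset (Finset (CP q 0 × Fin q))),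
    R = {r | ∃ F ∈ 𝒞, r = (F.filter act).image lit} := ⟨_, rfl⟩
  have hB1 : 1 ≤ B := by
    by_contra hcon
    have hB0 : B = 0 := by omega
    rw [hB0, pow_zero] at hB
    have hN0 : N = 0 := by omega
    rw [hN0, mul_zero, zero_mul] at hacc
    omega
  have hbr := branch (Ω := CP q 0 → Fin q) (X := CP q 0 × Fin q) (fun θ v => θ v.1 = v.2) q c
    (B - 1) hq hc (cnt_prescribed q) R (by
      rw [hR]
      rintro r ⟨F, hF, rfl⟩
      exact card_image_le.trans ((card_filter_le _ _).trans (hC F hF)))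
  have hB2 : B - 1 + 1 = B := by omega
  rw [hB2] at hbr
  -- an accepted test which is not bad
  obtain ⟨t, htf, htb⟩ : ∃ t : Sel q 0 × (CP q 0 → Fin q), f (s (posL posO 0 φ t)) ∧
      ¬ BrBad (fun (θ : CP q 0 → Fin q) (v : CP q 0 × Fin q) => θ v.1 = v.2) (B - 1) R t.2 := by
    by_contra hcon
    push Not at hcon
    have h1 : cnt (fun t : Sel q 0 × (CP q 0 → Fin q) => f (s (posL posO 0 φ t))) ≤
        Fintype.card (Sel q 0) * cnt (BrBad (fun (θ : CP q 0 → Fin q) (v : CP q 0 × Fin q) =>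
          θ v.1 = v.2) (B - 1) R) := by
      rw [← cnt_snd (X := Sel q 0)]
      exact cnt_mono fun t ht => hcon t ht
    rw [Fintype.card_prod] at hacc hP0
    generalize cnt (BrBad (fun (θ : CP q 0 → Fin q) (v : CP q 0 × Fin q) =>
          θ v.1 = v.2) (B - 1) R) = X at *
    generalize cnt (fun t : Sel q 0 × (CP q 0 → Fin q) => f (s (posL posO 0 φ t))) = Y at *
    generalize Fintype.card (Sel q 0) = S at *
    generalize Fintype.card (CP q 0 → Fin q) = T at *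
    have hcB : 0 < c ^ B := Nat.pow_pos hc
    have h2 : X * 2 ^ B ≤ T := by
      refine Nat.le_of_mul_le_mul_right ?_ hcB
      calc X * 2 ^ B * c ^ B = X * (2 * c) ^ B := by rw [mul_pow]; ring
        _ ≤ X * q ^ B := Nat.mul_le_mul_left _ (Nat.pow_le_pow_left hcq _)
        _ ≤ c ^ B * T := hbr
        _ = T * c ^ B := by ring
    have hS0 : 0 < S := Nat.pos_of_mul_pos_right hP0
    have hT0 : 0 < T := Nat.pos_of_mul_pos_left hP0
    have h3 : S * T ≤ S * (4 * N * X) := by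
      calc S * T ≤ 4 * N * Y := hacc
        _ ≤ 4 * N * (S * X) := Nat.mul_le_mul_left _ h1
        _ = S * (4 * N * X) := by ring
    have h4 : T ≤ 4 * N * X := Nat.le_of_mul_le_mul_left h3 hS0
    have hX0 : 0 < X := by
      rcases Nat.eq_zero_or_pos X with h | h
      · rw [h, mul_zero] at h4; omega
      · exact h
    have h5 : X * 2 ^ B ≤ X * (4 * N) := by
      calc X * 2 ^ B ≤ T := h2
        _ ≤ 4 * N * X := h4
        _ = X * (4 * N) := by ring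
    have h6 := Nat.le_of_mul_le_mul_left h5 hX0
    omega
  unfold BrBad at htb
  push Not at htb
  obtain ⟨Y, hYc, hYt, hY⟩ := htb (by
    rw [hR]
    rintro r ⟨F, hF, rfl⟩
    rw [hfC] at htf
    obtain ⟨e, he, hes⟩ := htf F hF
    obtain ⟨ha, hl⟩ := (hpos e t).1 hes
    exact ⟨lit e, mem_image_of_mem _ (mem_filter.2 ⟨he, ha⟩), hl⟩)
  have hYF : ∀ F ∈ 𝒞, ∃ e ∈ F, act e ∧ lit e ⊆ Y := by
    intro F hF
    obtain ⟨O, hO, hOY⟩ := hY _ (by rw [hR]; exact ⟨F, hF, rfl⟩)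
    rw [mem_image] at hO
    obtain ⟨e, he, rfl⟩ := hO
    rw [mem_filter] at he
    exact ⟨e, he.1, he.2, hOY⟩
  have h1 : cnt (fun u => ¬ f (s (negL (negO (A := A)) 0 u))) ≤
      ∑ vx : {v // v ∈ Y} × Fin k,
        cnt (fun u : Reg q 0 × (CP q 0 → (Fin k × Fin w → Fin A) × (Fin q → Fin k)) =>
          ((u.2 vx.1.1.1).1 (vx.2, φ vx.2)).val = 0) := by
    apply cnt_exists
    intro u hu
    by_contra hcon
    push Not at hcon
    apply hu
    rw [hfC]
    intro F hF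
    obtain ⟨e, he, ha, hl⟩ := hYF F hF
    exact ⟨e, he, hneg e u ha fun v hv x => hcon (⟨v, hl hv⟩, x)⟩
  have hQ0 : 0 < Fintype.card ((Fin k × Fin w → Fin A) × (Fin q → Fin k)) := by
    have : Nonempty ((Fin k × Fin w → Fin A) × (Fin q → Fin k)) :=
      ⟨(fun _ => ⟨0, hA⟩, fun _ => ⟨0, hk⟩)⟩
    exact Fintype.card_pos
  have h2 : ∀ (d : CP q 0) (x : Fin k),
      cnt (fun u : Reg q 0 × (CP q 0 → (Fin k × Fin w → Fin A) × (Fin q → Fin k)) =>
        ((u.2 d).1 (x, φ x)).val = 0) * A ≤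
      Fintype.card (Reg q 0 × (CP q 0 → (Fin k × Fin w → Fin A) × (Fin q → Fin k))) := by
    intro d x
    have e1 : cnt (fun v : (Fin k × Fin w → Fin A) × (Fin q → Fin k) =>
        (v.1 (x, φ x)).val = 0) * A ≤
        Fintype.card ((Fin k × Fin w → Fin A) × (Fin q → Fin k)) := by
      rw [cnt_fst (fun v : Fin k × Fin w → Fin A => (v (x, φ x)).val = 0), Fintype.card_prod]
      calc _ = (cnt (fun v : Fin k × Fin w → Fin A => (v (x, φ x)).val = 0) * A) *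
            Fintype.card (Fin q → Fin k) := by ring
        _ ≤ _ := Nat.mul_le_mul_right _ (cnt_zero_one hA _)
    have e2 := cnt_coord_le (I := CP q 0) d _ A e1 hQ0
    rw [cnt_snd (X := Reg q 0) (fun u : CP q 0 → (Fin k × Fin w → Fin A) × (Fin q → Fin k) =>
        ((u d).1 (x, φ x)).val = 0), Fintype.card_prod]
    calc _ = Fintype.card (Reg q 0) *
          (cnt (fun u : CP q 0 → (Fin k × Fin w → Fin A) × (Fin q → Fin k) =>
            ((u d).1 (x, φ x)).val = 0) * A) := by ring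
      _ ≤ _ := Nat.mul_le_mul_left _ e2
  have h3 : cnt (fun u => ¬ f (s (negL (negO (A := A)) 0 u))) * A ≤
      (B * k) *
      Fintype.card (Reg q 0 × (CP q 0 → (Fin k × Fin w → Fin A) × (Fin q → Fin k))) := by
    calc _ ≤ (∑ vx : {v // v ∈ Y} × Fin k,
        cnt (fun u : Reg q 0 × (CP q 0 → (Fin k × Fin w → Fin A) × (Fin q → Fin k)) =>
          ((u.2 vx.1.1.1).1 (vx.2, φ vx.2)).val = 0)) * A := Nat.mul_le_mul_right _ h1
      _ ≤ ∑ _vx : {v // v ∈ Y} × Fin k,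
          Fintype.card (Reg q 0 × (CP q 0 → (Fin k × Fin w → Fin A) × (Fin q → Fin k))) := by
          rw [sum_mul]
          exact sum_le_sum fun vx _ => h2 vx.1.1.1 vx.2
      _ = (Y.card * k) *
          Fintype.card (Reg q 0 × (CP q 0 → (Fin k × Fin w → Fin A) × (Fin q → Fin k))) := by
          rw [sum_const, smul_eq_mul, card_univ, Fintype.card_prod, Fintype.card_coe,
            Fintype.card_fin]
      _ ≤ _ := Nat.mul_le_mul_right _ (Nat.mul_le_mul_right _ (by omega))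
  generalize cnt (fun u => ¬ f (s (negL (negO (A := A)) 0 u))) = X at *
  generalize Fintype.card (Reg q 0 × (CP q 0 → (Fin k × Fin w → Fin A) × (Fin q → Fin k))) = Z at *
  refine Nat.le_of_mul_le_mul_right ?_ hA
  calc X * 4 * A = (X * A) * 4 := by ring
    _ ≤ (B * k * Z) * 4 := Nat.mul_le_mul_right _ h3
    _ = Z * (4 * (B * k)) := by ring
    _ ≤ Z * A := Nat.mul_le_mul_left _ hBA

/-- Hardness of the tree functions of odd level. -/
theorem hard_odd (k h r : ℕ) (hk : 2 ≤ k) (hh : 1 ≤ h) : ∃ K, ∀ q ≥ K, ∀ s, s ≤ q ^ (k - 1) →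
    ∀ M N B, 0 < M → M ≤ N → 4 * N < 2 ^ B → (4 * (B * k)) ^ (2 * k) ≤ q →
    ∀ (β Ψ : Type) [Fintype Ψ] (Fψ : Ψ → Set β → Prop), (∀ ψ, KC (BfO h) M r (Fψ ψ)) →
      Fintype.card Ψ + s ≤ 2 * N →
      ∀ Acc : (β → Prop) → Prop, (∀ v, Acc v ↔ ∃ ψ, Fψ ψ v) →
        Hard (TT (q := q) (GO (k := k) (w := q) (n := q)) r) s Acc := by
  obtain ⟨b, hb⟩ : ∃ b, b = 2 * k ^ 2 := ⟨_, rfl⟩
  obtain ⟨a, ha⟩ : ∃ a, a = k ^ (k * k) := ⟨_, rfl⟩
  obtain ⟨α, hα⟩ : ∃ α, α = 4 + b * (1 + k) := ⟨_, rfl⟩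
  obtain ⟨γ, hγ⟩ : ∃ γ, γ = 2 * k ^ 2 + 2 * k * (r + 2) * b := ⟨_, rfl⟩
  have hkk : 1 ≤ k * k := Nat.mul_pos (by omega) (by omega)
  have hb1 : 1 ≤ b := by
    rw [hb]
    exact Nat.mul_pos (by norm_num) (Nat.pow_pos (by omega))
  have ha1 : 1 ≤ a := by rw [ha]; exact Nat.pow_pos (by omega)
  obtain ⟨A₁, hA₁⟩ := asym 2 (2 * k * (k + r)) 1 1
  obtain ⟨A₂, hA₂⟩ := asym α γ 1 (2 * h * (a * (k * k) ^ 2 * b))
  obtain ⟨A₃, hA₃⟩ := asym α γ k (4 * (k + 1) * (a * (k * k) ^ 2 * b) ^ k)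
  obtain ⟨A₀, hA₀⟩ : ∃ A₀, A₀ = A₁ + A₂ + A₃ + 16 * 2 ^ (2 * k ^ 2) * (k * k) ^ (b + 1) + 1 :=
    ⟨_, rfl⟩
  refine ⟨A₀ ^ (2 * k) + 1, fun q hq s hs M N B hM hMN hB hqB β Ψ _ Fψ hFψ hΨ Acc hAcc => ?_⟩
  have h2k : 2 * k ≠ 0 := by omega
  have hA₀1 : 1 ≤ A₀ := by omega
  have hq0 : A₀ ^ (2 * k) ≤ q := by omega
  have hq1 : 1 ≤ q := by omega
  have hA₀q : A₀ ≤ q := (Nat.le_self_pow h2k A₀).trans hq0
  obtain ⟨A, hAdef⟩ : ∃ A, A = Nat.findGreatest (fun A => A ^ (2 * k) ≤ q) q := ⟨_, rfl⟩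
  have hAA₀ : A₀ ≤ A := by
    rw [hAdef]
    exact Nat.le_findGreatest hA₀q hq0
  have hBA : 4 * (B * k) ≤ A := by
    rw [hAdef]
    exact Nat.le_findGreatest ((Nat.le_self_pow h2k _).trans hqB) hqB
  have hA1 : 1 ≤ A := hA₀1.trans hAA₀
  have hAq : A ^ (2 * k) ≤ q := by
    have := Nat.findGreatest_spec (P := fun A => A ^ (2 * k) ≤ q) hA₀q hq0
    rw [← hAdef] at this
    exact this
  have hAq' : A ≤ q := (Nat.le_self_pow h2k A).trans hAq
  have hqA : q < (A + 1) ^ (2 * k) := by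
    by_cases hlt : A + 1 ≤ q
    · have := Nat.findGreatest_is_greatest (P := fun A => A ^ (2 * k) ≤ q) (n := q) (k := A + 1)
        (by rw [← hAdef]; omega) hlt
      simpa using this
    · have := Nat.le_self_pow h2k (A + 1)
      omega
  obtain ⟨L, hL⟩ : ∃ L, L = Nat.clog 2 (A + 1) := ⟨_, rfl⟩
  have hAL : A + 1 ≤ 2 ^ L := by
    rw [hL]
    exact Nat.le_pow_clog (by norm_num) _
  have e1 := hA₁ A (by omega)
  have e2 := hA₂ A (by omega)
  have e3 := hA₃ A (by omega)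
  rw [← hL] at e1 e2 e3
  have hqL : q ≤ 2 ^ (2 * k * L) := by
    calc q ≤ (A + 1) ^ (2 * k) := hqA.le
      _ ≤ (2 ^ L) ^ (2 * k) := Nat.pow_le_pow_left hAL _
      _ = 2 ^ (2 * k * L) := by rw [← pow_mul]; congr 1; ring
  have hqk1 : q ^ k ≤ (A + 1) ^ (2 * k ^ 2) := by
    calc q ^ k ≤ ((A + 1) ^ (2 * k)) ^ k := Nat.pow_le_pow_left hqA.le _
      _ = _ := by rw [← pow_mul]; congr 1; ring
  have hqk2 : q ^ k ≤ 2 ^ (2 * k ^ 2 * L) := by
    refine hqk1.trans ((Nat.pow_le_pow_left hAL _).trans (le_of_eq ?_))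
    rw [← pow_mul]
    congr 1
    ring
  have hqk3 : q ^ k ≤ 2 ^ (2 * k ^ 2) * A ^ (2 * k ^ 2) := by
    refine hqk1.trans ?_
    rw [← mul_pow]
    exact Nat.pow_le_pow_left (by omega) _
  have hqkp : q ^ (k - 1) * q = q ^ k := by
    rw [← pow_succ]
    congr 1
    omega
  have hqk0 : 1 ≤ q ^ k := Nat.pow_pos hq1
  have hs1 : s + 1 ≤ 2 * q ^ (k - 1) := by
    have : 1 ≤ q ^ (k - 1) := Nat.pow_pos hq1
    omega
  have hs2 : s + 1 ≤ 2 * q ^ k := by
    refine hs1.trans (Nat.mul_le_mul_left _ ?_)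
    exact Nat.pow_le_pow_right hq1 (Nat.sub_le _ _)
  obtain ⟨r', hr'⟩ : ∃ r', r' = α + γ * L := ⟨_, rfl⟩
  rw [← hr'] at e2 e3
  have hr1 : 1 ≤ r' := by omega
  have hM' : 1 ≤ a * r' := Nat.mul_pos ha1 hr1
  obtain ⟨c, hc⟩ : ∃ c, c = a * r' * (k * k) ^ 2 * b := ⟨_, rfl⟩
  have hc1 : 1 ≤ c := by
    rw [hc]
    exact Nat.mul_pos (Nat.mul_pos hM' (Nat.pow_pos hkk)) hb1
  have hQne : Nonempty ((Fin k × Fin q → Fin A) × (Fin q → Fin k)) :=
    ⟨(fun _ => ⟨0, hA1⟩, fun _ => ⟨0, by omega⟩)⟩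
  have hCPc : ∀ r : ℕ, Fintype.card (CP q r) = q ^ (r + 1) := by
    intro r
    induction r with
    | zero =>
      rw [zero_add, pow_one]
      exact Fintype.card_fin q
    | succ r ih =>
      have : Fintype.card (CP q (r + 1)) = Fintype.card (Fin q × CP q r) := rfl
      rw [this, Fintype.card_prod, Fintype.card_fin, ih, pow_succ q (r + 1), mul_comm]
  refine core (q := q) (k := k) (w := q) (A₀ := A) (posV := posO) (negV := negO (A := A))
    (A := parO k q q (k * k) c hk hkk hc1) (G := GO) (χ := fun v => v.1) hq1 ⟨⟨0, hq1⟩⟩ hQne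
    ?_ ?_ ?_ hM hMN hB ?_ ?_ ?_ ?_ (BsO (h * c)) ?_ ?_
    (fun E 𝒲 𝒞 z => ∀ F ∈ 𝒞, ∃ e ∈ F, e ∈ z) ?_ ?_ ?_ (BfO h) ?_ ?_ Fψ hFψ hΨ hAcc
  · exact fun φ v => ⟨v, fun x => ⟨rfl, rfl⟩⟩
  · rintro φ z z' hz ⟨l, hl⟩
    exact ⟨l, fun x => hz (hl x)⟩
  · rintro φ v ⟨l, hl⟩
    refine ⟨v.2 l, fun hcon => hl (v.2 l) ⟨hcon, rfl⟩⟩
  · -- the number of columns
    calc 8 * B ≤ 4 * (B * k) := by
          have := Nat.mul_le_mul_left B hk
          omega
      _ ≤ A := hBA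
      _ ≤ q := hAq'
  · -- positive errors
    intro 𝒞 hC
    have h1 := card_badO (D := CP q r) (A := A) hk hq1 hq1 le_rfl hkk hc1 𝒞 hC
    have hcond : 2 * (s + 1) * ((k + 1) * c ^ k) ≤ q ^ k := by
      calc 2 * (s + 1) * ((k + 1) * c ^ k) ≤ 2 * (2 * q ^ (k - 1)) * ((k + 1) * c ^ k) :=
            Nat.mul_le_mul_right _ (Nat.mul_le_mul_left _ hs1)
        _ = q ^ (k - 1) * (4 * (k + 1) * (a * (k * k) ^ 2 * b) ^ k * r' ^ k) := by
            have : c = (a * (k * k) ^ 2 * b) * r' := by rw [hc]; ring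
            rw [this, mul_pow _ r' k]
            ring
        _ ≤ q ^ (k - 1) * q := Nat.mul_le_mul_left _ (e3.trans hAq')
        _ = q ^ k := hqkp
    generalize (univ.filter ((baseSys (CP q r) posO negO
      (parO k q q (k * k) c hk hkk hc1)).BadP 𝒞)).card = X at *
    generalize Fintype.card ((Fin k → Fin q) × (CP q r → Fin q)) = Y at *
    refine Nat.le_of_mul_le_mul_right ?_ hqk0
    calc X * (2 * (s + 1)) * q ^ k = (X * q ^ k) * (2 * (s + 1)) := by ring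
      _ ≤ ((k + 1) * c ^ k * Y) * (2 * (s + 1)) := Nat.mul_le_mul_right _ h1
      _ = Y * (2 * (s + 1) * ((k + 1) * c ^ k)) := by ring
      _ ≤ Y * q ^ k := Nat.mul_le_mul_left _ hcond
  · -- negative errors
    intro 𝒲 hW
    have h1 := card_badNO (D := CP q r) (M := a * r') (b := b) (a := a) hk hA1 hkk hc1
      (le_of_eq hc.symm) (le_of_eq ha.symm) 𝒲 (fun W hWW => by
        obtain ⟨hw1, x₀, hx₀⟩ := hW W hWW
        exact ⟨hw1, x₀, fun e he => hx₀ e.2 ((@mem_image _ _ (_) _ _ _).2 ⟨e, he, rfl⟩)⟩)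
    have hcard : Fintype.card (CP q r × (Fin k × Fin q)) + 1 ≤ 2 ^ (1 + k) * q ^ (r + 2) := by
      rw [Fintype.card_prod, Fintype.card_prod, Fintype.card_fin, Fintype.card_fin, hCPc]
      have c1 : k ≤ 2 ^ k := Nat.lt_two_pow_self.le
      have c2 : 1 ≤ 2 ^ k * q ^ (r + 2) := Nat.mul_pos (Nat.pow_pos (by norm_num)) (Nat.pow_pos hq1)
      have c3 : q ^ (r + 1) * (k * q) ≤ 2 ^ k * q ^ (r + 2) := by
        calc q ^ (r + 1) * (k * q) = k * q ^ (r + 2) := by ring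
          _ ≤ _ := Nat.mul_le_mul_right _ c1
      have c4 : 2 ^ (1 + k) * q ^ (r + 2) = 2 * (2 ^ k * q ^ (r + 2)) := by
        rw [pow_add]; ring
      omega
    have hcond1 : 8 * (s + 1) * (k * k) ^ (b + 1) ≤ A ^ (b + 1) := by
      calc 8 * (s + 1) * (k * k) ^ (b + 1)
          ≤ 8 * (2 * (2 ^ (2 * k ^ 2) * A ^ (2 * k ^ 2))) * (k * k) ^ (b + 1) :=
            Nat.mul_le_mul_right _ (Nat.mul_le_mul_left _ (hs2.trans (Nat.mul_le_mul_left _ hqk3)))
        _ = A ^ (2 * k ^ 2) * (16 * 2 ^ (2 * k ^ 2) * (k * k) ^ (b + 1)) := by ring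
        _ ≤ A ^ (2 * k ^ 2) * A := Nat.mul_le_mul_left _ (by omega)
        _ = A ^ (b + 1) := by rw [← pow_succ, hb]
    have hcond2 : 8 * (s + 1) * (Fintype.card (CP q r × (Fin k × Fin q)) + 1) ^ b *
        (a - 1) ^ (a * r') ≤ a ^ (a * r') := by
      have c3 : 8 * (s + 1) * (Fintype.card (CP q r × (Fin k × Fin q)) + 1) ^ b ≤ 2 ^ r' := by
        calc 8 * (s + 1) * (Fintype.card (CP q r × (Fin k × Fin q)) + 1) ^ b
            ≤ 8 * (2 * 2 ^ (2 * k ^ 2 * L)) * (2 ^ (1 + k) * (2 ^ (2 * k * L)) ^ (r + 2)) ^ b :=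
              Nat.mul_le_mul (Nat.mul_le_mul_left _ (hs2.trans (Nat.mul_le_mul_left _ hqk2)))
                (Nat.pow_le_pow_left (hcard.trans (Nat.mul_le_mul_left _
                  (Nat.pow_le_pow_left hqL _))) _)
          _ = 2 ^ r' := by
              rw [hr', hα, hγ, mul_pow, ← pow_mul, ← pow_mul, ← pow_mul]
              have : (4 + b * (1 + k)) + (2 * k ^ 2 + 2 * k * (r + 2) * b) * L =
                  4 + (2 * k ^ 2 * L) + ((1 + k) * b + 2 * k * L * (r + 2) * b) := by ring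
              rw [this, pow_add, pow_add, pow_add]
              ring
      calc _ ≤ 2 ^ r' * (a - 1) ^ (a * r') := Nat.mul_le_mul_right _ c3
        _ = ((a - 1) ^ a * 2) ^ r' := by rw [mul_pow, pow_mul]; ring
        _ ≤ (a ^ a) ^ r' := Nat.pow_le_pow_left (two_mul_pow_le a ha1) _
        _ = a ^ (a * r') := by rw [← pow_mul]
    have hpos : 0 < A ^ (b + 1) * a ^ (a * r') := Nat.mul_pos (Nat.pow_pos hA1) (Nat.pow_pos ha1)
    generalize (univ.filter ((baseSys (CP q r) posO negO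
      (parO k q q (k * k) c hk hkk hc1)).BadN 𝒲)).card = X at *
    generalize Fintype.card (CP q r → (Fin k × Fin q → Fin A) × (Fin q → Fin k)) = Y at *
    generalize (Fintype.card (CP q r × (Fin k × Fin q)) + 1) ^ b = Z at *
    generalize (a - 1) ^ (a * r') = a' at *
    generalize a ^ (a * r') = a'' at *
    generalize A ^ (b + 1) = A' at *
    generalize (k * k) ^ (b + 1) = k' at *
    refine Nat.le_of_mul_le_mul_right ?_ hpos
    have hfin : 2 * (4 * (s + 1) * (k' * a'' + Z * A' * a')) ≤ 2 * (A' * a'') := by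
      calc 2 * (4 * (s + 1) * (k' * a'' + Z * A' * a'))
          = (8 * (s + 1) * k') * a'' + A' * (8 * (s + 1) * Z * a') := by ring
        _ ≤ A' * a'' + A' * a'' :=
            Nat.add_le_add (Nat.mul_le_mul_right _ hcond1) (Nat.mul_le_mul_left _ hcond2)
        _ = _ := by ring
    calc X * (4 * (s + 1)) * (A' * a'') = (X * (A' * a'')) * (4 * (s + 1)) := by ring
      _ ≤ ((k' * a'' + Z * A' * a') * Y) * (4 * (s + 1)) := Nat.mul_le_mul_right _ h1
      _ = Y * (4 * (s + 1) * (k' * a'' + Z * A' * a')) := by ring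
      _ ≤ Y * (A' * a'') := Nat.mul_le_mul_left _ (by omega)
  · -- negativity
    refine cnt_NN (L := 2 + 2 * k * (k + r) * L) hA1 hq1 hQne (fun v => v.1)
      (fun φ => cnt_columnO hA1 φ) ?_ r 4 ?_
    · calc A ^ k * (2 + 2 * k * (k + r) * L) ≤ A ^ k * A := by
            apply Nat.mul_le_mul_left
            simpa using e1
        _ ≤ A ^ k * A ^ k := Nat.mul_le_mul_left _ (Nat.le_self_pow (by omega) A)
        _ = A ^ (2 * k) := by rw [← pow_add]; congr 1; ring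
        _ ≤ q := hAq
    · calc q ^ k * (q ^ r * 4) = 4 * q ^ (k + r) := by rw [pow_add]; ring
        _ ≤ 4 * (2 ^ (2 * k * L)) ^ (k + r) :=
            Nat.mul_le_mul_left _ (Nat.pow_le_pow_left hqL _)
        _ = 2 ^ (2 + 2 * k * (k + r) * L) := by
            rw [pow_add, ← pow_mul]
            ring
  · rintro E f ⟨𝒞, -, hf⟩ z z' hz h1
    rw [hf] at h1 ⊢
    intro F hF
    obtain ⟨e, he, hez⟩ := h1 F hF
    exact ⟨e, he, hz hez⟩
  · intro φ E s' hs' f hf hacc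
    have hcA : 2 * (h * c) ≤ A := by
      calc 2 * (h * c) = 2 * h * (a * (k * k) ^ 2 * b) * r' ^ 1 := by rw [hc]; ring
        _ ≤ A := e2
    exact base_odd (by omega) hA1 hB hBA hq1 (Nat.mul_pos hh hc1) (hcA.trans hAq') φ E s' hs' f hf
      hacc
  · rintro E 𝒲 𝒞 hmeet z ⟨W, hW, hWz⟩ F hF
    obtain ⟨e, he, heW⟩ := hmeet W hW F hF
    exact ⟨e, he, hWz e heW⟩
  · exact fun E 𝒲 𝒞 _ z h => h
  · intro E 𝒲 𝒞 _ hC
    refine ⟨𝒞, fun F hF => (hC F hF).trans (Nat.le_mul_of_pos_left _ hh), fun z => Iff.rfl⟩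
  · rintro F ⟨𝒪, -, ho⟩ v v' hv h1
    rw [ho] at h1 ⊢
    intro O hO
    obtain ⟨o, hoO, hov⟩ := h1 O hO
    exact ⟨o, hoO, hv hov⟩
  · rintro E 𝒲 𝒞 - hC F ⟨𝒪, hOh, ho⟩
    refine ⟨{F' | ∃ O ∈ 𝒪, ∃ Fa : β → Finset E, (∀ o ∈ O, Fa o ∈ 𝒞 o) ∧
      F' = O.biUnion Fa}, ?_, ?_⟩
    · rintro F' ⟨O, hO, Fa, hFa, rfl⟩
      refine card_biUnion_le.trans ?_
      calc ∑ o ∈ O, (Fa o).card ≤ ∑ _o ∈ O, c :=
            sum_le_sum fun o hoO => hC o _ (hFa o hoO)
        _ = O.card * c := by rw [sum_const, smul_eq_mul]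
        _ ≤ h * c := Nat.mul_le_mul_right _ (hOh O hO)
    · intro z
      change F {b | ∀ F ∈ 𝒞 b, ∃ e ∈ F, e ∈ z} ↔ _
      rw [ho]
      constructor
      · rintro h1 F' ⟨O, hO, Fa, hFa, rfl⟩
        obtain ⟨o, hoO, hoz⟩ := h1 O hO
        obtain ⟨e, he, hez⟩ := hoz _ (hFa o hoO)
        exact ⟨e, mem_biUnion.2 ⟨o, hoO, he⟩, hez⟩
      · intro h1 O hO
        by_contra hcon
        have hcon' : ∀ o, ∃ F : Finset E, o ∈ O → F ∈ 𝒞 o ∧ ∀ e ∈ F, e ∉ z := by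
          intro o
          by_cases hoO : o ∈ O
          · have : ¬ ∀ F ∈ 𝒞 o, ∃ e ∈ F, e ∈ z := fun h => hcon ⟨o, hoO, h⟩
            push Not at this
            obtain ⟨F, hF, hFz⟩ := this
            exact ⟨F, fun _ => ⟨hF, hFz⟩⟩
          · exact ⟨∅, fun h => absurd h hoO⟩
        choose Fa hFa using hcon'
        obtain ⟨e, he, hez⟩ := h1 _ ⟨O, hO, Fa, fun o hoO => (hFa o hoO).1, rfl⟩
        rw [mem_biUnion] at he
        obtain ⟨o, hoO, he⟩ := he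
        exact (hFa o hoO).2 e he hez

end Pool.Agent.T9h75.WT
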