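import Pool.Agent.T9h75.WT.Problem
import Pool.Agent.T9h75.WT.HardE
import Pool.Agent.T9h75.WT.HardO

set_option autoImplicit false
set_option linter.unusedSectionVars false

namespace Pool.Agent.T9h75.WT

open Finset Pool.Agent.T9h16 Pool.Agent.T9h75.WH
open scoped Classical

theorem Alt_congr {m : ℕ} : ∀ (t : ℕ) (b : Bool) {y y' : (Fin t → Fin m) → Prop},
    (∀ i, y i ↔ y' i) → (Alt m t b y ↔ Alt m t b y')
  | 0, _, _, _, h => h _
  | t + 1, true, _, _, h => forall_congr' fun _ => Alt_congr t false fun _ => h _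
  | t + 1, false, _, _, h => exists_congr fun _ => Alt_congr t true fun _ => h _

theorem Alt_const {m : ℕ} (hm : 0 < m) : ∀ (t : ℕ) (b : Bool) (Q : Prop),
    (Alt m t b fun _ => Q) ↔ Q
  | 0, _, _ => Iff.rfl
  | t + 1, true, Q => ⟨fun h => (Alt_const hm t false Q).1 (h ⟨0, hm⟩),
      fun h _ => (Alt_const hm t false Q).2 h⟩
  | t + 1, false, Q => ⟨fun ⟨_, h⟩ => (Alt_const hm t true Q).1 h,
      fun h => ⟨⟨0, hm⟩, (Alt_const hm t true Q).2 h⟩⟩

theorem comp_cons {m q t : ℕ} (π : Fin m → Fin q) (j : Fin m) (i : Fin t → Fin m) :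
    (fun l => π (Fin.cons (α := fun _ => Fin m) j i l)) =
      Fin.cons (α := fun _ => Fin q) (π j) fun l => π (i l) := by
  funext l
  refine Fin.cases ?_ (fun l => ?_) l
  · rfl
  · rfl

/-- Decoding the indices by a surjection. -/
theorem Alt_dec {m q : ℕ} (π : Fin m → Fin q) (hπ : Function.Surjective π) :
    ∀ (t : ℕ) (b : Bool) (y : (Fin t → Fin q) → Prop),
      (Alt m t b fun i => y fun l => π (i l)) ↔ Alt q t b y
  | 0, _, y => by
    have : (fun l => π (Fin.elim0 l)) = (Fin.elim0 : Fin 0 → Fin q) := by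
      funext l
      exact l.elim0
    change y (fun l => π (Fin.elim0 l)) ↔ y Fin.elim0
    rw [this]
  | t + 1, true, y => by
    have h : ∀ j : Fin m, (Alt m t false fun i => y fun l => π (Fin.cons (α := fun _ => Fin m) j i l))
        ↔ Alt q t false fun i => y (Fin.cons (π j) i) := by
      intro j
      rw [← Alt_dec π hπ t false fun i => y (Fin.cons (π j) i)]
      apply Alt_congr
      intro i
      rw [comp_cons]
    constructor
    · intro H j
      obtain ⟨j', rfl⟩ := hπ j
      exact (h j').1 (H j')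
    · intro H j
      exact (h j).2 (H (π j))
  | t + 1, false, y => by
    have h : ∀ j : Fin m, (Alt m t true fun i => y fun l => π (Fin.cons (α := fun _ => Fin m) j i l))
        ↔ Alt q t true fun i => y (Fin.cons (π j) i) := by
      intro j
      rw [← Alt_dec π hπ t true fun i => y (Fin.cons (π j) i)]
      apply Alt_congr
      intro i
      rw [comp_cons]
    constructor
    · rintro ⟨j, H⟩
      exact ⟨π j, (h j).1 H⟩
    · rintro ⟨j, H⟩
      obtain ⟨j', rfl⟩ := hπ j
      exact ⟨j', (h j').2 H⟩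

/-- Twice `r`. -/
def lv : ℕ → ℕ
  | 0 => 0
  | r + 1 => lv r + 2

theorem lv_eq : ∀ r, lv r = 2 * r
  | 0 => rfl
  | r + 1 => by
    change lv r + 2 = 2 * (r + 1)
    rw [lv_eq r]
    ring

/-- The column coded by a tuple of indices. -/
def dd {q : ℕ} : (r : ℕ) → (Fin (lv r + 1) → Fin q) → DC q r
  | 0, i => i 0
  | r + 1, i =>
    (i 0, (i (Fin.succ (0 : Fin (lv r + 2))), dd r fun l => i (l.succ.succ : Fin (lv r + 3))))

theorem Alt_out {q : ℕ} : ∀ (r : ℕ) (Y : DC q r → Prop),
    (Alt q (lv r + 1) true fun i => Y (dd r i)) ↔ Out r Y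
  | 0, _ => Iff.rfl
  | r + 1, Y => by
    change (∀ j : Fin q, ∃ l : Fin q, Alt q (lv r + 1) true fun i =>
      Y (dd (r + 1) (Fin.cons j (Fin.cons l i)))) ↔ ∀ j : Fin q, ∃ l : Fin q, Out r fun d => Y (j, l, d)
    refine forall_congr' fun j => exists_congr fun l => ?_
    rw [← Alt_out r fun d => Y (j, l, d)]
    exact Alt_congr _ _ fun i => Iff.rfl

/-- The tuple of an odd level: the column and the entry. -/
def de {q : ℕ} : (r : ℕ) → (Fin (lv r + 2) → Fin q) → DC q r × Fin q
  | 0, i => (i 0, i 1)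
  | r + 1, i =>
    ((i 0, (i (Fin.succ (0 : Fin (lv r + 3))), (de r fun l => i (l.succ.succ : Fin (lv r + 4))).1)),
      (de r fun l => i (l.succ.succ : Fin (lv r + 4))).2)

theorem Alt_out' {q : ℕ} : ∀ (r : ℕ) (Y : DC q r × Fin q → Prop),
    (Alt q (lv r + 2) true fun i => Y (de r i)) ↔ Out r fun d => ∃ l, Y (d, l)
  | 0, _ => Iff.rfl
  | r + 1, Y => by
    change (∀ j : Fin q, ∃ l : Fin q, Alt q (lv r + 2) true fun i =>
      Y (de (r + 1) (Fin.cons j (Fin.cons l i)))) ↔
      ∀ j : Fin q, ∃ l : Fin q, Out r fun d => ∃ l', Y ((j, l, d), l')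
    refine forall_congr' fun j => exists_congr fun l => ?_
    rw [← Alt_out' r fun d => Y ((j, l, d.1), d.2)]
    exact Alt_congr _ _ fun i => Iff.rfl

end Pool.Agent.T9h75.WT
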