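import Pool.Agent.T9h75.WT.Neg
import Pool.Agent.T9h75.WH.Cols

set_option autoImplicit false
set_option linter.unusedSectionVars false

namespace Pool.Agent.T9h75.WT

open Finset Pool.Agent.T9h16 Pool.Agent.T9h75.WH
open scoped Classical

/-- The bad event of the branching lemma. -/
def BrBad {Ω X : Type} (S : Ω → X → Prop) (ℓ : ℕ) (R : Set (Finset (Finset X))) (ω : Ω) : Prop :=
  (∀ r ∈ R, ∃ O ∈ r, ∀ x ∈ O, S ω x) ∧
    ∀ Y : Finset X, Y.card ≤ ℓ → (∀ x ∈ Y, S ω x) → ∃ r ∈ R, ∀ O ∈ r, ¬ O ⊆ Y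

theorem branch {Ω X : Type} [Fintype Ω] (S : Ω → X → Prop) (κ B ℓ : ℕ) (hκ : 1 ≤ κ) (hB : 1 ≤ B)
    (spread : ∀ Y : Finset X, cnt (fun ω => ∀ x ∈ Y, S ω x) * κ ^ Y.card ≤ Fintype.card Ω)
    (R : Set (Finset (Finset X))) (hR : ∀ r ∈ R, r.card ≤ B) :
    cnt (BrBad S ℓ R) * κ ^ (ℓ + 1) ≤ B ^ (ℓ + 1) * Fintype.card Ω := by
  refine le_trans (Nat.mul_le_mul_right _ (le_of_eq (cnt_eq_card _ ?_)))
    (branching S κ B ℓ hκ hB (fun Y => ?_) R hR)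
  · intro ω
    rw [mem_filter]
    exact ⟨fun h => h.2, fun h => ⟨mem_univ _, h⟩⟩
  · refine le_trans (Nat.mul_le_mul_right _ (le_of_eq (cnt_eq_card _ ?_).symm)) (spread Y)
    intro ω
    rw [mem_filter]
    exact ⟨fun h => h.2, fun h => ⟨mem_univ _, h⟩⟩

theorem cnt_prescribed {J : Type} [Fintype J] [DecidableEq J] (m : ℕ) (Y : Finset (J × Fin m)) :
    cnt (fun φ : J → Fin m => ∀ v ∈ Y, φ v.1 = v.2) * m ^ Y.card ≤ Fintype.card (J → Fin m) := by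
  refine le_trans (Nat.mul_le_mul_right _ (le_of_eq (cnt_eq_card _ ?_))) (card_prescribed m Y)
  intro ω
  rw [mem_filter]
  exact ⟨fun h => h.2, fun h => ⟨mem_univ _, h⟩⟩

theorem cnt_zero {E : Type} [Fintype E] [DecidableEq E] (A : ℕ) (hA : 1 ≤ A) (Y : Finset E) :
    cnt (fun χ : E → Fin A => ∀ e ∈ Y, (χ e).val = 0) * A ^ Y.card ≤ Fintype.card (E → Fin A) := by
  refine le_trans (Nat.mul_le_mul_right _ (le_of_eq (cnt_eq_card _ ?_))) (card_zero A hA Y)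
  intro ω
  rw [mem_filter]
  exact ⟨fun h => h.2, fun h => ⟨mem_univ _, h⟩⟩

theorem cnt_cols {D V : Type} [Fintype D] [Fintype V] [DecidableEq D] (a c M : ℕ)
    (ha : Fintype.card V ^ c ≤ a) (hV : 1 ≤ Fintype.card V)
    (𝒢 : Set (Finset (D × V))) (hc : ∀ G ∈ 𝒢, G.card ≤ c)
    (hτ : ∀ G ∈ 𝒢, ∃ τ : D → V, ∀ p ∈ G, τ p.1 ≠ p.2) :
    cnt (Bad 𝒢 (M * c ^ 2)) * a ^ M ≤ (a - 1) ^ M * Fintype.card (D → V) :=
  cols a c M ha hV 𝒢 hc hτ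

end Pool.Agent.T9h75.WT
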