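import Pool.Agent.T9h75.WT.Neg
import Pool.Agent.T9h75.WH.Chain

set_option autoImplicit false
set_option linter.unusedSectionVars false

namespace Pool.Agent.T9h75.WT

open Finset Pool.Agent.T9h16 Pool.Agent.T9h75.WH
open scoped Classical

theorem exists_avg {T I : Type} [Fintype T] [Fintype I] (U : Finset T)
    (p : I → T → Prop) (h : ∀ t ∈ U, ∃ i, p i t) (hU : 0 < U.card) :
    ∃ i, U.card ≤ Fintype.card I * cnt (p i) := by
  by_contra hcon
  push Not at hcon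
  have h1 : U.card ≤ ∑ i : I, cnt (p i) := by
    refine (card_le_card (t := univ.biUnion fun i => univ.filter (p i)) ?_).trans card_biUnion_le
    intro t ht
    obtain ⟨b, hb⟩ := h t ht
    exact mem_biUnion.2 ⟨b, mem_univ _, mem_filter.2 ⟨mem_univ _, hb⟩⟩
  have hne : Nonempty I := by
    obtain ⟨t, ht⟩ := card_pos.1 hU
    obtain ⟨i, -⟩ := h t ht
    exact ⟨i⟩
  have h2 : ∑ i : I, Fintype.card I * cnt (p i) < ∑ _i : I, U.card := by
    apply sum_lt_sum_of_nonempty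
    · exact ⟨hne.some, mem_univ _⟩
    · intro b _
      exact hcon b
  rw [← mul_sum, sum_const, card_univ, smul_eq_mul] at h2
  have h3 := Nat.mul_le_mul_left (Fintype.card I) h1
  omega

theorem KC.comp {E β : Type} {Bf : (Set β → Prop) → Prop} {Bs : (Set E → Prop) → Prop} {M : ℕ}
    (X : β → Set E → Prop) (h : ∀ F, Bf F → Bs fun z => F {b | X b z}) :
    ∀ (r : ℕ) (F : Set β → Prop), KC Bf M r F → KC Bs M r fun z => F {b | X b z}
  | 0, F, hF => h F hF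
  | r + 1, _, ⟨g, hg, hFg⟩ =>
    ⟨fun a b z => g a b {b | X b z}, fun a b => KC.comp X h r (g a b) (hg a b), fun _ => hFg _⟩

section
variable {q k w A₀ : ℕ} {E0 V Q0 : Type} [Fintype V] [Fintype Q0]

theorem core {posV : (Fin k → Fin w) → V → Set E0} {negV : Q0 → Set E0} {A : Par E0}
    {G : (Fin k → Fin w) → Set E0 → Prop} {χ : Q0 → Fin k × Fin w → Fin A₀}
    (hw : 1 ≤ w) (hV : Nonempty V) (hQ : Nonempty Q0)
    (hGp : ∀ φ v, G φ (posV φ v)) (hGm : ∀ φ z z', z ⊆ z' → G φ z → G φ z')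
    (hGn : ∀ φ v, G φ (negV v) → ∃ x, (χ v (x, φ x)).val ≠ 0)
    {r s M N B : ℕ} (hM : 0 < M) (hMN : M ≤ N) (hB : 4 * N < 2 ^ B) (hq : 8 * B ≤ q)
    (hP : ∀ 𝒞 : Set (Finset (CP q r × E0)), (∀ F ∈ 𝒞, F.card ≤ A.c) →
      (univ.filter ((baseSys (CP q r) posV negV A).BadP 𝒞)).card * (2 * (s + 1)) ≤
        Fintype.card ((Fin k → Fin w) × (CP q r → V)))
    (hN : ∀ 𝒲 : Set (Finset (CP q r × E0)),
      (∀ W ∈ 𝒲, W.card ≤ A.ℓ ∧ A.R (W.image Prod.snd)) →
      (univ.filter ((baseSys (CP q r) posV negV A).BadN 𝒲)).card * (4 * (s + 1)) ≤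
        Fintype.card (CP q r → Q0))
    (hNN : cnt (NN (q := q) χ r) * 4 ≤ Fintype.card (CP q r → Q0))
    (Bs : ∀ E : Type, (Set E → Prop) → Prop)
    (hBs : ∀ E f, Bs E f → ∀ z z' : Set E, z ⊆ z' → f z → f z')
    (hbase : ∀ (φ : Fin k → Fin w) (E : Type) (s : Set (DC q 0 × E0) → Set E), SubLeaf s →
      ∀ f, Bs E f →
      Fintype.card (Sel q 0 × (CP q 0 → V)) ≤ 4 * N * cnt (fun t => f (s (posL posV 0 φ t))) →
      cnt (fun u => ¬ f (s (negL negV 0 u))) * 4 ≤ Fintype.card (Reg q 0 × (CP q 0 → Q0)))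
    (X : ∀ E : Type, Set (Finset E) → Set (Finset E) → Set E → Prop)
    (hX1 : ∀ E (𝒲 𝒞 : Set (Finset E)), (∀ W ∈ 𝒲, ∀ F ∈ 𝒞, ∃ e ∈ F, e ∈ W) →
      ∀ z, (∃ W ∈ 𝒲, ∀ e ∈ W, e ∈ z) → X E 𝒲 𝒞 z)
    (hX2 : ∀ E (𝒲 𝒞 : Set (Finset E)), (∀ W ∈ 𝒲, ∀ F ∈ 𝒞, ∃ e ∈ F, e ∈ W) →
      ∀ z, X E 𝒲 𝒞 z → ∀ F ∈ 𝒞, ∃ e ∈ F, e ∈ z)
    (hX3 : ∀ E (𝒲 𝒞 : Set (Finset E)), (∀ W ∈ 𝒲, W.card ≤ A.ℓ) → (∀ F ∈ 𝒞, F.card ≤ A.c) →
      Bs E (X E 𝒲 𝒞))
    {β Ψ : Type} [Fintype Ψ] (Bf : (Set β → Prop) → Prop)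
    (hBf : ∀ F, Bf F → ∀ v v' : Set β, v ⊆ v' → F v → F v')
    (hX4 : ∀ E (𝒲 𝒞 : β → Set (Finset E)), (∀ b, ∀ W ∈ 𝒲 b, W.card ≤ A.ℓ) →
      (∀ b, ∀ F ∈ 𝒞 b, F.card ≤ A.c) → ∀ F, Bf F → Bs E fun z => F {b | X E (𝒲 b) (𝒞 b) z})
    (Fψ : Ψ → Set β → Prop) (hFψ : ∀ ψ, KC Bf M r (Fψ ψ)) (hΨ : Fintype.card Ψ + s ≤ 2 * N)
    {Acc : (β → Prop) → Prop} (hAcc : ∀ v, Acc v ↔ ∃ ψ, Fψ ψ v) :
    Hard (TT (q := q) G r) s Acc := by
  intro gt hg wr hwr xw hxw hpos hneg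
  have hLP := card_badP_lev (posV := posV) (negV := negV) (A := A) r (2 * (s + 1)) hP
  have hLN := card_badN_lev (posV := posV) (negV := negV) (A := A) r (4 * (s + 1)) hN
  obtain ⟨PE, NE, hPE, hNE, happ⟩ := Sys.appr_slp (S := levSys r posV negV A) hLP hLN gt s hg
  -- approximators of the wires
  have hw1 : ∀ b, (levSys r posV negV A).Appr PE NE (wr b) := fun b => happ _ (hwr b)
  have hx1 : ∀ i : Fin s, (levSys r posV negV A).Appr PE NE (xw i) :=
    fun i => happ _ (hxw i i.isLt)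
  choose 𝒲 𝒞 a1 a2 a3 a4 a5 using hw1
  choose 𝒲' 𝒞' b1 b2 b3 b4 b5 using hx1
  have hΨ' : Fintype.card (Ψ ⊕ Fin s) ≤ 2 * N := by
    rw [Fintype.card_sum, Fintype.card_fin]
    exact hΨ
  obtain ⟨f, hf⟩ : ∃ f : Ψ ⊕ Fin s → Set (DC q r × E0) → Prop, f = Sum.elim
    (fun ψ z => Fψ ψ {b | X _ (𝒲 b) (𝒞 b) z}) (fun i z => X _ (𝒲' i) (𝒞' i) z) := ⟨_, rfl⟩
  have hfK : ∀ i, KC (Bs _) M r (f i) := by
    rintro (ψ | i)
    · rw [hf]
      exact KC.comp _ (fun F hF => hX4 _ 𝒲 𝒞 (fun b W hW => (a1 b W hW).1) (fun b F hF => a2 b F hF)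
        F hF) r _ (hFψ ψ)
    · rw [hf]
      exact KC.of_base hM (hX3 _ _ _ (fun W hW => (b1 i W hW).1) (fun F hF => b2 i F hF)) r
  have hFm : ∀ ψ, ∀ v v' : Set β, v ⊆ v' → Fψ ψ v → Fψ ψ v' :=
    fun ψ => KC.mono hBf r _ (hFψ ψ)
  -- positive tests
  have hfpos : ∀ t, t ∉ PE → ∃ i, f i (posL posV r t.1 t.2) := by
    intro t ht
    rcases hpos _ (TT_posL hGp hGm r t.1 t.2) with h | ⟨i, hi, h⟩
    · rw [hAcc] at h
      obtain ⟨ψ, hψ⟩ := h
      refine ⟨Sum.inl ψ, ?_⟩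
      rw [hf]
      refine hFm ψ _ _ ?_ hψ
      intro b hb
      exact hX1 _ _ _ (a3 b) _ (a4 b t ht hb)
    · refine ⟨Sum.inr ⟨i, hi⟩, ?_⟩
      rw [hf]
      exact hX1 _ _ _ (b3 ⟨i, hi⟩) _ (b4 ⟨i, hi⟩ t ht h)
  -- negative tests
  have hfneg : ∀ u : Reg q r × (CP q r → Q0), u ∉ NE → ¬ NN χ r u.2 →
      ∀ i, ¬ f i (negL negV r u) := by
    intro u hu hu2 i hi
    have hT := not_TT_negL (negV := negV) hGn hGm r u hu2
    obtain ⟨hn1, hn2⟩ := hneg _ hT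
    rcases i with ψ | i
    · apply hn1
      rw [hAcc]
      refine ⟨ψ, ?_⟩
      rw [hf] at hi
      refine hFm ψ _ _ ?_ hi
      intro b hb
      by_contra hcon
      obtain ⟨F, hF, hFu⟩ := a5 b u hu hcon
      obtain ⟨e, he, he'⟩ := hX2 _ _ _ (a3 b) _ hb F hF
      exact hFu e he he'
    · rw [hf] at hi
      obtain ⟨F, hF, hFu⟩ := b5 i u hu (hn2 i i.isLt)
      obtain ⟨e, he, he'⟩ := hX2 _ _ _ (b3 i) _ hi F hF
      exact hFu e he he'
  -- counting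
  have hΦ0 : 0 < Fintype.card (Fin k → Fin w) := by
    rw [Fintype.card_fun, Fintype.card_fin]
    exact Nat.pow_pos hw
  have hneS : ∀ r, Nonempty (Sel q r) := by
    intro r
    induction r with
    | zero => exact ⟨()⟩
    | succ r ih => exact ⟨fun j => (j, ih.some)⟩
  have hT0 : 0 < Fintype.card (Sel q r × (CP q r → V)) := by
    have : Nonempty (Sel q r × (CP q r → V)) := ⟨((hneS r).some, fun _ => hV.some)⟩
    exact Fintype.card_pos
  have hB0 : 0 < B := by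
    rcases Nat.eq_zero_or_pos B with h | h
    · rw [h, pow_zero] at hB; omega
    · exact h
  have hq0 : 0 < q := by omega
  have hneR : ∀ r, Nonempty (Reg q r) := by
    intro r
    induction r with
    | zero => exact ⟨()⟩
    | succ r ih => exact ⟨(⟨0, hq0⟩, fun _ => ih.some)⟩
  have hQ0 : 0 < Fintype.card (Reg q r × (CP q r → Q0)) := by
    have : Nonempty (Reg q r × (CP q r → Q0)) := ⟨((hneR r).some, fun _ => hQ.some)⟩
    exact Fintype.card_pos
  have hPE2 : PE.card * 2 ≤ Fintype.card ((Fin k → Fin w) × (Sel q r × (CP q r → V))) := by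
    refine Nat.le_of_mul_le_mul_left (c := s + 1) ?_ (Nat.succ_pos s)
    calc (s + 1) * (PE.card * 2) = PE.card * (2 * (s + 1)) := by ring
      _ ≤ s * Fintype.card ((Fin k → Fin w) × (Sel q r × (CP q r → V))) := hPE
      _ ≤ _ := Nat.mul_le_mul_right _ (Nat.le_succ s)
  have hNE4 : NE.card * 4 ≤ Fintype.card (Reg q r × (CP q r → Q0)) := by
    refine Nat.le_of_mul_le_mul_left (c := s + 1) ?_ (Nat.succ_pos s)
    calc (s + 1) * (NE.card * 4) = NE.card * (4 * (s + 1)) := by ring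
      _ ≤ s * Fintype.card (Reg q r × (CP q r → Q0)) := hNE
      _ ≤ _ := Nat.mul_le_mul_right _ (Nat.le_succ s)
  have hP0 : 0 < Fintype.card ((Fin k → Fin w) × (Sel q r × (CP q r → V))) := by
    rw [Fintype.card_prod]
    exact Nat.mul_pos hΦ0 hT0
  have hUc : Fintype.card ((Fin k → Fin w) × (Sel q r × (CP q r → V))) ≤
      2 * ((univ : Finset ((Fin k → Fin w) × (Sel q r × (CP q r → V)))) \ PE).card := by
    rw [card_sdiff_of_subset (subset_univ _), card_univ]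
    omega
  obtain ⟨i, hi⟩ := exists_avg ((univ : Finset ((Fin k → Fin w) × (Sel q r × (CP q r → V)))) \ PE)
    (fun i t => f i (posL posV r t.1 t.2)) (by
      intro t ht
      rw [mem_sdiff] at ht
      exact hfpos t ht.2) (by omega)
  have hcntP : Fintype.card ((Fin k → Fin w) × (Sel q r × (CP q r → V))) ≤
      4 * N * cnt (fun t : (Fin k → Fin w) × (Sel q r × (CP q r → V)) =>
        f i (posL posV r t.1 t.2)) := by
    calc _ ≤ 2 * (Fintype.card (Ψ ⊕ Fin s) * cnt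
          (fun t : (Fin k → Fin w) × (Sel q r × (CP q r → V)) =>
            f i (posL posV r t.1 t.2))) := hUc.trans (Nat.mul_le_mul_left _ hi)
      _ ≤ 2 * (2 * N * cnt
          (fun t : (Fin k → Fin w) × (Sel q r × (CP q r → V)) =>
            f i (posL posV r t.1 t.2))) := Nat.mul_le_mul_left _ (Nat.mul_le_mul_right _ hΨ')
      _ = _ := by ring
  rw [cnt_prod, Fintype.card_prod] at hcntP
  obtain ⟨φ, hφ⟩ : ∃ φ : Fin k → Fin w, Fintype.card (Sel q r × (CP q r → V)) ≤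
      4 * N * cnt (fun t : Sel q r × (CP q r → V) => f i (posL posV r φ t)) := by
    by_contra hcon
    push Not at hcon
    have h1 : ∑ φ : Fin k → Fin w,
        4 * N * cnt (fun t : Sel q r × (CP q r → V) => f i (posL posV r φ t)) <
        ∑ _φ : Fin k → Fin w, Fintype.card (Sel q r × (CP q r → V)) := by
      apply sum_lt_sum_of_nonempty
      · have : Nonempty (Fin k → Fin w) := ⟨fun _ => ⟨0, hw⟩⟩
        exact univ_nonempty
      · intro φ _
        exact hcon φ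
    rw [← mul_sum, sum_const, card_univ, smul_eq_mul] at h1
    exact absurd hcntP (not_le.2 h1)
  have hfin := tree_lemma M N B hMN hB hq hV φ Bs hBs (hbase φ) r _ (fun z => z) subLeaf_id
    (f i) (hfK i) hφ
  have hall : Fintype.card (Reg q r × (CP q r → Q0)) ≤
      cnt (fun u : Reg q r × (CP q r → Q0) => u ∈ NE) +
      cnt (fun u : Reg q r × (CP q r → Q0) => NN χ r u.2 ∨ ¬ f i (negL negV r u)) := by
    have h1 : cnt (fun _ : Reg q r × (CP q r → Q0) => True) =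
        Fintype.card (Reg q r × (CP q r → Q0)) := by
      rw [cnt_eq_card univ (fun _ => by simp), card_univ]
    rw [← h1]
    apply cnt_or
    intro u _
    by_cases hu : u ∈ NE
    · exact Or.inl hu
    · right
      by_cases hu2 : NN χ r u.2
      · exact Or.inl hu2
      · exact Or.inr (hfneg u hu hu2 i)
  have hall2 : cnt (fun u : Reg q r × (CP q r → Q0) => NN χ r u.2 ∨ ¬ f i (negL negV r u)) ≤
      cnt (fun u : Reg q r × (CP q r → Q0) => NN χ r u.2) +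
      cnt (fun u : Reg q r × (CP q r → Q0) => ¬ f i (negL negV r u)) :=
    cnt_or fun u h => h
  have hNEc : cnt (fun u : Reg q r × (CP q r → Q0) => u ∈ NE) = NE.card :=
    cnt_eq_card NE fun _ => Iff.rfl
  have hNNc : cnt (fun u : Reg q r × (CP q r → Q0) => NN χ r u.2) * 4 ≤
      Fintype.card (Reg q r × (CP q r → Q0)) := by
    have h1 : cnt (fun u : Reg q r × (CP q r → Q0) => NN χ r u.2) =
        ∑ _κ : Reg q r, cnt (NN (q := q) χ r) := cnt_prod _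
    rw [h1, sum_const, smul_eq_mul, card_univ, Fintype.card_prod, mul_assoc]
    exact Nat.mul_le_mul_left _ hNN
  omega

end

end Pool.Agent.T9h75.WT
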