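import Mathlib

set_option autoImplicit false
set_option linter.unusedSectionVars false

namespace Pool.Agent.T9h75.WT

open Finset
open scoped Classical

/-- The number of `t` with `p t`. -/
noncomputable def cnt {T : Type} [Fintype T] (p : T → Prop) : ℕ := (univ.filter p).card

theorem cnt_mono {T : Type} [Fintype T] {p p' : T → Prop} (h : ∀ t, p t → p' t) :
    cnt p ≤ cnt p' := by
  apply card_le_card
  intro t ht
  exact mem_filter.2 ⟨mem_univ _, h t (mem_filter.1 ht).2⟩

theorem cnt_le {T : Type} [Fintype T] (p : T → Prop) : cnt p ≤ Fintype.card T := card_le_univ _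

theorem cnt_pos {T : Type} [Fintype T] {p : T → Prop} (h : 0 < cnt p) : ∃ t, p t := by
  obtain ⟨t, ht⟩ := card_pos.1 h
  exact ⟨t, (mem_filter.1 ht).2⟩

theorem cnt_le_of_inj {T U : Type} [Fintype T] [Fintype U] {p : T → Prop} {p' : U → Prop}
    (f : T → U) (h : ∀ t, p t → p' (f t)) (hf : ∀ t t', p t → p t' → f t = f t' → t = t') :
    cnt p ≤ cnt p' := by
  apply card_le_card_of_injOn f
  · intro t ht
    exact mem_coe.2 (mem_filter.2 ⟨mem_univ _, h t (mem_filter.1 (mem_coe.1 ht)).2⟩)
  · intro t ht t' ht' htt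
    exact hf t t' (mem_filter.1 (mem_coe.1 ht)).2 (mem_filter.1 (mem_coe.1 ht')).2 htt

theorem cnt_equiv {T U : Type} [Fintype T] [Fintype U] (e : T ≃ U) {p : T → Prop} {p' : U → Prop}
    (h : ∀ t, p t ↔ p' (e t)) : cnt p = cnt p' := by
  apply le_antisymm
  · exact cnt_le_of_inj e (fun t ht => (h t).1 ht) fun t t' _ _ htt => e.injective htt
  · exact cnt_le_of_inj e.symm (fun u hu => (h _).2 (by rwa [Equiv.apply_symm_apply]))
      fun t t' _ _ htt => e.symm.injective htt

theorem cnt_or {T : Type} [Fintype T] {p a b : T → Prop} (h : ∀ t, p t → a t ∨ b t) :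
    cnt p ≤ cnt a + cnt b := by
  refine le_trans (card_le_card (t := (univ.filter a) ∪ (univ.filter b)) ?_) (card_union_le _ _)
  intro t ht
  rw [mem_union, mem_filter, mem_filter]
  rcases h t (mem_filter.1 ht).2 with h | h
  · exact Or.inl ⟨mem_univ _, h⟩
  · exact Or.inr ⟨mem_univ _, h⟩

theorem cnt_exists {T I : Type} [Fintype T] [Fintype I] {p : T → Prop} {a : I → T → Prop}
    (h : ∀ t, p t → ∃ i, a i t) : cnt p ≤ ∑ i, cnt (a i) := by
  refine le_trans (card_le_card (t := univ.biUnion fun i => univ.filter (a i)) ?_)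
    card_biUnion_le
  intro t ht
  obtain ⟨i, hi⟩ := h t (mem_filter.1 ht).2
  exact mem_biUnion.2 ⟨i, mem_univ _, mem_filter.2 ⟨mem_univ _, hi⟩⟩

theorem cnt_prod {I Y : Type} [Fintype I] [Fintype Y] (p : I × Y → Prop) :
    cnt p = ∑ i, cnt fun y => p (i, y) := by
  unfold cnt
  rw [card_eq_sum_card_fiberwise (f := Prod.fst) (t := univ) (fun _ _ => mem_univ _)]
  apply sum_congr rfl
  intro J _
  apply card_nbij' Prod.snd (fun y => (J, y))
  · rintro ⟨J', y⟩ hx
    rw [mem_coe, mem_filter, mem_filter] at hx
    have h2 : J' = J := hx.2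
    subst h2
    rw [mem_coe, mem_filter]
    exact ⟨mem_univ _, hx.1.2⟩
  · intro y hy
    rw [mem_coe, mem_filter] at hy
    rw [mem_coe, mem_filter, mem_filter]
    exact ⟨⟨mem_univ _, hy.2⟩, rfl⟩
  · rintro ⟨J', y⟩ hx
    rw [mem_coe, mem_filter] at hx
    have h2 : J' = J := hx.2
    rw [h2]
  · intro y _
    rfl

theorem cnt_prod' {I Y : Type} [Fintype I] [Fintype Y] (p : I × Y → Prop) :
    cnt p = ∑ y, cnt fun i => p (i, y) := by
  have h := cnt_equiv (p := p) (Equiv.prodComm I Y) (p' := fun x => p (x.2, x.1))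
    (fun _ => Iff.rfl)
  rw [h, cnt_prod]

/-- Few projections of a dense set of functions are small. -/
theorem card_small_proj {q : ℕ} {X : Type} [Fintype X] [DecidableEq X] (𝒜 : Finset (Fin q → X)) :
    2 ^ (univ.filter fun J : Fin q => (𝒜.image fun t => t J).card * 2 < Fintype.card X).card *
      𝒜.card ≤ Fintype.card X ^ q := by
  set b := univ.filter fun J : Fin q => (𝒜.image fun t => t J).card * 2 < Fintype.card X with hb
  have h1 : 𝒜.card ≤ ∏ J : Fin q, (𝒜.image fun t => t J).card := by
    rw [← Fintype.card_piFinset]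
    apply card_le_card
    intro t ht
    rw [Fintype.mem_piFinset]
    intro J
    exact mem_image_of_mem _ ht
  have h2 : 2 ^ b.card = ∏ J : Fin q, if J ∈ b then 2 else 1 := by
    rw [prod_ite_mem, univ_inter, prod_const]
  calc 2 ^ b.card * 𝒜.card ≤ (∏ J : Fin q, if J ∈ b then 2 else 1) *
        ∏ J : Fin q, (𝒜.image fun t => t J).card := by
        rw [h2]
        exact Nat.mul_le_mul_left _ h1
    _ = ∏ J : Fin q, ((if J ∈ b then 2 else 1) * (𝒜.image fun t => t J).card) := by
        rw [prod_mul_distrib]
    _ ≤ ∏ _J : Fin q, Fintype.card X := by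
        apply prod_le_prod'
        intro J _
        split_ifs with hJ
        · rw [hb, mem_filter] at hJ
          rw [mul_comm]
          exact hJ.2.le
        · rw [one_mul]
          exact card_le_univ _
    _ = Fintype.card X ^ q := by
        rw [prod_const, card_univ, Fintype.card_fin]

/-- Most fibres of a dense set of pairs are not too small. -/
theorem card_good_fiber {q : ℕ} {T : Type} [Fintype T] (hT : 0 < Fintype.card T)
    (π : Finset (Fin q × T)) (hπ : q * Fintype.card T ≤ 2 * π.card) :
    q ≤ 3 * (univ.filter fun l : Fin q =>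
      Fintype.card T ≤ 4 * (univ.filter fun t : T => (l, t) ∈ π).card).card := by
  set G := univ.filter fun l : Fin q =>
      Fintype.card T ≤ 4 * (univ.filter fun t : T => (l, t) ∈ π).card with hG
  have h1 : π.card = ∑ l : Fin q, (univ.filter fun t : T => (l, t) ∈ π).card := by
    rw [card_eq_sum_card_fiberwise (f := Prod.fst) (t := univ) (fun _ _ => mem_univ _)]
    apply sum_congr rfl
    intro l _
    apply le_antisymm
    · apply card_le_card_of_injOn Prod.snd
      · rintro ⟨l', t⟩ ht
        rw [mem_coe, mem_filter] at ht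
        have h2 : l' = l := ht.2
        subst h2
        rw [mem_coe, mem_filter]
        exact ⟨mem_univ _, ht.1⟩
      · rintro ⟨l1, t⟩ ht ⟨l2, t'⟩ ht' h
        rw [mem_coe, mem_filter] at ht ht'
        have e1 : l1 = l := ht.2
        have e2 : l2 = l := ht'.2
        have e3 : t = t' := h
        rw [e1, e2, e3]
    · apply card_le_card_of_injOn (fun t => (l, t))
      · intro t ht
        rw [mem_coe, mem_filter] at ht ⊢
        exact ⟨ht.2, rfl⟩
      · intro t _ t' _ h
        exact (Prod.ext_iff.1 h).2
  have h2 : 4 * π.card ≤ ∑ l : Fin q, (if l ∈ G then 4 * Fintype.card T else Fintype.card T) := by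
    rw [h1, mul_sum]
    apply sum_le_sum
    intro l _
    split_ifs with hl
    · exact Nat.mul_le_mul_left _ (card_le_univ _)
    · rw [hG, mem_filter] at hl
      simp only [mem_univ, true_and, not_le] at hl
      exact hl.le
  have h3 : ∑ l : Fin q, (if l ∈ G then 4 * Fintype.card T else Fintype.card T) =
      3 * G.card * Fintype.card T + q * Fintype.card T := by
    have h4 : ∀ l : Fin q, (if l ∈ G then 4 * Fintype.card T else Fintype.card T) =
        (if l ∈ G then 3 * Fintype.card T else 0) + Fintype.card T := by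
      intro l
      split_ifs
      · ring
      · ring
    rw [sum_congr rfl fun l _ => h4 l, sum_add_distrib, sum_ite_mem, univ_inter, sum_const,
      sum_const, card_univ, Fintype.card_fin, smul_eq_mul, smul_eq_mul]
    ring
  rw [h3] at h2
  have h5 : q * Fintype.card T ≤ 3 * G.card * Fintype.card T := by
    have : 2 * (q * Fintype.card T) ≤ 4 * π.card := by omega
    omega
  exact Nat.le_of_mul_le_mul_right h5 hT

/-- Functions with many constrained coordinates. -/
theorem card_constrained {q : ℕ} {T : Type} [Fintype T] (G : Finset (Fin q))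
    (R : Fin q → Finset T) (hR : ∀ l ∈ G, (R l).card * 4 ≤ Fintype.card T) :
    (univ.filter fun y : Fin q → T => ∀ l ∈ G, y l ∈ R l).card * 4 ^ G.card ≤
      Fintype.card T ^ q := by
  have h1 : (univ.filter fun y : Fin q → T => ∀ l ∈ G, y l ∈ R l).card ≤
      ∏ l : Fin q, (if l ∈ G then (R l).card else Fintype.card T) := by
    have h2 : (univ.filter fun y : Fin q → T => ∀ l ∈ G, y l ∈ R l) ⊆
        Fintype.piFinset fun l => if l ∈ G then R l else univ := by
      intro y hy
      rw [mem_filter] at hy
      rw [Fintype.mem_piFinset]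
      intro l
      split_ifs with hl
      · exact hy.2 l hl
      · exact mem_univ _
    refine (card_le_card h2).trans ?_
    rw [Fintype.card_piFinset]
    apply prod_le_prod'
    intro l _
    split_ifs
    · exact le_rfl
    · rw [card_univ]
  have h3 : 4 ^ G.card = ∏ l : Fin q, if l ∈ G then 4 else 1 := by
    rw [prod_ite_mem, univ_inter, prod_const]
  calc (univ.filter fun y : Fin q → T => ∀ l ∈ G, y l ∈ R l).card * 4 ^ G.card
      ≤ (∏ l : Fin q, (if l ∈ G then (R l).card else Fintype.card T)) *
          ∏ l : Fin q, if l ∈ G then 4 else 1 := by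
        rw [h3]
        exact Nat.mul_le_mul_right _ h1
    _ = ∏ l : Fin q, ((if l ∈ G then (R l).card else Fintype.card T) *
          if l ∈ G then 4 else 1) := by rw [prod_mul_distrib]
    _ ≤ ∏ _l : Fin q, Fintype.card T := by
        apply prod_le_prod'
        intro l _
        split_ifs with hl
        · exact hR l hl
        · rw [mul_one]
    _ = Fintype.card T ^ q := by rw [prod_const, card_univ, Fintype.card_fin]

/-- Pigeonhole for a union of `M` events. -/
theorem exists_large {T : Type} [Fintype T] {M : ℕ} (hM : 0 < M) (U : Finset T)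
    (p : Fin M → T → Prop) (h : ∀ t ∈ U, ∃ b, p b t) :
    ∃ b, U.card ≤ M * (univ.filter (p b)).card := by
  by_contra hcon
  push Not at hcon
  have h1 : U.card ≤ ∑ b : Fin M, (univ.filter (p b)).card := by
    refine (card_le_card (t := univ.biUnion fun b => univ.filter (p b)) ?_).trans card_biUnion_le
    intro t ht
    obtain ⟨b, hb⟩ := h t ht
    exact mem_biUnion.2 ⟨b, mem_univ _, mem_filter.2 ⟨mem_univ _, hb⟩⟩
  have h2 : ∑ b : Fin M, M * (univ.filter (p b)).card < ∑ _b : Fin M, U.card := by
    apply sum_lt_sum_of_nonempty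
    · exact ⟨⟨0, hM⟩, mem_univ _⟩
    · intro b _
      exact hcon b
  rw [← mul_sum, sum_const, card_univ, Fintype.card_fin, smul_eq_mul] at h2
  have h3 := Nat.mul_le_mul_left M h1
  omega

/-- The induction step of the tree lemma, in abstract form. -/
theorem tree_step_aux {q M N B : ℕ} (hMN : M ≤ N) (hB : 4 * N < 2 ^ B) (hq : 8 * B ≤ q) (hq1 : 0 < q)
    {T U : Type} [Fintype T] [Fintype U] (hT0 : 0 < Fintype.card T)
    (acc : (Fin q → Fin q × T) → Prop) (rej : Fin q → (Fin q → U) → Prop)
    (gacc : Fin q → Fin M → Fin M → Fin q → T → Prop)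
    (grej : Fin q → Fin M → Fin M → Fin q → U → Prop)
    (h1 : ∀ x, acc x → ∀ J a, ∃ b, gacc J a b (x J).1 (x J).2)
    (h2 : ∀ J y, rej J y → ∃ a, ∀ b l, grej J a b l (y l))
    (h3 : ∀ J a b l, Fintype.card T ≤ 4 * N * (univ.filter fun t => gacc J a b l t).card →
      (univ.filter fun u => grej J a b l u).card * 4 ≤ Fintype.card U)
    (hacc : Fintype.card (Fin q × T) ^ q ≤ 4 * N * (univ.filter fun x => acc x).card) :
    (∑ J : Fin q, (univ.filter fun y => rej J y).card) * 4 ≤ q * Fintype.card U ^ q := by
  set 𝒜 : Finset (Fin q → Fin q × T) := univ.filter fun x => acc x with h𝒜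
  have hX0 : 0 < Fintype.card (Fin q × T) ^ q := by
    apply Nat.pow_pos
    rw [Fintype.card_prod, Fintype.card_fin]
    exact Nat.mul_pos hq1 hT0
  have h𝒜0 : 0 < 𝒜.card := by
    rcases Nat.eq_zero_or_pos 𝒜.card with h | h
    · rw [h, mul_zero] at hacc; omega
    · exact h
  have hB1 : 1 ≤ B := by
    rcases Nat.eq_zero_or_pos B with h | h
    · rw [h, pow_zero] at hB
      have hN : N = 0 := by omega
      rw [hN, Nat.mul_zero, Nat.zero_mul] at hacc
      omega
    · exact h
  -- the bad blocks
  set bad := univ.filter fun J : Fin q =>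
    (𝒜.image fun t => t J).card * 2 < Fintype.card (Fin q × T) with hbad
  have hbadc : bad.card < B := by
    have h4 := card_small_proj 𝒜
    have h5 : 2 ^ bad.card ≤ 4 * N := Nat.le_of_mul_le_mul_right (h4.trans hacc) h𝒜0
    exact (Nat.pow_lt_pow_iff_right (by norm_num)).1 (lt_of_le_of_lt h5 hB)
  -- a block that is not bad
  have hgood : ∀ J, J ∉ bad → (univ.filter fun y => rej J y).card * 8 ≤ Fintype.card U ^ q := by
    intro J hJ
    obtain ⟨π, hπ⟩ : ∃ π, π = 𝒜.image fun t => t J := ⟨_, rfl⟩
    have hπc : q * Fintype.card T ≤ 2 * π.card := by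
      rw [hbad, mem_filter] at hJ
      simp only [mem_univ, true_and, not_lt] at hJ
      rw [Fintype.card_prod, Fintype.card_fin, ← hπ] at hJ
      omega
    obtain ⟨G, hG⟩ : ∃ G, G = univ.filter fun l : Fin q =>
      Fintype.card T ≤ 4 * (univ.filter fun t : T => (l, t) ∈ π).card := ⟨_, rfl⟩
    have hGc : q ≤ 3 * G.card := by
      rw [hG]
      exact card_good_fiber hT0 π hπc
    -- choose the disjuncts
    have hchoose : ∀ (a : Fin M) (l : Fin q), l ∈ G → ∃ b,
        (univ.filter fun u => grej J a b l u).card * 4 ≤ Fintype.card U := by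
      intro a l hl
      have hM0 : 0 < M := lt_of_le_of_lt (Nat.zero_le _) a.isLt
      obtain ⟨b, hb⟩ := exists_large hM0 (univ.filter fun t : T => (l, t) ∈ π)
        (fun b t => gacc J a b l t) (by
          intro t ht
          rw [mem_filter] at ht
          have h4 := ht.2
          rw [hπ, mem_image] at h4
          obtain ⟨x, hx, hxJ⟩ := h4
          rw [h𝒜, mem_filter] at hx
          have h5 := h1 x hx.2 J a
          rw [hxJ] at h5
          exact h5)
      refine ⟨b, h3 J a b l ?_⟩
      rw [hG, mem_filter] at hl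
      calc Fintype.card T ≤ 4 * (univ.filter fun t : T => (l, t) ∈ π).card := hl.2
        _ ≤ 4 * (M * (univ.filter fun t => gacc J a b l t).card) := Nat.mul_le_mul_left _ hb
        _ ≤ 4 * (N * (univ.filter fun t => gacc J a b l t).card) :=
            Nat.mul_le_mul_left _ (Nat.mul_le_mul_right _ hMN)
        _ = _ := by ring
    choose! β hβ using hchoose
    obtain ⟨Rj, hRj⟩ : ∃ Rj : Fin M → Fin q → Finset U, Rj = fun a l =>
      univ.filter fun u => grej J a (β a l) l u := ⟨_, rfl⟩
    have hsub : (univ.filter fun y => rej J y) ⊆ (univ : Finset (Fin M)).biUnion fun a =>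
        univ.filter fun y : Fin q → U => ∀ l ∈ G, y l ∈ Rj a l := by
      intro y hy
      rw [mem_filter] at hy
      obtain ⟨a, ha⟩ := h2 J y hy.2
      refine mem_biUnion.2 ⟨a, mem_univ _, mem_filter.2 ⟨mem_univ _, fun l hl => ?_⟩⟩
      rw [hRj]
      exact mem_filter.2 ⟨mem_univ _, ha (β a l) l⟩
    have hcount : (univ.filter fun y => rej J y).card * 4 ^ G.card ≤
        M * Fintype.card U ^ q := by
      calc _ ≤ (∑ a : Fin M, (univ.filter fun y : Fin q → U => ∀ l ∈ G, y l ∈ Rj a l).card) *
            4 ^ G.card := Nat.mul_le_mul_right _ ((card_le_card hsub).trans card_biUnion_le)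
        _ = ∑ a : Fin M, (univ.filter fun y : Fin q → U => ∀ l ∈ G, y l ∈ Rj a l).card *
            4 ^ G.card := by rw [sum_mul]
        _ ≤ ∑ _a : Fin M, Fintype.card U ^ q := by
            apply sum_le_sum
            intro a _
            exact card_constrained G (Rj a) (fun l hl => by rw [hRj]; exact hβ a l hl)
        _ = _ := by rw [sum_const, card_univ, Fintype.card_fin, smul_eq_mul]
    generalize (univ.filter fun y => rej J y).card = X at *
    rcases Nat.eq_zero_or_pos M with hM0 | hM0
    · rw [hM0, zero_mul] at hcount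
      have h4 : 0 < 4 ^ G.card := by positivity
      have : X = 0 := by
        rcases Nat.eq_zero_or_pos X with h | h
        · exact h
        · have := Nat.mul_pos h h4
          omega
      rw [this]
      simp
    · have h8 : 8 * M ≤ 4 ^ G.card := by
        have h9 : B + 1 ≤ 2 * G.card := by omega
        calc 8 * M ≤ 8 * N := Nat.mul_le_mul_left _ hMN
          _ ≤ 2 ^ (B + 1) := by rw [pow_succ]; omega
          _ ≤ 2 ^ (2 * G.card) := Nat.pow_le_pow_right (by norm_num) h9
          _ = 4 ^ G.card := by rw [pow_mul]; norm_num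
      refine Nat.le_of_mul_le_mul_left ?_ hM0
      calc M * (X * 8) = X * (8 * M) := by ring
        _ ≤ X * 4 ^ G.card := Nat.mul_le_mul_left _ h8
        _ ≤ M * Fintype.card U ^ q := hcount
  -- all blocks together
  have hsum : (∑ J : Fin q, (univ.filter fun y => rej J y).card) * 8 ≤
      8 * bad.card * Fintype.card U ^ q + q * Fintype.card U ^ q := by
    rw [sum_mul]
    calc ∑ J : Fin q, (univ.filter fun y => rej J y).card * 8
        ≤ ∑ J : Fin q, ((if J ∈ bad then 8 * Fintype.card U ^ q else 0) +
            Fintype.card U ^ q) := by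
          apply sum_le_sum
          intro J _
          by_cases hJ : J ∈ bad
          · rw [if_pos hJ]
            have h1 : (univ.filter fun y => rej J y).card ≤ Fintype.card U ^ q := by
              refine (card_le_univ _).trans ?_
              rw [Fintype.card_fun, Fintype.card_fin]
            omega
          · rw [if_neg hJ, zero_add]
            exact hgood J hJ
      _ = _ := by
          rw [sum_add_distrib, sum_ite_mem, univ_inter, sum_const, sum_const, card_univ,
            Fintype.card_fin, smul_eq_mul, smul_eq_mul]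
          ring
  have h8 : 8 * bad.card ≤ q := by omega
  have h9 : 8 * bad.card * Fintype.card U ^ q ≤ q * Fintype.card U ^ q :=
    Nat.mul_le_mul_right _ h8
  omega

/-- The induction step of the tree lemma, in abstract form. -/
theorem tree_step {q M N B : ℕ} (hMN : M ≤ N) (hB : 4 * N < 2 ^ B) (hq : 8 * B ≤ q) (hq1 : 0 < q)
    {T U : Type} [Fintype T] [Fintype U] (hT0 : 0 < Fintype.card T)
    (acc : (Fin q → Fin q × T) → Prop) (rej : Fin q → (Fin q → U) → Prop)
    (gacc : Fin q → Fin M → Fin M → Fin q → T → Prop)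
    (grej : Fin q → Fin M → Fin M → Fin q → U → Prop)
    (h1 : ∀ x, acc x → ∀ J a, ∃ b, gacc J a b (x J).1 (x J).2)
    (h2 : ∀ J y, rej J y → ∃ a, ∀ b l, grej J a b l (y l))
    (h3 : ∀ J a b l, Fintype.card T ≤ 4 * N * cnt (gacc J a b l) →
      cnt (grej J a b l) * 4 ≤ Fintype.card U)
    (hacc : Fintype.card (Fin q × T) ^ q ≤ 4 * N * cnt acc) :
    (∑ J : Fin q, cnt (rej J)) * 4 ≤ q * Fintype.card U ^ q :=
  tree_step_aux hMN hB hq hq1 hT0 acc rej gacc grej h1 h2 h3 hacc

end Pool.Agent.T9h75.WT
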