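import Pool.Agent.T9h75.WT.Accept

set_option autoImplicit false
set_option linter.unusedSectionVars false

namespace Pool.Agent.T9h75.WT

open Finset Pool.Agent.T9h16 Pool.Agent.T9h75.WH
open scoped Classical

theorem testBit_ext {a b B : ℕ} (ha : a < 2 ^ B) (hb : b < 2 ^ B)
    (h : ∀ i : Fin B, a.testBit i.val = b.testBit i.val) : a = b := by
  apply Nat.eq_of_testBit_eq
  intro i
  by_cases hi : i < B
  · exact h ⟨i, hi⟩
  · have h2 : 2 ^ B ≤ 2 ^ i := Nat.pow_le_pow_right (by norm_num) (by omega)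
    rw [Nat.testBit_lt_two_pow (by omega), Nat.testBit_lt_two_pow (by omega)]

/-- Splitting off the gadgets at the first level. -/
theorem Alt_split {m q t : ℕ} {Γ : Type} (dec : Fin m → Γ ⊕ Fin q)
    (hdec : Function.Surjective dec) (π : Fin m → Fin q) (hπ : Function.Surjective π)
    (V : (Fin (t + 1) → Fin m) → Prop) (Gd : Γ → Prop) (Y : (Fin (t + 1) → Fin q) → Prop)
    (h1 : ∀ j γ, dec j = Sum.inl γ → ((Alt m t false fun i => V (Fin.cons j i)) ↔ Gd γ))
    (h2 : ∀ j j', dec j = Sum.inr j' → ∀ i, V (Fin.cons j i) ↔ Y (Fin.cons j' fun l => π (i l))) :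
    Alt m (t + 1) true V ↔ (∀ γ, Gd γ) ∧ Alt q (t + 1) true Y := by
  have h3 : ∀ j j', dec j = Sum.inr j' → ((Alt m t false fun i => V (Fin.cons j i)) ↔
      Alt q t false fun i => Y (Fin.cons j' i)) := by
    intro j j' hj
    rw [← Alt_dec π hπ t false fun i => Y (Fin.cons j' i)]
    exact Alt_congr _ _ (h2 j j' hj)
  constructor
  · intro H
    refine ⟨fun γ => ?_, fun j' => ?_⟩
    · obtain ⟨j, hj⟩ := hdec (Sum.inl γ)
      exact (h1 j γ hj).1 (H j)
    · obtain ⟨j, hj⟩ := hdec (Sum.inr j')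
      exact (h3 j j' hj).1 (H j)
  · rintro ⟨HG, HY⟩ j
    rcases hj : dec j with γ | j'
    · exact (h1 j γ hj).2 (HG γ)
    · exact (h3 j j' hj).2 (HY j')

section
variable {p k q n m B : ℕ}

/-- The set of rows chosen by `φ` in the block `P`. -/
noncomputable def SS (e : Fin p × (Fin k × Fin q) ↪ Fin n) (P : Fin p) (φ : Fin k → Fin q) :
    Finset (Fin n) := univ.image fun x : Fin k => e (P, (x, φ x))

theorem card_SS (e : Fin p × (Fin k × Fin q) ↪ Fin n) (P : Fin p) (φ : Fin k → Fin q) :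
    (SS e P φ).card = k := by
  unfold SS
  rw [card_image_of_injective, card_univ, Fintype.card_fin]
  intro x y h
  have := e.injective h
  simp only [Prod.mk.injEq] at this
  exact this.2.1

theorem mem_SS {e : Fin p × (Fin k × Fin q) ↪ Fin n} {P : Fin p} {φ : Fin k → Fin q} {v : Fin n} :
    v ∈ SS e P φ ↔ ∃ x, e (P, (x, φ x)) = v := by
  unfold SS
  rw [mem_image]
  exact ⟨fun ⟨x, _, h⟩ => ⟨x, h⟩, fun ⟨x, h⟩ => ⟨x, mem_univ _, h⟩⟩

/-- The gadgets of the even levels. -/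
abbrev GamE (k B : ℕ) : Type := Fin k ⊕ (Fin k × (Fin B × Bool))

/-- Membership in the gadget clauses of the even levels. -/
def memE (e : Fin p × (Fin k × Fin q) ↪ Fin n) (x₀ : Fin k) : GamE k B → Fin n → Prop
  | .inl x, v => ∃ R, e R = v ∧ R.2.1 = x
  | .inr c, v => ∃ R, e R = v ∧ ((R.2.1 = x₀ ∧ R.1.val.testBit c.2.1.val = c.2.2) ∨
      (R.2.1 = c.1 ∧ R.1.val.testBit c.2.1.val ≠ c.2.2))

theorem gadE (e : Fin p × (Fin k × Fin q) ↪ Fin n) (x₀ : Fin k) (hp : p ≤ 2 ^ B)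
    (S : Finset (Fin n)) (hS : S.card = k) :
    (∀ γ : GamE k B, ∃ v ∈ S, memE e x₀ γ v) ↔ ∃ P φ, S = SS e P φ := by
  constructor
  · intro h
    have h1 : ∀ x : Fin k, ∃ R, e R ∈ S ∧ R.2.1 = x := by
      intro x
      obtain ⟨v, hv, R, hR, hx⟩ := h (Sum.inl x)
      exact ⟨R, by rw [hR]; exact hv, hx⟩
    choose R hRS hRx using h1
    have hinj : Function.Injective fun x => e (R x) := by
      intro x y hxy
      have := e.injective hxy
      rw [← hRx x, ← hRx y, this]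
    have hSeq : S = univ.image fun x => e (R x) := by
      symm
      apply eq_of_subset_of_card_le
      · intro v hv
        rw [mem_image] at hv
        obtain ⟨x, -, rfl⟩ := hv
        exact hRS x
      · rw [card_image_of_injective _ hinj, card_univ, Fintype.card_fin, hS]
    have hSm : ∀ R' : Fin p × (Fin k × Fin q), e R' ∈ S → R' = R R'.2.1 := by
      intro R' hR'
      rw [hSeq, mem_image] at hR'
      obtain ⟨x, -, hx⟩ := hR'
      have := e.injective hx
      rw [← this, hRx]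
    have hP : ∀ x, (R x).1 = (R x₀).1 := by
      intro x
      apply Fin.ext
      refine testBit_ext (B := B) (lt_of_lt_of_le (R x).1.isLt hp)
        (lt_of_lt_of_le (R x₀).1.isLt hp) fun b => ?_
      obtain ⟨v, hv, R', hR', h3⟩ := h (Sum.inr (x, (b, (R x).1.val.testBit b.val)))
      rw [← hR'] at hv
      have h4 := hSm R' hv
      rcases h3 with ⟨h5, h6⟩ | ⟨h5, h6⟩
      · rw [h5] at h4
        rw [h4] at h6
        exact h6.symm
      · have h5' : R'.2.1 = x := h5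
        rw [h5'] at h4
        rw [h4] at h6
        exact absurd rfl h6
    refine ⟨(R x₀).1, fun x => (R x).2.2, ?_⟩
    rw [hSeq]
    unfold SS
    congr 1
    funext x
    congr 1
    refine Prod.ext (hP x) (Prod.ext (hRx x) rfl)
  · rintro ⟨P, φ, rfl⟩ γ
    rcases γ with x | ⟨x, b, β⟩
    · exact ⟨_, mem_SS.2 ⟨x, rfl⟩, _, rfl, rfl⟩
    · by_cases hb : P.val.testBit b.val = β
      · exact ⟨_, mem_SS.2 ⟨x₀, rfl⟩, _, rfl, Or.inl ⟨rfl, hb⟩⟩
      · exact ⟨_, mem_SS.2 ⟨x, rfl⟩, _, rfl, Or.inr ⟨rfl, hb⟩⟩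

/-- The gadgets of the odd levels. -/
abbrev GamO (k B : ℕ) : Type := (Fin k × Fin B) ⊕ Fin B

/-- Membership in the gadget clauses of the odd levels. -/
def memO (e : Fin p × (Fin k × Fin q) ↪ Fin n) : GamO k B → Bool → Fin n → Prop
  | .inl c, β, v => ∃ R, e R = v ∧ (R.2.1 = c.1 → v.val.testBit c.2.val = β)
  | .inr b, β, v => ∃ R, e R = v ∧ R.1.val.testBit b.val = β

theorem gadO (e : Fin p × (Fin k × Fin q) ↪ Fin n) (hk : 1 ≤ k) (hB : 1 ≤ B) (hn : n ≤ 2 ^ B)
    (hp : p ≤ 2 ^ B) (S : Finset (Fin n)) (hS : S.card = k) :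
    (∀ γ : GamO k B, ∃ β, ∀ v ∈ S, memO e γ β v) ↔ ∃ P φ, S = SS e P φ := by
  constructor
  · intro h
    have h1 : ∀ v ∈ S, ∃ R, e R = v := by
      obtain ⟨β, hβ⟩ := h (Sum.inr ⟨0, hB⟩)
      intro v hv
      obtain ⟨R, hR, -⟩ := hβ v hv
      exact ⟨R, hR⟩
    have h2 : ∀ R R' : Fin p × (Fin k × Fin q), e R ∈ S → e R' ∈ S → R.2.1 = R'.2.1 → R = R' := by
      intro R R' hR hR' hRR
      apply e.injective
      apply Fin.ext
      refine testBit_ext (B := B) (lt_of_lt_of_le (e R).isLt hn)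
        (lt_of_lt_of_le (e R').isLt hn) fun b => ?_
      obtain ⟨β, hβ⟩ := h (Sum.inl (R.2.1, b))
      obtain ⟨R₁, hR₁, h3⟩ := hβ _ hR
      obtain ⟨R₂, hR₂, h4⟩ := hβ _ hR'
      rw [e.injective hR₁] at h3
      rw [e.injective hR₂] at h4
      rw [h3 rfl, h4 hRR.symm]
    have h3 : ∀ R R' : Fin p × (Fin k × Fin q), e R ∈ S → e R' ∈ S → R.1 = R'.1 := by
      intro R R' hR hR'
      apply Fin.ext
      refine testBit_ext (B := B) (lt_of_lt_of_le R.1.isLt hp)
        (lt_of_lt_of_le R'.1.isLt hp) fun b => ?_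
      obtain ⟨β, hβ⟩ := h (Sum.inr b)
      obtain ⟨R₁, hR₁, h3⟩ := hβ _ hR
      obtain ⟨R₂, hR₂, h4⟩ := hβ _ hR'
      rw [e.injective hR₁] at h3
      rw [e.injective hR₂] at h4
      rw [h3, h4]
    -- every group has a row
    have h4 : ∀ x : Fin k, ∃ R, e R ∈ S ∧ R.2.1 = x := by
      obtain ⟨v₀, hv₀⟩ : S.Nonempty := card_pos.1 (by omega)
      obtain ⟨R₀, -⟩ := h1 v₀ hv₀
      have hne : Nonempty (Fin p × (Fin k × Fin q)) := ⟨R₀⟩
      choose! R hR using h1
      have hinj : Set.InjOn (fun v => (R v).2.1) (S : Set (Fin n)) := by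
        intro v hv v' hv' hvv
        have := h2 (R v) (R v') (by rw [hR v hv]; exact hv) (by rw [hR v' hv']; exact hv') hvv
        rw [← hR v hv, ← hR v' hv', this]
      have hcard : (S.image fun v => (R v).2.1).card = k := by
        rw [card_image_of_injOn hinj, hS]
      have huniv : (S.image fun v => (R v).2.1) = univ := by
        apply eq_univ_of_card
        rw [hcard, Fintype.card_fin]
      intro x
      have hx : x ∈ S.image fun v => (R v).2.1 := by
        rw [huniv]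
        exact mem_univ x
      rw [mem_image] at hx
      obtain ⟨v, hv, hvx⟩ := hx
      exact ⟨R v, by rw [hR v hv]; exact hv, hvx⟩
    choose R hRS hRx using h4
    refine ⟨(R ⟨0, hk⟩).1, fun x => (R x).2.2, ?_⟩
    ext v
    rw [mem_SS]
    have hRe : ∀ x, ((R ⟨0, hk⟩).1, (x, (R x).2.2)) = R x := fun x =>
      Prod.ext (h3 (R ⟨0, hk⟩) (R x) (hRS _) (hRS x)) (Prod.ext (hRx x).symm rfl)
    constructor
    · intro hv
      obtain ⟨R', hR'⟩ := h1 v hv
      refine ⟨R'.2.1, ?_⟩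
      rw [hRe, ← hR']
      congr 1
      exact h2 _ _ (hRS _) (by rw [hR']; exact hv) (hRx _)
    · rintro ⟨x, rfl⟩
      rw [hRe]
      exact hRS x
  · rintro ⟨P, φ, rfl⟩ γ
    rcases γ with ⟨x, b⟩ | b
    · refine ⟨(e (P, (x, φ x))).val.testBit b.val, ?_⟩
      intro v hv
      rw [mem_SS] at hv
      obtain ⟨y, rfl⟩ := hv
      refine ⟨_, rfl, ?_⟩
      intro hyx
      have hyx' : y = x := hyx
      rw [hyx']
    · refine ⟨P.val.testBit b.val, ?_⟩
      intro v hv
      rw [mem_SS] at hv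
      obtain ⟨y, rfl⟩ := hv
      exact ⟨_, rfl, rfl⟩

end

end Pool.Agent.T9h75.WT
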