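import Pool.Agent.T9h75.WT.Tree
import Pool.Agent.T9h75.WT.Count

set_option autoImplicit false
set_option linter.unusedSectionVars false

namespace Pool.Agent.T9h75.WT

open Finset Pool.Agent.T9h16
open scoped Classical

/-- A substitution of variables by variables and constants. -/
def SubLeaf {E E' : Type} (s : Set E → Set E') : Prop :=
  ∀ e', (∃ t : Prop, ∀ z, e' ∈ s z ↔ t) ∨ ∃ e, ∀ z, e' ∈ s z ↔ e ∈ z

theorem SubLeaf.mono {E E' : Type} {s : Set E → Set E'} (hs : SubLeaf s) {z z' : Set E}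
    (h : z ⊆ z') : s z ⊆ s z' := by
  intro e' he'
  rcases hs e' with ⟨t, ht⟩ | ⟨e, he⟩
  · exact (ht _).2 ((ht _).1 he')
  · exact (he _).2 (h ((he _).1 he'))

theorem SubLeaf.comp {E E' E'' : Type} {s : Set E' → Set E''} {s' : Set E → Set E'}
    (hs : SubLeaf s) (hs' : SubLeaf s') : SubLeaf (fun z => s (s' z)) := by
  intro e''
  rcases hs e'' with ⟨t, ht⟩ | ⟨e', he'⟩
  · exact Or.inl ⟨t, fun z => ht _⟩
  · rcases hs' e' with ⟨t, ht⟩ | ⟨e, he⟩
    · exact Or.inl ⟨t, fun z => (he' _).trans (ht _)⟩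
    · exact Or.inr ⟨e, fun z => (he' _).trans (he _)⟩

theorem subLeaf_id {E : Type} : SubLeaf (fun z : Set E => z) :=
  fun e => Or.inr ⟨e, fun _ => Iff.rfl⟩

/-- Functions given by `r` pairs of quantifiers over `Fin M` on top of functions in the base
class. -/
def KC {E : Type} (Bs : (Set E → Prop) → Prop) (M : ℕ) : ℕ → (Set E → Prop) → Prop
  | 0, f => Bs f
  | r + 1, f => ∃ g : Fin M → Fin M → Set E → Prop,
      (∀ a b, KC Bs M r (g a b)) ∧ ∀ z, f z ↔ ∀ a, ∃ b, g a b z

theorem KC.mono {E : Type} {Bs : (Set E → Prop) → Prop} {M : ℕ}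
    (hB : ∀ f, Bs f → ∀ z z' : Set E, z ⊆ z' → f z → f z') :
    ∀ (r : ℕ) (f : Set E → Prop), KC Bs M r f → ∀ z z' : Set E, z ⊆ z' → f z → f z'
  | 0, f, hf, z, z', hz, h => hB f hf z z' hz h
  | r + 1, f, ⟨g, hg, hfg⟩, z, z', hz, h => by
    rw [hfg] at h ⊢
    intro a
    obtain ⟨b, hb⟩ := h a
    exact ⟨b, KC.mono hB r _ (hg a b) z z' hz hb⟩

theorem KC.of_base {E : Type} {Bs : (Set E → Prop) → Prop} {M : ℕ} (hM : 0 < M)
    {f : Set E → Prop} (hf : Bs f) : ∀ r, KC Bs M r f
  | 0 => hf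
  | r + 1 => ⟨fun _ _ => f, fun _ _ => KC.of_base hM hf r,
      fun _ => ⟨fun h _ => ⟨⟨0, hM⟩, h⟩, fun h => (h ⟨0, hM⟩).elim fun _ h => h⟩⟩

section
variable {q : ℕ} {E0 V Q0 Φ : Type}

/-- The variables of block `(J, l)`; the other blocks of `J` are false, everything else is true. -/
def blk (r : ℕ) (J l : Fin q) (z : Set (DC q r × E0)) : Set (DC q (r + 1) × E0) :=
  {e | e.1.1 ≠ J ∨ (e.1.2.1 = l ∧ (e.1.2.2, e.2) ∈ z)}

theorem blk_subLeaf (r : ℕ) (J l : Fin q) : SubLeaf (blk (E0 := E0) r J l) := by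
  intro e
  by_cases h1 : e.1.1 = J
  · by_cases h2 : e.1.2.1 = l
    · right
      exact ⟨(e.1.2.2, e.2), fun z => ⟨fun h => h.elim (fun h => (h h1).elim) fun h => h.2,
        fun h => Or.inr ⟨h2, h⟩⟩⟩
    · left
      exact ⟨False, fun z => ⟨fun h => h.elim (fun h => h h1) fun h => h2 h.1,
        fun h => h.elim⟩⟩
  · left
    exact ⟨True, fun z => ⟨fun _ => trivial, fun _ => Or.inl h1⟩⟩

variable {posV : Φ → V → Set E0} {negV : Q0 → Set E0}

theorem posL_sub (r : ℕ) (φ : Φ) (t : Sel q (r + 1) × (CP q (r + 1) → V)) (J : Fin q) :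
    posL posV (r + 1) φ t ⊆
      blk r J (t.1 J).1 (posL posV r φ ((t.1 J).2, fun p => t.2 (J, p))) := by
  rintro e ⟨⟨j, p⟩, hp, he⟩
  by_cases hj : j = J
  · subst hj
    right
    have h1 : (j, ((t.1 j).1, embP r (t.1 j).2 p)) = e.1 := hp
    rw [← h1]
    exact ⟨rfl, p, rfl, he⟩
  · left
    have h1 : (j, ((t.1 j).1, embP r (t.1 j).2 p)) = e.1 := hp
    rw [← h1]
    exact hj

theorem negL_sup (r : ℕ) (u : Reg q (r + 1) × (CP q (r + 1) → Q0)) (l : Fin q) :
    blk r u.1.1 l (negL negV r (u.1.2 l, fun p => u.2 (l, p))) ⊆ negL negV (r + 1) u := by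
  rintro e he ⟨l', p⟩ hp
  have h1 : (u.1.1, (l', embN r (u.1.2 l') p)) = e.1 := hp
  rcases he with he | ⟨h2, he⟩
  · rw [← h1] at he
    exact (he rfl).elim
  · rw [← h1] at h2
    have h3 : l' = l := h2
    subst h3
    exact he p (by rw [← h1])

/-- Reading off the choices of a positive test block by block. -/
def eqP (q r : ℕ) (V : Type) :
    Sel q (r + 1) × (CP q (r + 1) → V) ≃ (Fin q → Fin q × (Sel q r × (CP q r → V))) where
  toFun t := fun j => ((t.1 j).1, ((t.1 j).2, fun p => t.2 (j, p)))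
  invFun x := (fun j => ((x j).1, (x j).2.1), fun p => (x p.1).2.2 p.2)
  left_inv _ := rfl
  right_inv _ := rfl

/-- Reading off the choices of a negative test block by block. -/
def eqN (q r : ℕ) (Q0 : Type) :
    Reg q (r + 1) × (CP q (r + 1) → Q0) ≃ Fin q × (Fin q → (Reg q r × (CP q r → Q0))) where
  toFun u := (u.1.1, fun l => (u.1.2 l, fun p => u.2 (l, p)))
  invFun x := ((x.1, fun l => (x.2 l).1), fun p => (x.2 p.1).2 p.2)
  left_inv _ := rfl
  right_inv _ := rfl

variable [Fintype V] [Fintype Q0]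

/-- **Tree lemma.** A formula with `r` pairs of quantifiers over `Fin M` which accepts a
non-negligible fraction of the positive tests accepts most of the negative tests. -/
theorem tree_lemma (M N B : ℕ) (hMN : M ≤ N) (hB : 4 * N < 2 ^ B) (hq : 8 * B ≤ q)
    (hV : Nonempty V) (φ : Φ) (Bs : ∀ E : Type, (Set E → Prop) → Prop)
    (hBs : ∀ E f, Bs E f → ∀ z z' : Set E, z ⊆ z' → f z → f z')
    (hbase : ∀ (E : Type) (s : Set (DC q 0 × E0) → Set E), SubLeaf s → ∀ f, Bs E f →
      Fintype.card (Sel q 0 × (CP q 0 → V)) ≤ 4 * N * cnt (fun t => f (s (posL posV 0 φ t))) →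
      cnt (fun u => ¬ f (s (negL negV 0 u))) * 4 ≤ Fintype.card (Reg q 0 × (CP q 0 → Q0))) :
    ∀ (r : ℕ) (E : Type) (s : Set (DC q r × E0) → Set E), SubLeaf s → ∀ f, KC (Bs E) M r f →
      Fintype.card (Sel q r × (CP q r → V)) ≤ 4 * N * cnt (fun t => f (s (posL posV r φ t))) →
      cnt (fun u => ¬ f (s (negL negV r u))) * 4 ≤ Fintype.card (Reg q r × (CP q r → Q0)) := by
  intro r
  induction r with
  | zero => intro E s hs f hf; exact hbase E s hs f hf
  | succ r ih =>
    rintro E s hs f ⟨g, hg, hfg⟩ hacc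
    have hneS : ∀ r, Nonempty (Sel q r) := by
      intro r
      induction r with
      | zero => exact ⟨()⟩
      | succ r ih => exact ⟨fun j => (j, ih.some)⟩
    have hT0 : 0 < Fintype.card (Sel q r × (CP q r → V)) := by
      have : Nonempty (Sel q r × (CP q r → V)) := ⟨((hneS r).some, fun _ => hV.some)⟩
      exact Fintype.card_pos
    -- monotonicity
    have hfmono : ∀ z z' : Set E, z ⊆ z' → f z → f z' :=
      KC.mono (hBs E) (r + 1) f ⟨g, hg, hfg⟩
    have hgmono : ∀ a b, ∀ z z' : Set E, z ⊆ z' → g a b z → g a b z' :=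
      fun a b => KC.mono (hBs E) r (g a b) (hg a b)
    have hcardP : Fintype.card (Sel q (r + 1) × (CP q (r + 1) → V)) =
        Fintype.card (Fin q × (Sel q r × (CP q r → V))) ^ q := by
      rw [Fintype.card_congr (eqP q r V), Fintype.card_fun, Fintype.card_fin]
    have hcardN : Fintype.card (Reg q (r + 1) × (CP q (r + 1) → Q0)) =
        q * Fintype.card (Reg q r × (CP q r → Q0)) ^ q := by
      rw [Fintype.card_congr (eqN q r Q0), Fintype.card_prod, Fintype.card_fun, Fintype.card_fin]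
    have hA : cnt (fun t => f (s (posL posV (r + 1) φ t))) =
        cnt (fun x : Fin q → Fin q × (Sel q r × (CP q r → V)) =>
          f (s (posL posV (r + 1) φ ((eqP q r V).symm x)))) :=
      cnt_equiv (eqP q r V) fun t => by rw [Equiv.symm_apply_apply]
    have hrej : cnt (fun u => ¬ f (s (negL negV (r + 1) u))) =
        ∑ J : Fin q, cnt (fun y : Fin q → (Reg q r × (CP q r → Q0)) =>
          ¬ f (s (negL negV (r + 1) ((eqN q r Q0).symm (J, y))))) := by
      rw [cnt_equiv (eqN q r Q0)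
        (p' := fun x => ¬ f (s (negL negV (r + 1) ((eqN q r Q0).symm x))))
        (fun u => by rw [Equiv.symm_apply_apply]), cnt_prod]
    have hq1 : 0 < q := by
      rcases Nat.eq_zero_or_pos q with h | h
      · exfalso
        have hB0 : B = 0 := by omega
        rw [hB0, pow_zero] at hB
        have hN : N = 0 := by omega
        rw [hN, Nat.mul_zero, Nat.zero_mul, hcardP, h, pow_zero] at hacc
        omega
      · exact h
    rw [hcardN, hrej]
    rw [hcardP, hA] at hacc
    refine tree_step hMN hB hq hq1 hT0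
      (fun x => f (s (posL posV (r + 1) φ ((eqP q r V).symm x))))
      (fun J y => ¬ f (s (negL negV (r + 1) ((eqN q r Q0).symm (J, y)))))
      (fun J a b l t => g a b (s (blk r J l (posL posV r φ t))))
      (fun J a b l u => ¬ g a b (s (blk r J l (negL negV r u)))) ?_ ?_ ?_ hacc
    · intro x hx J a
      have h1 : f (s (blk r J (x J).1 (posL posV r φ (x J).2))) :=
        hfmono _ _ (hs.mono (posL_sub (posV := posV) r φ ((eqP q r V).symm x) J)) hx
      exact (hfg _).1 h1 a
    · intro J y hy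
      rw [hfg] at hy
      push Not at hy
      obtain ⟨a, ha⟩ := hy
      refine ⟨a, fun b l hcon => ha b ?_⟩
      refine hgmono _ _ _ _ (hs.mono ?_) hcon
      exact negL_sup (negV := negV) r ((eqN q r Q0).symm (J, y)) l
    · intro J a b l h
      exact ih E (fun z => s (blk r J l z)) (hs.comp (blk_subLeaf r J l)) _ (hg a b) h

end

end Pool.Agent.T9h75.WT
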