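import Pool.Agent.T9h75.WT.Source

set_option autoImplicit false
set_option linter.unusedSectionVars false

namespace Pool.Agent.T9h75.WT

open Finset Pool.Agent.T9h16 Pool.Agent.T9h75.WH
open scoped Classical

/-- The choice of the parameters. -/
theorem exists_params (d c e k D K₀ : ℕ) (he : 1 ≤ e) (hk : c * e + 2 ≤ k) :
    ∃ m₀, ∀ m ≥ m₀, ∃ q B B₁, 2 ≤ m ∧ K₀ ≤ q ∧ 1 ≤ q ∧ q ^ e ≤ m ∧
      (K₀ + 1) * m ^ c ≤ q ^ (k - 1) ∧ 4 * m ^ D < 2 ^ B ∧ 8 * B ≤ q ∧ (4 * (B * k)) ^ (2 * k) ≤ q ∧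
      m ^ d ≤ 2 ^ B₁ ∧ 1 ≤ B₁ ∧ q + (k + 2 * k * B₁) ≤ m := by
  obtain ⟨m₁, hm₁⟩ := asym 3 D e (16 ^ e)
  obtain ⟨m₂, hm₂⟩ := asym 3 D (2 * k * e) (2 ^ e * (4 * k) ^ (2 * k * e))
  obtain ⟨m₃, hm₃⟩ := asym (1 + 2 * 1) (2 * d) 1 (4 * k)
  obtain ⟨x₁, hx₁⟩ : ∃ x, x = (2 * K₀) ^ e := ⟨_, rfl⟩
  obtain ⟨x₂, hx₂⟩ : ∃ x, x = (2 ^ (k - 1) * (K₀ + 1)) ^ e := ⟨_, rfl⟩
  obtain ⟨x₃, hx₃⟩ : ∃ x, x = 2 ^ e := ⟨_, rfl⟩
  refine ⟨m₁ + m₂ + m₃ + x₁ + x₂ + x₃ + 3, fun m hm => ?_⟩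
  obtain ⟨L, hL⟩ : ∃ L, L = Nat.clog 2 (m + 1) := ⟨_, rfl⟩
  have hmL : m ≤ 2 ^ L := by
    have := Nat.le_pow_clog (b := 2) (by norm_num) (m + 1)
    rw [hL]
    omega
  have e1 := hm₁ m (by omega)
  have e2 := hm₂ m (by omega)
  have e3 := hm₃ m (by omega)
  rw [← hL] at e1 e2 e3
  have hex : ∃ q, m ≤ (2 * q) ^ e :=
    ⟨m, (by omega : m ≤ 2 * m).trans (Nat.le_self_pow (by omega) _)⟩
  obtain ⟨q, hq⟩ : ∃ q, q = Nat.find hex := ⟨_, rfl⟩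
  have hq1 : m ≤ (2 * q) ^ e := by
    rw [hq]
    exact Nat.find_spec hex
  have hlow : ∀ x, x ^ e ≤ m → x ≤ 2 * q := by
    intro x hx
    exact (Nat.pow_le_pow_iff_left (by omega)).1 (hx.trans hq1)
  have hq2 : 2 ≤ q := by
    by_contra hcon
    have h2q : (2 * q) ^ e ≤ 2 ^ e := Nat.pow_le_pow_left (by omega) e
    rw [← hx₃] at h2q
    omega
  have hq3 : (2 * (q - 1)) ^ e < m := by
    have := Nat.find_min hex (m := q - 1) (by rw [← hq]; omega)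
    omega
  have hq4 : 2 * (q - 1) < m := lt_of_le_of_lt (Nat.le_self_pow (by omega) _) hq3
  have hqe : q ^ e ≤ m := (Nat.pow_le_pow_left (by omega : q ≤ 2 * (q - 1)) e).trans hq3.le
  refine ⟨q, 3 + D * L, 1 + d * L, by omega, ?_, by omega, hqe, ?_, ?_, ?_, ?_, ?_, by omega, ?_⟩
  · have := hlow (2 * K₀) (by rw [← hx₁]; omega)
    omega
  · have h1 : 2 ^ (k - 1) * (K₀ + 1) * m ^ c ≤ (2 * q) ^ (k - 1) := by
      refine (Nat.pow_le_pow_iff_left (n := e) (by omega)).1 ?_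
      calc (2 ^ (k - 1) * (K₀ + 1) * m ^ c) ^ e = (2 ^ (k - 1) * (K₀ + 1)) ^ e * m ^ (c * e) := by
            rw [mul_pow, pow_mul]
        _ ≤ m * m ^ (c * e) := Nat.mul_le_mul_right _ (by rw [← hx₂]; omega)
        _ = m ^ (c * e + 1) := by rw [pow_succ, mul_comm]
        _ ≤ m ^ (k - 1) := Nat.pow_le_pow_right (by omega) (by omega)
        _ ≤ ((2 * q) ^ e) ^ (k - 1) := Nat.pow_le_pow_left hq1 _
        _ = ((2 * q) ^ (k - 1)) ^ e := by rw [← pow_mul, ← pow_mul, mul_comm e]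
    rw [mul_pow, mul_assoc] at h1
    exact Nat.le_of_mul_le_mul_left h1 (Nat.pow_pos (by norm_num))
  · calc 4 * m ^ D ≤ 4 * (2 ^ L) ^ D := Nat.mul_le_mul_left _ (Nat.pow_le_pow_left hmL _)
      _ < 8 * (2 ^ L) ^ D := Nat.mul_lt_mul_of_pos_right (by norm_num)
          (Nat.pow_pos (Nat.pow_pos (by norm_num)))
      _ = 2 ^ (3 + D * L) := by rw [pow_add, ← pow_mul, mul_comm D L]; norm_num
  · have := hlow (16 * (3 + D * L)) (by rw [mul_pow]; exact e1)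
    omega
  · have := hlow (2 * (4 * k * (3 + D * L)) ^ (2 * k)) (by
      rw [mul_pow, ← pow_mul, mul_pow]
      refine le_trans (le_of_eq ?_) e2
      ring)
    have h2 : 4 * ((3 + D * L) * k) = 4 * k * (3 + D * L) := by ring
    rw [h2]
    omega
  · calc m ^ d ≤ (2 ^ L) ^ d := Nat.pow_le_pow_left hmL _
      _ = 2 ^ (d * L) := by rw [← pow_mul, mul_comm]
      _ ≤ 2 ^ (1 + d * L) := Nat.pow_le_pow_right (by norm_num) (by omega)
  · have h2 : 4 * k * (1 + 2 * 1 + 2 * d * L) ^ 1 = 4 * (k + 2 * k * (1 + d * L)) := by ring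
    rw [h2] at e3
    omega

theorem exists_surj {m : ℕ} {Y : Type} [Fintype Y] (hY : Nonempty Y) (h : Fintype.card Y ≤ m) :
    ∃ f : Fin m → Y, Function.Surjective f := by
  obtain ⟨i⟩ := Function.Embedding.nonempty_of_card_le (α := Y) (β := Fin m)
    (by rw [Fintype.card_fin]; exact h)
  exact ⟨Function.invFun i, Function.invFun_surjective i.injective⟩

theorem exists_emb {p k q n : ℕ} (h : p * (k * q) ≤ n) :
    Nonempty (Fin p × (Fin k × Fin q) ↪ Fin n) := by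
  apply Function.Embedding.nonempty_of_card_le
  rw [Fintype.card_prod, Fintype.card_prod, Fintype.card_fin, Fintype.card_fin, Fintype.card_fin,
    Fintype.card_fin]
  exact h

/-- From the number of blocks to the final bound. -/
theorem final_bound {n m k q e X : ℕ} (he : 1 ≤ e) (hk : 1 ≤ k) (hq : 1 ≤ q) (hqe : q ^ e ≤ m)
    (h : n / (k * q) + 1 ≤ X) : n ^ e < m * (k * X) ^ e := by
  have hkq : 0 < k * q := Nat.mul_pos hk hq
  have h1 : n < k * q * X := by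
    have h2 := Nat.lt_mul_div_succ n hkq
    refine lt_of_lt_of_le h2 (Nat.mul_le_mul_left _ ?_)
    exact h
  calc n ^ e < (k * q * X) ^ e := Nat.pow_lt_pow_left h1 (by omega)
    _ = q ^ e * (k * X) ^ e := by rw [← mul_pow]; congr 1; ring
    _ ≤ m * (k * X) ^ e := Nat.mul_le_mul_right _ hqe

theorem sizes_bound {N M m d c g D s : ℕ} (hm : 2 ≤ m) (hN : N ≤ m ^ d) (hM : M ≤ m ^ d)
    (hD : d * g + c + d = D) (hs : s ≤ m ^ c) :
    max M 1 ≤ m ^ D ∧ Fintype.card {S : Finset (Fin N) // S.card = g} + s ≤ 2 * m ^ D := by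
  have h1 : ∀ x, x ≤ D → m ^ x ≤ m ^ D := fun x hx => Nat.pow_le_pow_right (by omega) hx
  refine ⟨?_, ?_⟩
  · apply max_le
    · exact hM.trans (h1 _ (by omega))
    · exact Nat.one_le_pow _ _ (by omega)
  · have h2 : Fintype.card {S : Finset (Fin N) // S.card = g} ≤ m ^ (d * g) := by
      refine card_sets.trans ?_
      rw [pow_mul]
      exact Nat.pow_le_pow_left hN _
    have h3 := h1 (d * g) (by omega)
    have h4 := h1 c (by omega)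
    omega

theorem main_even (r ρ c d e k g : ℕ) (he : 1 ≤ e) (hk : c * e + 2 ≤ k) : ∃ m₀, ∀ m ≥ m₀,
    ∀ n ≤ m ^ d, ∀ N ≤ m ^ d, ∀ M ≤ m ^ d,
    ∀ C : Circuit ((Fin 1 → Fin n) × (Fin (lv r + 1) → Fin m))
      ((Fin ρ → Fin N) × (Fin (lv r) → Fin M)),
    C.size ≤ m ^ c → Reduces C k g → n ^ e < m * (k * 2 ^ C.nots) ^ e := by
  obtain ⟨K, hK⟩ := hard_even k (g ^ ρ + 1) r (by omega) (by omega)
  obtain ⟨D, hD⟩ : ∃ D, d * g + c + d = D := ⟨_, rfl⟩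
  obtain ⟨m₀, hm₀⟩ := exists_params d c e k D K he hk
  refine ⟨m₀, fun m hm n hn N hN M hM C hC hred => ?_⟩
  obtain ⟨q, B, B₁, hm2, hqK, hq1, hqe, hsize, hB, h8B, -, hB₁, hB₁1, hfit⟩ := hm₀ m hm
  have hk1 : 1 ≤ k := by omega
  apply final_bound he hk1 hq1 hqe
  have hp : n / (k * q) ≤ 2 ^ B₁ := (Nat.div_le_self _ _).trans (hn.trans hB₁)
  obtain ⟨f⟩ := exists_emb (p := n / (k * q)) (k := k) (q := q) (n := n) (Nat.div_mul_le_self _ _)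
  obtain ⟨dec, hdec⟩ := exists_surj (m := m) (Y := GamE k B₁ ⊕ Fin q) ⟨Sum.inr ⟨0, hq1⟩⟩ (by
    rw [Fintype.card_sum, Fintype.card_sum, Fintype.card_prod, Fintype.card_prod, Fintype.card_fin,
      Fintype.card_fin, Fintype.card_fin, Fintype.card_bool]
    have : k * (B₁ * 2) = 2 * k * B₁ := by ring
    omega)
  obtain ⟨π, hπ⟩ := exists_surj (m := m) (Y := Fin q) ⟨⟨0, hq1⟩⟩ (by
    rw [Fintype.card_fin]
    omega)
  obtain ⟨hMN, hΨ⟩ := sizes_bound (g := g) hm2 hN hM hD hC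
  have hhard : Hard (TT (q := q) (GE (k := k) (w := q)) r) C.size
      (WSat (n := N) (m := M) (lv r) ρ g) := by
    refine hK q hqK C.size ?_ (max M 1) (m ^ D) B (by omega) hMN hB h8B _ _
      (fun ψ : {S : Finset (Fin N) // S.card = g} => FS (ρ := ρ) (M := M) (lv r) ψ.1)
      (fun ψ => KC_FS_even r ψ.1 ψ.2) hΨ _ (WSat_iff _)
    calc K * C.size ≤ (K + 1) * m ^ c := Nat.mul_le_mul (by omega) hC
      _ ≤ q ^ (k - 1) := hsize
      _ ≤ q ^ k := Nat.pow_le_pow_right hq1 (by omega)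
  have hT0 : ¬ TT (q := q) (GE (k := k) (w := q)) r ∅ :=
    not_TT_empty (fun φ ⟨x, hx⟩ => hx) hq1 r
  have h := chain_count hT0 C hhard (embE (r := r) f ⟨0, hk1⟩ dec π) (fun y =>
    (hred _).symm.trans (WSat_XE (by omega) f ⟨0, hk1⟩ dec hdec π hπ hp y))
  rwa [Fintype.card_fin] at h

theorem main_odd (r ρ c d e k g : ℕ) (he : 1 ≤ e) (hk : c * e + 2 ≤ k) : ∃ m₀, ∀ m ≥ m₀,
    ∀ n ≤ m ^ d, ∀ N ≤ m ^ d, ∀ M ≤ m ^ d,
    ∀ C : Circuit ((Fin 1 → Fin n) × (Fin (lv r + 1 + 1) → Fin m))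
      ((Fin ρ → Fin N) × (Fin (lv r + 1) → Fin M)),
    C.size ≤ m ^ c → Reduces C k g → n ^ e < m * (k * 2 ^ C.nots) ^ e := by
  obtain ⟨K, hK⟩ := hard_odd k (g ^ ρ + 1) r (by omega) (by omega)
  obtain ⟨D, hD⟩ : ∃ D, d * g + c + d = D := ⟨_, rfl⟩
  obtain ⟨m₀, hm₀⟩ := exists_params d c e k D K he hk
  refine ⟨m₀, fun m hm n hn N hN M hM C hC hred => ?_⟩
  obtain ⟨q, B, B₁, hm2, hqK, hq1, hqe, hsize, hB, -, hBk, hB₁, hB₁1, hfit⟩ := hm₀ m hm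
  have hk1 : 1 ≤ k := by omega
  apply final_bound he hk1 hq1 hqe
  have hn' : n ≤ 2 ^ B₁ := hn.trans hB₁
  have hp : n / (k * q) ≤ 2 ^ B₁ := (Nat.div_le_self _ _).trans hn'
  obtain ⟨f⟩ := exists_emb (p := n / (k * q)) (k := k) (q := q) (n := n) (Nat.div_mul_le_self _ _)
  obtain ⟨dec, hdec⟩ := exists_surj (m := m) (Y := GamO k B₁ ⊕ Fin q) ⟨Sum.inr ⟨0, hq1⟩⟩ (by
    rw [Fintype.card_sum, Fintype.card_sum, Fintype.card_prod, Fintype.card_fin,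
      Fintype.card_fin, Fintype.card_fin]
    have h1 : B₁ ≤ k * B₁ := Nat.le_mul_of_pos_left _ hk1
    have h2 : 2 * k * B₁ = k * B₁ + k * B₁ := by ring
    omega)
  obtain ⟨π, hπ⟩ := exists_surj (m := m) (Y := Fin q) ⟨⟨0, hq1⟩⟩ (by
    rw [Fintype.card_fin]
    omega)
  obtain ⟨bl, hbl⟩ := exists_surj (m := m) (Y := Bool) ⟨true⟩ (by
    rw [Fintype.card_bool]
    exact hm2)
  obtain ⟨hMN, hΨ⟩ := sizes_bound (g := g) hm2 hN hM hD hC
  have hhard : Hard (TT (q := q) (GO (k := k) (w := q) (n := q)) r) C.size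
      (WSat (n := N) (m := M) (lv r + 1) ρ g) := by
    refine hK q hqK C.size ?_ (max M 1) (m ^ D) B (by omega) hMN hB hBk _ _
      (fun ψ : {S : Finset (Fin N) // S.card = g} => FS (ρ := ρ) (M := M) (lv r + 1) ψ.1)
      (fun ψ => KC_FS_odd r ψ.1 ψ.2) hΨ _ (WSat_iff _)
    calc C.size ≤ m ^ c := hC
      _ ≤ (K + 1) * m ^ c := Nat.le_mul_of_pos_left _ (by omega)
      _ ≤ q ^ (k - 1) := hsize
  have hT0 : ¬ TT (q := q) (GO (k := k) (w := q) (n := q)) r ∅ :=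
    not_TT_empty (fun φ ⟨l, hl⟩ => hl ⟨0, hk1⟩) hq1 r
  have h := chain_count hT0 C hhard (embO (r := r) f bl dec π) (fun y =>
    (hred _).symm.trans (WSat_XO (by omega) hk1 hB₁1 f bl hbl dec hdec π hπ hn' hp y))
  rwa [Fintype.card_fin] at h

theorem main (t ρ c d e k g : ℕ) (he : 1 ≤ e) (hk : c * e + 2 ≤ k) : ∃ m₀, ∀ m ≥ m₀,
    ∀ n ≤ m ^ d, ∀ N ≤ m ^ d, ∀ M ≤ m ^ d,
    ∀ C : Circuit ((Fin 1 → Fin n) × (Fin (t + 1) → Fin m)) ((Fin ρ → Fin N) × (Fin t → Fin M)),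
    C.size ≤ m ^ c → Reduces C k g → n ^ e < m * (k * 2 ^ C.nots) ^ e := by
  rcases Nat.even_or_odd' t with ⟨r, h | h⟩
  · rw [← lv_eq] at h
    subst h
    exact main_even r ρ c d e k g he hk
  · rw [← lv_eq] at h
    subst h
    exact main_odd r ρ c d e k g he hk

end Pool.Agent.T9h75.WT
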