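import Pool.Agent.T9h75.WT.Lemma
import Pool.Agent.T9h16.Hard

set_option autoImplicit false
set_option linter.unusedSectionVars false

namespace Pool.Agent.T9h75.WT

open Finset Pool.Agent.T9h16
open scoped Classical

theorem cnt_eq_card {T : Type} [Fintype T] {p : T → Prop} (S : Finset T) (h : ∀ t, t ∈ S ↔ p t) :
    cnt p = S.card := by
  unfold cnt
  congr 1
  ext t
  rw [mem_filter, h]
  exact ⟨fun h => h.2, fun h => ⟨mem_univ _, h⟩⟩

theorem cnt_pi_all {I Y : Type} [Fintype I] [DecidableEq I] [Fintype Y] (a : Y → Prop) :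
    cnt (fun f : I → Y => ∀ j, a (f j)) = (cnt a) ^ Fintype.card I := by
  have h : cnt (fun f : I → Y => ∀ j, a (f j)) =
      (Fintype.piFinset fun _ : I => univ.filter a).card := by
    apply cnt_eq_card
    intro f
    rw [Fintype.mem_piFinset]
    simp only [mem_univ, true_and, mem_filter]
  rw [h, Fintype.card_piFinset, prod_const, card_univ]
  rfl

theorem cnt_coord {I Y : Type} [Fintype I] [DecidableEq I] [Fintype Y] (l : I) (a : Y → Prop) :
    cnt (fun f : I → Y => a (f l)) * Fintype.card Y = cnt a * Fintype.card Y ^ Fintype.card I := by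
  have h : (univ.filter fun f : I → Y => a (f l)) =
      Fintype.piFinset fun i => if i = l then univ.filter a else univ := by
    ext f
    rw [mem_filter, Fintype.mem_piFinset]
    constructor
    · rintro ⟨-, h⟩ i
      split_ifs with hi
      · rw [hi, mem_filter]
        exact ⟨mem_univ _, h⟩
      · exact mem_univ _
    · intro h
      have := h l
      rw [if_pos rfl, mem_filter] at this
      exact ⟨mem_univ _, this.2⟩
  have h1 : cnt (fun f : I → Y => a (f l)) = cnt a * Fintype.card Y ^ (Fintype.card I - 1) := by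
    unfold cnt
    rw [h, Fintype.card_piFinset, ← mul_prod_erase univ _ (mem_univ l), if_pos rfl]
    congr 1
    rw [prod_congr rfl (g := fun _ => Fintype.card Y), prod_const, card_erase_of_mem (mem_univ _),
      card_univ]
    intro i hi
    rw [if_neg (ne_of_mem_erase hi), card_univ]
  have hI : 0 < Fintype.card I := Fintype.card_pos_iff.2 ⟨l⟩
  rw [h1, mul_assoc, ← pow_succ]
  congr 2
  omega

theorem RegBad_mono {q : ℕ} : ∀ (r : ℕ) {y y' : CP q r → Prop}, (∀ p, y' p → y p) →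
    RegBad r y → RegBad r y'
  | 0, _, _, h, hy => by
    obtain ⟨j, hj⟩ := hy
    exact ⟨j, fun h' => hj (h j h')⟩
  | r + 1, _, _, h, hy => fun l => RegBad_mono r (fun p => h (l, p)) (hy l)

section
variable {q k w A : ℕ} {E0 V Q0 : Type}

/-- Some leaf block of the region fails to kill some choice of rows. -/
def NN (χ : Q0 → Fin k × Fin w → Fin A) : ∀ r, (CP q r → Q0) → Prop
  | 0, ν => ∃ φ : Fin k → Fin w, ∀ j : Fin q, ∃ x, (χ (ν j) (x, φ x)).val ≠ 0
  | r + 1, ν => ∃ l : Fin q, NN χ r fun p => ν (l, p)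

theorem regBad_of_not_NN (χ : Q0 → Fin k × Fin w → Fin A) : ∀ (r : ℕ) (ν : CP q r → Q0),
    ¬ NN χ r ν → ∀ φ : Fin k → Fin w, RegBad r fun p => ∃ x, (χ (ν p) (x, φ x)).val ≠ 0
  | 0, ν, h, φ => by
    by_contra hcon
    exact h ⟨φ, fun j => by
      by_contra hj
      exact hcon ⟨j, hj⟩⟩
  | r + 1, ν, h, φ => fun l => regBad_of_not_NN χ r (fun p => ν (l, p)) (fun hl => h ⟨l, hl⟩) φ

/-- The block function of the tree. -/
def TT (G : (Fin k → Fin w) → Set E0 → Prop) (r : ℕ) (z : Set (DC q r × E0)) : Prop :=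
  ∃ φ, Out r fun d => G φ {e | (d, e) ∈ z}

theorem TT_posL {G : (Fin k → Fin w) → Set E0 → Prop} {posV : (Fin k → Fin w) → V → Set E0}
    (hG : ∀ φ v, G φ (posV φ v)) (hGm : ∀ φ z z', z ⊆ z' → G φ z → G φ z') (r : ℕ)
    (φ : Fin k → Fin w) (t : Sel q r × (CP q r → V)) : TT G r (posL posV r φ t) := by
  refine ⟨φ, Out_of_sel r t.1 _ fun p => ?_⟩
  refine hGm φ _ _ ?_ (hG φ (t.2 p))
  intro e he
  exact ⟨p, rfl, he⟩

theorem not_TT_negL {G : (Fin k → Fin w) → Set E0 → Prop} {negV : Q0 → Set E0}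
    {χ : Q0 → Fin k × Fin w → Fin A}
    (hG : ∀ φ v, G φ (negV v) → ∃ x, (χ v (x, φ x)).val ≠ 0)
    (hGm : ∀ φ z z', z ⊆ z' → G φ z → G φ z') (r : ℕ)
    (u : Reg q r × (CP q r → Q0)) (hu : ¬ NN χ r u.2) : ¬ TT G r (negL negV r u) := by
  rintro ⟨φ, hφ⟩
  refine not_Out_of_reg r u.1 _ ?_ hφ
  refine RegBad_mono r ?_ (regBad_of_not_NN χ r u.2 hu φ)
  intro p hp
  refine hG φ _ (hGm φ _ _ ?_ hp)
  intro e he
  exact he p rfl

theorem not_TT_empty {G : (Fin k → Fin w) → Set E0 → Prop} (hG : ∀ φ, ¬ G φ ∅) (hq : 0 < q)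
    (r : ℕ) : ¬ TT (q := q) G r ∅ := by
  rintro ⟨φ, hφ⟩
  have : ∀ r, ¬ Out r (fun d : DC q r => False) := by
    intro r
    induction r with
    | zero => intro h; exact h ⟨0, hq⟩
    | succ r ih =>
      intro h
      obtain ⟨l, hl⟩ := h ⟨0, hq⟩
      exact ih hl
  refine this r (Out_mono r ?_ hφ)
  intro d hd
  apply hG φ
  change G φ {e : E0 | (d, e) ∈ (∅ : Set (DC q r × E0))} at hd
  have h0 : {e : E0 | (d, e) ∈ (∅ : Set (DC q r × E0))} = ∅ :=
    Set.eq_empty_of_forall_notMem fun e he => he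
  rwa [h0] at hd

variable [Fintype Q0]

theorem cnt_NN {L : ℕ} (hA : 1 ≤ A) (hw : 1 ≤ w) (hne : Nonempty Q0)
    (χ : Q0 → Fin k × Fin w → Fin A)
    (hχ : ∀ φ : Fin k → Fin w, cnt (fun v : Q0 => ∃ x, (χ v (x, φ x)).val ≠ 0) * A ^ k ≤
      (A ^ k - 1) * Fintype.card Q0)
    (hq : A ^ k * L ≤ q) : ∀ (r Bd : ℕ), w ^ k * (q ^ r * Bd) ≤ 2 ^ L →
      cnt (NN (q := q) χ r) * Bd ≤ Fintype.card (CP q r → Q0)
  | 0, Bd, hL => by
    have ha : 1 ≤ A ^ k := Nat.pow_pos hA
    have h1 : cnt (NN (q := q) χ 0) * (A ^ k) ^ q ≤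
        w ^ k * ((A ^ k - 1) ^ q * Fintype.card (CP q 0 → Q0)) := by
      have h2 : cnt (NN (q := q) χ 0) ≤ ∑ φ : Fin k → Fin w,
          cnt (fun ν : Fin q → Q0 => ∀ j, ∃ x, (χ (ν j) (x, φ x)).val ≠ 0) :=
        cnt_exists (a := fun (φ : Fin k → Fin w) (ν : Fin q → Q0) =>
          ∀ j, ∃ x, (χ (ν j) (x, φ x)).val ≠ 0) (fun ν h => h)
      have h3 : Fintype.card (CP q 0 → Q0) = Fintype.card Q0 ^ q := by
        have : Fintype.card (CP q 0) = q := Fintype.card_fin q
        rw [Fintype.card_fun, this]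
      calc cnt (NN (q := q) χ 0) * (A ^ k) ^ q
          ≤ (∑ φ : Fin k → Fin w,
              cnt (fun ν : Fin q → Q0 => ∀ j, ∃ x, (χ (ν j) (x, φ x)).val ≠ 0)) * (A ^ k) ^ q :=
            Nat.mul_le_mul_right _ h2
        _ = ∑ φ : Fin k → Fin w,
              (cnt (fun v : Q0 => ∃ x, (χ v (x, φ x)).val ≠ 0) * A ^ k) ^ q := by
            rw [sum_mul]
            apply sum_congr rfl
            intro φ _
            rw [cnt_pi_all (I := Fin q) (fun v : Q0 => ∃ x, (χ v (x, φ x)).val ≠ 0),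
              Fintype.card_fin, mul_pow]
        _ ≤ ∑ _φ : Fin k → Fin w, ((A ^ k - 1) * Fintype.card Q0) ^ q := by
            apply sum_le_sum
            intro φ _
            exact Nat.pow_le_pow_left (hχ φ) _
        _ = _ := by
            rw [sum_const, smul_eq_mul, card_univ, Fintype.card_fun, Fintype.card_fin,
              Fintype.card_fin, mul_pow, h3]
    generalize A ^ k = a at *
    have h2 : (a - 1) ^ q * 2 ^ L ≤ a ^ q := by
      obtain ⟨d, rfl⟩ := Nat.exists_eq_add_of_le hq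
      rw [pow_add, pow_add, pow_mul, pow_mul]
      calc ((a - 1) ^ a) ^ L * (a - 1) ^ d * 2 ^ L = ((a - 1) ^ a * 2) ^ L * (a - 1) ^ d := by
            rw [mul_pow]; ring
        _ ≤ (a ^ a) ^ L * a ^ d := Nat.mul_le_mul (Nat.pow_le_pow_left (two_mul_pow_le a ha) _)
            (Nat.pow_le_pow_left (Nat.sub_le _ _) _)
    rw [pow_zero, one_mul] at hL
    have h3 : (a - 1) ^ q * (w ^ k * Bd) ≤ a ^ q := (Nat.mul_le_mul_left _ hL).trans h2
    have ham : 0 < a ^ q := Nat.pow_pos ha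
    generalize Fintype.card (CP q 0 → Q0) = N at *
    generalize cnt (NN (q := q) χ 0) = T at *
    refine Nat.le_of_mul_le_mul_right ?_ ham
    calc T * Bd * a ^ q = (T * a ^ q) * Bd := by ring
      _ ≤ (w ^ k * ((a - 1) ^ q * N)) * Bd := Nat.mul_le_mul_right _ h1
      _ = ((a - 1) ^ q * (w ^ k * Bd)) * N := by ring
      _ ≤ a ^ q * N := Nat.mul_le_mul_right _ h3
      _ = N * a ^ q := by ring
  | r + 1, Bd, hL => by
    have ih := cnt_NN (L := L) hA hw hne χ hχ hq r (q * Bd) (by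
      refine le_trans (le_of_eq ?_) hL
      rw [pow_succ]
      ring)
    have hcard : Fintype.card (CP q (r + 1) → Q0) = Fintype.card (CP q r → Q0) ^ q := by
      have e : (CP q (r + 1) → Q0) ≃ (Fin q → (CP q r → Q0)) :=
        ⟨fun ν l p => ν (l, p), fun f p => f p.1 p.2, fun _ => rfl, fun _ => rfl⟩
      rw [Fintype.card_congr e, Fintype.card_fun (α := Fin q), Fintype.card_fin]
    have h1 : cnt (NN (q := q) χ (r + 1)) =
        cnt (fun f : Fin q → (CP q r → Q0) => ∃ l, NN χ r (f l)) := by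
      refine cnt_equiv (T := CP q (r + 1) → Q0)
        ⟨fun ν l p => ν (l, p), fun f p => f p.1 p.2, fun _ => rfl, fun _ => rfl⟩ ?_
      intro ν
      exact Iff.rfl
    have h2 : cnt (fun f : Fin q → (CP q r → Q0) => ∃ l, NN χ r (f l)) ≤
        ∑ l : Fin q, cnt (fun f : Fin q → (CP q r → Q0) => NN χ r (f l)) :=
      cnt_exists (fun f h => h)
    have hY0 : 0 < Fintype.card (CP q r → Q0) := by
      have : Nonempty (CP q r → Q0) := ⟨fun _ => hne.some⟩
      exact Fintype.card_pos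
    rw [hcard, h1]
    have h3 : (∑ l : Fin q, cnt (fun f : Fin q → (CP q r → Q0) => NN χ r (f l))) *
        Fintype.card (CP q r → Q0) =
        q * (cnt (NN (q := q) χ r) * Fintype.card (CP q r → Q0) ^ q) := by
      rw [sum_mul]
      rw [sum_congr rfl fun l _ => cnt_coord l (NN (q := q) χ r)]
      rw [sum_const, card_univ, Fintype.card_fin, smul_eq_mul]
    generalize cnt (fun f : Fin q → (CP q r → Q0) => ∃ l, NN χ r (f l)) = X at *
    generalize (∑ l : Fin q, cnt (fun f : Fin q → (CP q r → Q0) => NN χ r (f l))) = X' at *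
    generalize Fintype.card (CP q r → Q0) = Y at *
    generalize cnt (NN (q := q) χ r) = Z at *
    refine Nat.le_of_mul_le_mul_right ?_ hY0
    calc X * Bd * Y ≤ X' * Bd * Y := Nat.mul_le_mul_right _ (Nat.mul_le_mul_right _ h2)
      _ = (X' * Y) * Bd := by ring
      _ = (Z * (q * Bd)) * Y ^ q := by rw [h3]; ring
      _ ≤ Y * Y ^ q := Nat.mul_le_mul_right _ ih
      _ = Y ^ q * Y := by ring

end

end Pool.Agent.T9h75.WT
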