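import Pool.Agent.T9h75.WH.Model

/-!
# The complete problems of the levels of the W-hierarchy

`WSat t ρ k` is the weighted satisfiability problem for normalized formulas with `t + 1` levels of
large gates and bottom fan-in `ρ` (antimonotone formulas if `t` is even, monotone ones if `t` is
odd), the standard complete problem of `W[t + 1]`.
-/

set_option autoImplicit false

namespace Pool.Agent.T9h75.WT

open Pool.Agent.T9h75.WH

/-- `t` alternating quantifiers over `Fin m`, starting with `∀` if the Boolean is `true` and with
`∃` if it is `false`. -/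
def Alt (m : ℕ) : (t : ℕ) → Bool → ((Fin t → Fin m) → Prop) → Prop
  | 0, _, y => y Fin.elim0
  | t + 1, true, y => ∀ j : Fin m, Alt m t false fun i => y (Fin.cons j i)
  | t + 1, false, y => ∃ j : Fin m, Alt m t true fun i => y (Fin.cons j i)

/-- The weighted satisfiability problem in normal form.  The instance `z` has the propositional
variables `Fin n` and is satisfied by a set `S` of exactly `k` of them if
`∀ i₁ ∃ i₂ ∀ i₃ …` (`t` alternating quantifiers over `Fin m`), followed by
`∀ a ∈ S ^ ρ, z (a, i)` if `t` is even, and by `∃ a ∈ S ^ ρ, z (a, i)` if `t` is odd. -/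
def WSat {n m : ℕ} (t ρ k : ℕ) (z : (Fin ρ → Fin n) × (Fin t → Fin m) → Prop) : Prop :=
  ∃ S : Finset (Fin n), S.card = k ∧ Alt m t true fun i =>
    (Even t → ∀ a : Fin ρ → Fin n, (∀ l, a l ∈ S) → z (a, i)) ∧
    (¬ Even t → ∃ a : Fin ρ → Fin n, (∀ l, a l ∈ S) ∧ z (a, i))

/-- The circuit `C` computes a reduction from the complete problem of `W[t + 2]` with parameter `k`
to the complete problem of `W[t + 1]` with parameter `g`, on instances with `n` variables and `m`
values for every index. -/
def Reduces {n m N M t ρ : ℕ}
    (C : Circuit ((Fin 1 → Fin n) × (Fin (t + 1) → Fin m)) ((Fin ρ → Fin N) × (Fin t → Fin M)))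
    (k g : ℕ) : Prop :=
  ∀ z, WSat (t + 1) 1 k z ↔ WSat t ρ g (C.eval z)

end Pool.Agent.T9h75.WT
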