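import Pool.Agent.T9h75.WT.Embed

set_option autoImplicit false
set_option linter.unusedSectionVars false

namespace Pool.Agent.T9h75.WT

open Finset Pool.Agent.T9h16 Pool.Agent.T9h75.WH
open scoped Classical

section
variable {p k q n m B r : ℕ}

/-- The column of an index whose first entry is `j`. -/
def colE (r : ℕ) (π : Fin m → Fin q) (j : Fin q) (i : Fin (lv r + 1) → Fin m) : DC q r :=
  dd r (Fin.cons j fun l => π (i l.succ))

/-- The variables of the instance written by the blocks (even level). -/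
def XE (e : Fin p × (Fin k × Fin q) ↪ Fin n) (x₀ : Fin k) (dec : Fin m → GamE k B ⊕ Fin q)
    (π : Fin m → Fin q) (y : Fin p → Set (DC q r × (Fin k × Fin q)))
    (a : (Fin 1 → Fin n) × (Fin (lv r + 1) → Fin m)) : Prop :=
  Sum.elim (fun γ => memE e x₀ γ (a.1 0))
    (fun j => ∃ R, e R = a.1 0 ∧ (colE r π j a.2, R.2) ∈ y R.1) (dec (a.2 0))

/-- The embedding of the blocks (even level). -/
def embE (e : Fin p × (Fin k × Fin q) ↪ Fin n) (x₀ : Fin k) (dec : Fin m → GamE k B ⊕ Fin q)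
    (π : Fin m → Fin q) :
    Emb ((Fin 1 → Fin n) × (Fin (lv r + 1) → Fin m)) (Fin p) (DC q r × (Fin k × Fin q)) where
  X := XE e x₀ dec π
  mono := by
    intro y y' h a
    unfold XE
    rcases dec (a.2 0) with γ | j
    · exact fun h => h
    · rintro ⟨R, hR, h1⟩
      exact ⟨R, hR, h _ h1⟩
  leaf := by
    intro a
    unfold XE
    rcases dec (a.2 0) with γ | j
    · exact Or.inl ⟨_, fun y => Iff.rfl⟩
    · by_cases h : ∃ R, e R = a.1 0
      · obtain ⟨R, hR⟩ := h
        refine Or.inr ⟨R.1, (colE r π j a.2, R.2), fun y => ?_⟩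
        constructor
        · rintro ⟨R', hR', h1⟩
          rw [← hR] at hR'
          rw [← e.injective hR']
          exact h1
        · intro h1
          exact ⟨R, hR, h1⟩
      · refine Or.inl ⟨False, fun y => ⟨?_, fun h => h.elim⟩⟩
        rintro ⟨R, hR, -⟩
        exact h ⟨R, hR⟩

theorem WSat_XE (hm : 0 < m) (e : Fin p × (Fin k × Fin q) ↪ Fin n) (x₀ : Fin k)
    (dec : Fin m → GamE k B ⊕ Fin q) (hdec : Function.Surjective dec) (π : Fin m → Fin q)
    (hπ : Function.Surjective π) (hp : p ≤ 2 ^ B)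
    (y : Fin p → Set (DC q r × (Fin k × Fin q))) :
    WSat (lv r + 1) 1 k (XE e x₀ dec π y) ↔ ∃ P, TT GE r (y P) := by
  have hodd : ¬ Even (lv r + 1) := by
    rw [lv_eq, Nat.not_even_iff_odd]
    exact odd_two_mul_add_one r
  -- the value of a set of rows
  have hval : ∀ S : Finset (Fin n), (Alt m (lv r + 1) true fun i =>
      (Even (lv r + 1) → ∀ a : Fin 1 → Fin n, (∀ l, a l ∈ S) → XE e x₀ dec π y (a, i)) ∧
      (¬ Even (lv r + 1) → ∃ a : Fin 1 → Fin n, (∀ l, a l ∈ S) ∧ XE e x₀ dec π y (a, i))) ↔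
      (∀ γ : GamE k B, ∃ v ∈ S, memE e x₀ γ v) ∧
        Out r fun d => ∃ v ∈ S, ∃ R, e R = v ∧ (d, R.2) ∈ y R.1 := by
    intro S
    rw [← Alt_out]
    have h1 : (Alt m (lv r + 1) true fun i =>
        (Even (lv r + 1) → ∀ a : Fin 1 → Fin n, (∀ l, a l ∈ S) → XE e x₀ dec π y (a, i)) ∧
        (¬ Even (lv r + 1) → ∃ a : Fin 1 → Fin n, (∀ l, a l ∈ S) ∧ XE e x₀ dec π y (a, i))) ↔
        Alt m (lv r + 1) true fun i => ∃ v ∈ S, XE e x₀ dec π y (fun _ => v, i) := by
      apply Alt_congr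
      intro i
      constructor
      · intro h
        obtain ⟨a, ha, h2⟩ := h.2 hodd
        refine ⟨a 0, ha 0, ?_⟩
        have : (fun _ => a 0) = a := by
          funext l
          rw [Subsingleton.elim l 0]
        rw [this]
        exact h2
      · rintro ⟨v, hv, h2⟩
        exact ⟨fun h => absurd h hodd, fun _ => ⟨fun _ => v, fun _ => hv, h2⟩⟩
    rw [h1]
    apply Alt_split dec hdec π hπ
    · intro j γ hj
      have h2 : (Alt m (lv r) false fun i => ∃ v ∈ S, XE e x₀ dec π y (fun _ => v,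
          (Fin.cons j i : Fin (lv r + 1) → Fin m))) ↔
          Alt m (lv r) false fun _ => ∃ v ∈ S, memE e x₀ γ v := by
        apply Alt_congr
        intro i
        unfold XE
        simp only [Fin.cons_zero, hj, Sum.elim_inl]
      exact h2.trans (Alt_const hm _ _ _)
    · intro j j' hj i
      unfold XE colE
      simp only [Fin.cons_zero, hj, Sum.elim_inr, Fin.cons_succ]
  constructor
  · rintro ⟨S, hS, h⟩
    obtain ⟨h1, h2⟩ := (hval S).1 h
    obtain ⟨P, φ, rfl⟩ := (gadE e x₀ hp S hS).1 h1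
    refine ⟨P, φ, Out_mono r ?_ h2⟩
    rintro d ⟨v, hv, R, hR, h3⟩
    obtain ⟨x, rfl⟩ := mem_SS.1 hv
    rw [e.injective hR] at h3
    exact ⟨x, h3⟩
  · rintro ⟨P, φ, h⟩
    refine ⟨SS e P φ, card_SS e P φ, (hval _).2 ⟨(gadE e x₀ hp _ (card_SS e P φ)).2 ⟨P, φ, rfl⟩, ?_⟩⟩
    refine Out_mono r ?_ h
    rintro d ⟨x, h3⟩
    exact ⟨_, mem_SS.2 ⟨x, rfl⟩, _, rfl, h3⟩

/-- The column and entry of an index whose first entry is `j`. -/
def colO (r : ℕ) (π : Fin m → Fin q) (j : Fin q) (i : Fin (lv r + 2) → Fin m) : DC q r × Fin q :=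
  de r (Fin.cons j fun l => π (i l.succ))

/-- The variables of the instance written by the blocks (odd level). -/
def XO (e : Fin p × (Fin k × Fin q) ↪ Fin n) (bl : Fin m → Bool)
    (dec : Fin m → GamO k B ⊕ Fin q) (π : Fin m → Fin q)
    (y : Fin p → Set (DC q r × ((Fin k × Fin q) × Fin q)))
    (a : (Fin 1 → Fin n) × (Fin (lv r + 2) → Fin m)) : Prop :=
  Sum.elim (fun γ => memO e γ (bl (a.2 (Fin.succ 0))) (a.1 0))
    (fun j => ∃ R, e R = a.1 0 ∧ ((colO r π j a.2).1, (R.2, (colO r π j a.2).2)) ∈ y R.1)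
    (dec (a.2 0))

/-- The embedding of the blocks (odd level). -/
def embO (e : Fin p × (Fin k × Fin q) ↪ Fin n) (bl : Fin m → Bool)
    (dec : Fin m → GamO k B ⊕ Fin q) (π : Fin m → Fin q) :
    Emb ((Fin 1 → Fin n) × (Fin (lv r + 2) → Fin m)) (Fin p)
      (DC q r × ((Fin k × Fin q) × Fin q)) where
  X := XO e bl dec π
  mono := by
    intro y y' h a
    unfold XO
    rcases dec (a.2 0) with γ | j
    · exact fun h => h
    · rintro ⟨R, hR, h1⟩
      exact ⟨R, hR, h _ h1⟩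
  leaf := by
    intro a
    unfold XO
    rcases dec (a.2 0) with γ | j
    · exact Or.inl ⟨_, fun y => Iff.rfl⟩
    · by_cases h : ∃ R, e R = a.1 0
      · obtain ⟨R, hR⟩ := h
        refine Or.inr ⟨R.1, ((colO r π j a.2).1, (R.2, (colO r π j a.2).2)), fun y => ?_⟩
        constructor
        · rintro ⟨R', hR', h1⟩
          rw [← hR] at hR'
          rw [← e.injective hR']
          exact h1
        · intro h1
          exact ⟨R, hR, h1⟩
      · refine Or.inl ⟨False, fun y => ⟨?_, fun h => h.elim⟩⟩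
        rintro ⟨R, hR, -⟩
        exact h ⟨R, hR⟩

theorem WSat_XO (hm : 0 < m) (hk : 1 ≤ k) (hB : 1 ≤ B) (e : Fin p × (Fin k × Fin q) ↪ Fin n)
    (bl : Fin m → Bool) (hbl : Function.Surjective bl)
    (dec : Fin m → GamO k B ⊕ Fin q) (hdec : Function.Surjective dec) (π : Fin m → Fin q)
    (hπ : Function.Surjective π) (hn : n ≤ 2 ^ B) (hp : p ≤ 2 ^ B)
    (y : Fin p → Set (DC q r × ((Fin k × Fin q) × Fin q))) :
    WSat (lv r + 2) 1 k (XO e bl dec π y) ↔ ∃ P, TT GO r (y P) := by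
  have heven : Even (lv r + 2) := by
    rw [lv_eq]
    exact ⟨r + 1, by ring⟩
  -- the value of a set of rows
  have hval : ∀ S : Finset (Fin n), (Alt m (lv r + 2) true fun i =>
      (Even (lv r + 2) → ∀ a : Fin 1 → Fin n, (∀ l, a l ∈ S) → XO e bl dec π y (a, i)) ∧
      (¬ Even (lv r + 2) → ∃ a : Fin 1 → Fin n, (∀ l, a l ∈ S) ∧ XO e bl dec π y (a, i))) ↔
      (∀ γ : GamO k B, ∃ β, ∀ v ∈ S, memO e γ β v) ∧
        Out r fun d => ∃ l, ∀ v ∈ S, ∃ R, e R = v ∧ (d, (R.2, l)) ∈ y R.1 := by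
    intro S
    have h0 := Alt_out' (q := q) r
      fun c : DC q r × Fin q => ∀ v ∈ S, ∃ R, e R = v ∧ (c.1, (R.2, c.2)) ∈ y R.1
    rw [← h0]
    have h1 : (Alt m (lv r + 2) true fun i =>
        (Even (lv r + 2) → ∀ a : Fin 1 → Fin n, (∀ l, a l ∈ S) → XO e bl dec π y (a, i)) ∧
        (¬ Even (lv r + 2) → ∃ a : Fin 1 → Fin n, (∀ l, a l ∈ S) ∧ XO e bl dec π y (a, i))) ↔
        Alt m (lv r + 2) true fun i => ∀ v ∈ S, XO e bl dec π y (fun _ => v, i) := by
      apply Alt_congr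
      intro i
      constructor
      · intro h v hv
        exact h.1 heven (fun _ => v) fun _ => hv
      · intro h
        refine ⟨fun _ a ha => ?_, fun h' => absurd heven h'⟩
        have h2 := h (a 0) (ha 0)
        have : (fun _ => a 0) = a := by
          funext l
          rw [Subsingleton.elim l 0]
        rw [this] at h2
        exact h2
    rw [h1]
    apply Alt_split dec hdec π hπ
    · intro j γ hj
      have h2 : (Alt m (lv r + 1) false fun i => ∀ v ∈ S, XO e bl dec π y (fun _ => v,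
          (Fin.cons j i : Fin (lv r + 2) → Fin m))) ↔
          Alt m (lv r + 1) false fun i => ∀ v ∈ S, memO e γ (bl (i 0)) v := by
        apply Alt_congr
        intro i
        unfold XO
        simp only [Fin.cons_zero, hj, Sum.elim_inl, Fin.cons_succ]
      rw [h2]
      constructor
      · rintro ⟨j₂, h3⟩
        exact ⟨bl j₂, (Alt_const hm (lv r) true _).1 h3⟩
      · rintro ⟨β, h3⟩
        obtain ⟨j₂, rfl⟩ := hbl β
        exact ⟨j₂, (Alt_const hm (lv r) true _).2 h3⟩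
    · intro j j' hj i
      unfold XO colO
      simp only [Fin.cons_zero, hj, Sum.elim_inr, Fin.cons_succ]
  constructor
  · rintro ⟨S, hS, h⟩
    obtain ⟨h1, h2⟩ := (hval S).1 h
    obtain ⟨P, φ, rfl⟩ := (gadO e hk hB hn hp S hS).1 h1
    refine ⟨P, φ, Out_mono r ?_ h2⟩
    rintro d ⟨l, h3⟩
    refine ⟨l, fun x => ?_⟩
    obtain ⟨R, hR, h4⟩ := h3 _ (mem_SS.2 ⟨x, rfl⟩)
    rw [e.injective hR] at h4
    exact h4
  · rintro ⟨P, φ, h⟩
    refine ⟨SS e P φ, card_SS e P φ,
      (hval _).2 ⟨(gadO e hk hB hn hp _ (card_SS e P φ)).2 ⟨P, φ, rfl⟩, ?_⟩⟩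
    refine Out_mono r ?_ h
    rintro d ⟨l, h3⟩
    refine ⟨l, fun v hv => ?_⟩
    obtain ⟨x, rfl⟩ := mem_SS.1 hv
    exact ⟨_, rfl, h3 x⟩

end

end Pool.Agent.T9h75.WT
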