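import Pool.Agent.T9h16.Approx

set_option autoImplicit false
set_option linter.unusedSectionVars false

namespace Pool.Agent.T9h75.WT

open Finset Pool.Agent.T9h16
open scoped Classical

/-- A system of positive and negative tests, with the sets of variables that may be used by the
approximators. -/
structure Sys (E P Q : Type) where
  pos : P → Set E
  neg : Q → Set E
  WOK : Finset E → Prop
  FOK : Finset E → Prop
  W0 : WOK ∅
  W1 : ∀ e, WOK {e}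
  F0 : FOK ∅
  F1 : ∀ e, FOK {e}

namespace Sys
variable {E P Q : Type} (S : Sys E P Q)

/-- The bad positive tests of a family of clauses. -/
def BadP (𝒞 : Set (Finset E)) (t : P) : Prop :=
  (∀ F ∈ 𝒞, ∃ e ∈ F, e ∈ S.pos t) ∧
    ∀ W, S.WOK W → (∀ e ∈ W, e ∈ S.pos t) → ∃ F ∈ 𝒞, ∀ e ∈ F, e ∉ W

/-- The bad negative tests of a family of terms. -/
def BadN (𝒲 : Set (Finset E)) (u : Q) : Prop :=
  (∀ W ∈ 𝒲, ∃ e ∈ W, e ∉ S.neg u) ∧
    ∀ F, S.FOK F → (∀ e ∈ F, e ∉ S.neg u) → ∃ W ∈ 𝒲, ∀ e ∈ F, e ∉ W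

/-- `h` has a pair of approximators, correct outside of the error sets. -/
def Appr (PE : Finset P) (NE : Finset Q) (h : Set E → Prop) : Prop :=
  ∃ (𝒲 𝒞 : Set (Finset E)),
    (∀ W ∈ 𝒲, S.WOK W) ∧ (∀ F ∈ 𝒞, S.FOK F) ∧ (∀ W ∈ 𝒲, ∀ F ∈ 𝒞, ∃ e ∈ F, e ∈ W) ∧
    (∀ t, t ∉ PE → h (S.pos t) → ∃ W ∈ 𝒲, ∀ e ∈ W, e ∈ S.pos t) ∧
    (∀ u, u ∉ NE → ¬ h (S.neg u) → ∃ F ∈ 𝒞, ∀ e ∈ F, e ∉ S.neg u)

variable {S}

theorem Appr.mono {PE PE' : Finset P} {NE NE' : Finset Q}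
    {h : Set E → Prop} (hP : PE ⊆ PE') (hN : NE ⊆ NE') (H : S.Appr PE NE h) :
    S.Appr PE' NE' h := by
  obtain ⟨𝒲, 𝒞, h1, h2, h3, h4, h5⟩ := H
  exact ⟨𝒲, 𝒞, h1, h2, h3, fun φ hφ => h4 φ (fun h => hφ (hP h)),
    fun χ hχ => h5 χ (fun h => hχ (hN h))⟩

theorem Appr.congr {PE : Finset P} {NE : Finset Q}
    {h h' : Set E → Prop} (hh : ∀ z, h' z ↔ h z) (H : S.Appr PE NE h) :
    S.Appr PE NE h' := by
  obtain ⟨𝒲, 𝒞, h1, h2, h3, h4, h5⟩ := H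
  exact ⟨𝒲, 𝒞, h1, h2, h3, fun φ hφ h => h4 φ hφ ((hh _).1 h),
    fun χ hχ h => h5 χ hχ (fun h' => h ((hh _).2 h'))⟩

theorem appr_leaf {h : Set E → Prop} (hh : Leaf h) : S.Appr ∅ ∅ h := by
  rcases hh with ⟨e, he⟩ | ⟨t, ht⟩
  · refine ⟨{{e}}, {{e}}, ?_, ?_, ?_, ?_, ?_⟩
    · rintro W rfl; exact S.W1 e
    · rintro F rfl; exact S.F1 e
    · rintro W rfl F rfl
      exact ⟨e, by simp, by simp⟩
    · intro t _ hφ
      refine ⟨_, rfl, ?_⟩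
      intro e' he'
      rw [mem_singleton] at he'
      subst he'
      exact (he _).1 hφ
    · intro χ _ hχ
      refine ⟨_, rfl, ?_⟩
      intro e' he'
      rw [mem_singleton] at he'
      subst he'
      exact fun h => hχ ((he _).2 h)
  · by_cases htt : t
    · refine ⟨{∅}, ∅, ?_, ?_, ?_, ?_, ?_⟩
      · rintro W rfl; exact S.W0
      · intro F hF; exact hF.elim
      · intro W _ F hF; exact hF.elim
      · intro φ _ _
        exact ⟨∅, rfl, by simp⟩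
      · intro χ _ hχ
        exact (hχ ((ht _).2 htt)).elim
    · refine ⟨∅, {∅}, ?_, ?_, ?_, ?_, ?_⟩
      · intro F hF; exact hF.elim
      · rintro F rfl; exact S.F0
      · intro W hW; exact hW.elim
      · intro φ _ hφ
        exact (htt ((ht _).1 hφ)).elim
      · intro χ _ _
        exact ⟨∅, rfl, by simp⟩

variable [Fintype P] [Fintype Q]

theorem appr_and {κ : ℕ}
    (hP : ∀ 𝒞 : Set (Finset E), (∀ F ∈ 𝒞, S.FOK F) →
      (univ.filter (S.BadP 𝒞)).card * κ ≤ Fintype.card P)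
    {PE : Finset P} {NE : Finset Q} {p q : Set E → Prop}
    (hp : S.Appr PE NE p) (hq : S.Appr PE NE q) :
    ∃ D : Finset P, D.card * κ ≤ Fintype.card P ∧
      S.Appr (PE ∪ D) NE (fun z => p z ∧ q z) := by
  obtain ⟨𝒲₁, 𝒞₁, h1, h2, h3, h4, h5⟩ := hp
  obtain ⟨𝒲₂, 𝒞₂, k1, k2, k3, k4, k5⟩ := hq
  have hcc : ∀ F ∈ 𝒞₁ ∪ 𝒞₂, S.FOK F := by
    rintro F (hF | hF)
    · exact h2 F hF
    · exact k2 F hF
  refine ⟨_, hP (𝒞₁ ∪ 𝒞₂) hcc, ?_⟩
  refine ⟨{W | S.WOK W ∧ ∀ F ∈ 𝒞₁ ∪ 𝒞₂, ∃ e ∈ F, e ∈ W}, 𝒞₁ ∪ 𝒞₂,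
    fun W hW => hW.1, hcc, fun W hW F hF => hW.2 F hF, ?_, ?_⟩
  · rintro t ht ⟨hpz, hqz⟩
    rw [notMem_union] at ht
    obtain ⟨W₁, hW₁, ht₁⟩ := h4 t ht.1 hpz
    obtain ⟨W₂, hW₂, ht₂⟩ := k4 t ht.1 hqz
    have hD : ¬ S.BadP (𝒞₁ ∪ 𝒞₂) t := fun hb => ht.2 (mem_filter.2 ⟨mem_univ _, hb⟩)
    unfold BadP at hD
    push Not at hD
    obtain ⟨Y, hYc, hYt, hY⟩ := hD (by
      rintro F (hF | hF)
      · obtain ⟨e, he, heW⟩ := h3 W₁ hW₁ F hF
        exact ⟨e, he, ht₁ e heW⟩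
      · obtain ⟨e, he, heW⟩ := k3 W₂ hW₂ F hF
        exact ⟨e, he, ht₂ e heW⟩)
    exact ⟨Y, ⟨hYc, hY⟩, hYt⟩
  · intro χ hχ hnot
    rw [not_and_or] at hnot
    rcases hnot with hnot | hnot
    · obtain ⟨F, hF, hFχ⟩ := h5 χ hχ hnot
      exact ⟨F, Or.inl hF, hFχ⟩
    · obtain ⟨F, hF, hFχ⟩ := k5 χ hχ hnot
      exact ⟨F, Or.inr hF, hFχ⟩

theorem appr_or {κ : ℕ}
    (hN : ∀ 𝒲 : Set (Finset E), (∀ W ∈ 𝒲, S.WOK W) →
      (univ.filter (S.BadN 𝒲)).card * κ ≤ Fintype.card Q)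
    {PE : Finset P} {NE : Finset Q} {p q : Set E → Prop}
    (hp : S.Appr PE NE p) (hq : S.Appr PE NE q) :
    ∃ D : Finset Q, D.card * κ ≤ Fintype.card Q ∧
      S.Appr PE (NE ∪ D) (fun z => p z ∨ q z) := by
  obtain ⟨𝒲₁, 𝒞₁, h1, h2, h3, h4, h5⟩ := hp
  obtain ⟨𝒲₂, 𝒞₂, k1, k2, k3, k4, k5⟩ := hq
  have hcc : ∀ W ∈ 𝒲₁ ∪ 𝒲₂, S.WOK W := by
    rintro W (hW | hW)
    · exact h1 W hW
    · exact k1 W hW
  refine ⟨_, hN (𝒲₁ ∪ 𝒲₂) hcc, ?_⟩
  refine ⟨𝒲₁ ∪ 𝒲₂, {F | S.FOK F ∧ ∀ W ∈ 𝒲₁ ∪ 𝒲₂, ∃ e ∈ F, e ∈ W}, hcc, fun F hF => hF.1,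
    fun W hW F hF => hF.2 W hW, ?_, ?_⟩
  · rintro φ hφ (h | h)
    · obtain ⟨W, hW, hWφ⟩ := h4 φ hφ h
      exact ⟨W, Or.inl hW, hWφ⟩
    · obtain ⟨W, hW, hWφ⟩ := k4 φ hφ h
      exact ⟨W, Or.inr hW, hWφ⟩
  · intro u hu hnot
    rw [not_or] at hnot
    rw [notMem_union] at hu
    obtain ⟨F₁, hF₁, hu₁⟩ := h5 u hu.1 hnot.1
    obtain ⟨F₂, hF₂, hu₂⟩ := k5 u hu.1 hnot.2
    have hD : ¬ S.BadN (𝒲₁ ∪ 𝒲₂) u := fun hb => hu.2 (mem_filter.2 ⟨mem_univ _, hb⟩)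
    unfold BadN at hD
    push Not at hD
    obtain ⟨Y, hYc, hYu, hY⟩ := hD (by
      rintro W (hW | hW)
      · obtain ⟨e, he, heW⟩ := h3 W hW F₁ hF₁
        exact ⟨e, heW, hu₁ e he⟩
      · obtain ⟨e, he, heW⟩ := k3 W hW F₂ hF₂
        exact ⟨e, heW, hu₂ e he⟩)
    exact ⟨Y, ⟨hYc, hY⟩, hYu⟩

/-- Approximation of a whole straight-line program. -/
theorem appr_slp {κP κN : ℕ}
    (hP : ∀ 𝒞 : Set (Finset E), (∀ F ∈ 𝒞, S.FOK F) →
      (univ.filter (S.BadP 𝒞)).card * κP ≤ Fintype.card P)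
    (hN : ∀ 𝒲 : Set (Finset E), (∀ W ∈ 𝒲, S.WOK W) →
      (univ.filter (S.BadN 𝒲)).card * κN ≤ Fintype.card Q)
    (g : ℕ → Set E → Prop) (s : ℕ) (hg : IsSLP g s) :
    ∃ (PE : Finset P) (NE : Finset Q),
      PE.card * κP ≤ s * Fintype.card P ∧ NE.card * κN ≤ s * Fintype.card Q ∧
      ∀ p, Avail g s p → S.Appr PE NE p := by
  have havail : ∀ (s : ℕ) (PE : Finset P) (NE : Finset Q), (∀ i < s, S.Appr PE NE (g i)) →
      ∀ p, Avail g s p → S.Appr PE NE p := by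
    intro s PE NE happ
    rintro p (hp | ⟨j, hj, hp⟩)
    · exact (appr_leaf hp).mono (by simp) (by simp)
    · exact (happ j hj).congr hp
  suffices h : ∃ (PE : Finset P) (NE : Finset Q),
      PE.card * κP ≤ s * Fintype.card P ∧ NE.card * κN ≤ s * Fintype.card Q ∧
      ∀ i < s, S.Appr PE NE (g i) by
    obtain ⟨PE, NE, h1, h2, h3⟩ := h
    exact ⟨PE, NE, h1, h2, havail s PE NE h3⟩
  induction s with
  | zero => exact ⟨∅, ∅, by simp, by simp, by intro i hi; omega⟩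
  | succ s ih =>
    obtain ⟨PE, NE, hPE, hNE, happ⟩ := ih (fun i hi => hg i (by omega))
    rcases hg s (by omega) with hleaf | ⟨p, q, hp, hq, hgs⟩
    · refine ⟨PE, NE, hPE.trans (Nat.mul_le_mul_right _ (by omega)),
        hNE.trans (Nat.mul_le_mul_right _ (by omega)), ?_⟩
      intro i hi
      rcases Nat.lt_succ_iff_lt_or_eq.1 hi with hi | rfl
      · exact happ i hi
      · exact (appr_leaf hleaf).mono (by simp) (by simp)
    · have hp' := havail s PE NE happ p hp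
      have hq' := havail s PE NE happ q hq
      rcases hgs with hgs | hgs
      · obtain ⟨D, hD, hap⟩ := appr_and hP hp' hq'
        refine ⟨PE ∪ D, NE, ?_, hNE.trans (Nat.mul_le_mul_right _ (by omega)), ?_⟩
        · calc (PE ∪ D).card * κP ≤ (PE.card + D.card) * κP :=
                Nat.mul_le_mul_right _ (card_union_le _ _)
            _ = PE.card * κP + D.card * κP := by ring
            _ ≤ s * Fintype.card P + Fintype.card P := Nat.add_le_add hPE hD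
            _ = _ := by ring
        · intro i hi
          rcases Nat.lt_succ_iff_lt_or_eq.1 hi with hi | rfl
          · exact (happ i hi).mono subset_union_left (by simp)
          · exact hap.congr hgs
      · obtain ⟨D, hD, hap⟩ := appr_or hN hp' hq'
        refine ⟨PE, NE ∪ D, hPE.trans (Nat.mul_le_mul_right _ (by omega)), ?_, ?_⟩
        · calc (NE ∪ D).card * κN ≤ (NE.card + D.card) * κN :=
                Nat.mul_le_mul_right _ (card_union_le _ _)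
            _ = NE.card * κN + D.card * κN := by ring
            _ ≤ s * Fintype.card Q + Fintype.card Q := Nat.add_le_add hNE hD
            _ = _ := by ring
        · intro i hi
          rcases Nat.lt_succ_iff_lt_or_eq.1 hi with hi | rfl
          · exact (happ i hi).mono (by simp) subset_union_left
          · exact hap.congr hgs

end Sys

end Pool.Agent.T9h75.WT
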