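import Pool.Agent.T9h75.WT.Sys

set_option autoImplicit false
set_option linter.unusedSectionVars false

namespace Pool.Agent.T9h75.WT

open Finset Pool.Agent.T9h16
open scoped Classical

/-- Paths of free choices. -/
def CP (q : ℕ) : ℕ → Type
  | 0 => Fin q
  | r + 1 => Fin q × CP q r

/-- The columns of a tree with `2 r + 1` levels. -/
def DC (q : ℕ) : ℕ → Type
  | 0 => Fin q
  | r + 1 => Fin q × (Fin q × DC q r)

/-- The choices made by a positive test at the existential levels. -/
def Sel (q : ℕ) : ℕ → Type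
  | 0 => Unit
  | r + 1 => Fin q → Fin q × Sel q r

/-- The choices made by a negative test at the universal levels (except for the last one). -/
def Reg (q : ℕ) : ℕ → Type
  | 0 => Unit
  | r + 1 => Fin q × (Fin q → Reg q r)

instance fintypeCP (q : ℕ) : ∀ r, Fintype (CP q r)
  | 0 => inferInstanceAs (Fintype (Fin q))
  | r + 1 => @instFintypeProd _ _ _ (fintypeCP q r)

instance decCP (q : ℕ) : ∀ r, DecidableEq (CP q r)
  | 0 => inferInstanceAs (DecidableEq (Fin q))
  | r + 1 => @instDecidableEqProd _ _ _ (decCP q r)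

instance fintypeSel (q : ℕ) : ∀ r, Fintype (Sel q r)
  | 0 => inferInstanceAs (Fintype Unit)
  | r + 1 => @Pi.instFintype _ _ _ _ (fun _ => @instFintypeProd _ _ _ (fintypeSel q r))

instance fintypeReg (q : ℕ) : ∀ r, Fintype (Reg q r)
  | 0 => inferInstanceAs (Fintype Unit)
  | r + 1 => @instFintypeProd _ _ _ (@Pi.instFintype _ _ _ _ (fun _ => fintypeReg q r))

section
variable {q : ℕ}

/-- The columns selected by a positive test. -/
def embP : ∀ r, Sel q r → CP q r → DC q r
  | 0, _, j => j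
  | r + 1, σ, p => (p.1, (σ p.1).1, embP r (σ p.1).2 p.2)

/-- The columns in the region of a negative test. -/
def embN : ∀ r, Reg q r → CP q r → DC q r
  | 0, _, j => j
  | r + 1, κ, p => (κ.1, p.1, embN r (κ.2 p.1) p.2)

/-- The alternating formula. -/
def Out : ∀ r, (DC q r → Prop) → Prop
  | 0, y => ∀ j : Fin q, y j
  | r + 1, y => ∀ j : Fin q, ∃ l : Fin q, Out r fun d => y (j, l, d)

theorem embP_inj : ∀ (r : ℕ) (σ : Sel q r), Function.Injective (embP r σ)
  | 0, _ => fun _ _ h => h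
  | r + 1, σ => by
    rintro ⟨j, p⟩ ⟨j', p'⟩ h
    have h1 : j = j' := congrArg (fun d : DC q (r + 1) => d.1) h
    subst h1
    have h2 : embP r (σ j).2 p = embP r (σ j).2 p' := congrArg (fun d : DC q (r + 1) => d.2.2) h
    rw [embP_inj r _ h2]

theorem embN_inj : ∀ (r : ℕ) (κ : Reg q r), Function.Injective (embN r κ)
  | 0, _ => fun _ _ h => h
  | r + 1, κ => by
    rintro ⟨l, p⟩ ⟨l', p'⟩ h
    have h1 : l = l' := congrArg (fun d : DC q (r + 1) => d.2.1) h
    subst h1
    have h2 : embN r (κ.2 l) p = embN r (κ.2 l) p' := congrArg (fun d : DC q (r + 1) => d.2.2) h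
    rw [embN_inj r _ h2]

theorem Out_mono : ∀ (r : ℕ) {y y' : DC q r → Prop}, (∀ d, y d → y' d) → Out r y → Out r y'
  | 0, _, _, h, hy => fun j => h j (hy j)
  | r + 1, _, _, h, hy => fun j => by
    obtain ⟨l, hl⟩ := hy j
    exact ⟨l, Out_mono r (fun d => h (j, l, d)) hl⟩

/-- The formula is true if all selected columns are. -/
theorem Out_of_sel : ∀ (r : ℕ) (σ : Sel q r) (y : DC q r → Prop),
    (∀ p, y (embP r σ p)) → Out r y
  | 0, _, _, h => fun j => h j
  | r + 1, σ, y, h => fun j => ⟨(σ j).1, Out_of_sel r (σ j).2 _ fun p => h (j, p)⟩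

/-- The formula is false if every leaf block of the region has a false column. -/
def RegBad : ∀ r, (CP q r → Prop) → Prop
  | 0, y => ∃ j : Fin q, ¬ y j
  | r + 1, y => ∀ l : Fin q, RegBad r fun p => y (l, p)

theorem not_Out_of_reg : ∀ (r : ℕ) (κ : Reg q r) (y : DC q r → Prop),
    (RegBad r fun p => y (embN r κ p)) → ¬ Out r y
  | 0, _, _, h => fun hO => by
    obtain ⟨j, hj⟩ := h
    exact hj (hO j)
  | r + 1, κ, y, h => fun hO => by
    obtain ⟨l, hl⟩ := hO κ.1
    exact not_Out_of_reg r (κ.2 l) _ (h l) hl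

end

section tests
variable {q : ℕ} {E0 V Q0 Φ : Type}

/-- Positive tests over the set `D` of columns. -/
def posD {D : Type} (posV : Φ → V → Set E0) (t : Φ × (D → V)) : Set (D × E0) :=
  {e | e.2 ∈ posV t.1 (t.2 e.1)}

/-- Negative tests over the set `D` of columns. -/
def negD {D : Type} (negV : Q0 → Set E0) (u : D → Q0) : Set (D × E0) :=
  {e | e.2 ∈ negV (u e.1)}

/-- Positive tests over the tree. -/
def posL (posV : Φ → V → Set E0) (r : ℕ) (φ : Φ) (t : Sel q r × (CP q r → V)) :
    Set (DC q r × E0) :=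
  {e | ∃ p, embP r t.1 p = e.1 ∧ e.2 ∈ posV φ (t.2 p)}

/-- Negative tests over the tree. -/
def negL (negV : Q0 → Set E0) (r : ℕ) (u : Reg q r × (CP q r → Q0)) : Set (DC q r × E0) :=
  {e | ∀ p, embN r u.1 p = e.1 → e.2 ∈ negV (u.2 p)}

/-- The data of the approximation method for a single column. -/
structure Par (E0 : Type) where
  ℓ : ℕ
  c : ℕ
  R : Finset E0 → Prop
  hℓ : 1 ≤ ℓ
  hc : 1 ≤ c
  R0 : R ∅
  R1 : ∀ e, R {e}
  hR : ∀ T T' : Finset E0, T ⊆ T' → R T' → R T

/-- The system over the set `D` of columns. -/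
noncomputable def baseSys (D : Type) (posV : Φ → V → Set E0) (negV : Q0 → Set E0) (A : Par E0) :
    Sys (D × E0) (Φ × (D → V)) (D → Q0) where
  pos := posD posV
  neg := negD negV
  WOK := fun W => W.card ≤ A.ℓ ∧ A.R (W.image Prod.snd)
  FOK := fun F => F.card ≤ A.c
  W0 := ⟨by simp, by simpa using A.R0⟩
  W1 := fun e => ⟨by simpa using A.hℓ, by simpa using A.R1 e.2⟩
  F0 := by simp
  F1 := fun e => by simpa using A.hc

/-- The system over the tree. -/
noncomputable def levSys (r : ℕ) (posV : Φ → V → Set E0) (negV : Q0 → Set E0) (A : Par E0) :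
    Sys (DC q r × E0) (Φ × (Sel q r × (CP q r → V))) (Reg q r × (CP q r → Q0)) where
  pos := fun t => posL posV r t.1 t.2
  neg := negL negV r
  WOK := fun W => W.card ≤ A.ℓ ∧ A.R (W.image Prod.snd)
  FOK := fun F => F.card ≤ A.c
  W0 := ⟨by simp, by simpa using A.R0⟩
  W1 := fun e => ⟨by simpa using A.hℓ, by simpa using A.R1 e.2⟩
  F0 := by simp
  F1 := fun e => by simpa using A.hc

variable {posV : Φ → V → Set E0} {negV : Q0 → Set E0} {A : Par E0}

theorem map_inj {D D' : Type} {i : D → D'} (hi : Function.Injective i) :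
    Function.Injective (fun e : D × E0 => (i e.1, e.2)) := by
  rintro ⟨d, e⟩ ⟨d', e'⟩ h
  simp only [Prod.mk.injEq] at h
  exact Prod.ext (hi h.1) h.2

/-- Pulling back a set of variables. -/
noncomputable def pull {D D' : Type} {i : D → D'} (hi : Function.Injective i)
    (F : Finset (D' × E0)) : Finset (D × E0) :=
  F.preimage (fun e : D × E0 => (i e.1, e.2)) ((map_inj hi).injOn)

theorem mem_pull {D D' : Type} {i : D → D'} (hi : Function.Injective i)
    (F : Finset (D' × E0)) (e : D × E0) : e ∈ pull hi F ↔ (i e.1, e.2) ∈ F := by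
  rw [pull, mem_preimage]

theorem card_pull {D D' : Type} {i : D → D'} (hi : Function.Injective i)
    (F : Finset (D' × E0)) : (pull hi F).card ≤ F.card := by
  apply card_le_card_of_injOn (fun e : D × E0 => (i e.1, e.2))
  · intro e he
    exact (mem_pull hi F e).1 he
  · intro e _ e' _ h
    exact map_inj hi h

theorem badP_lev (r : ℕ) (𝒞 : Set (Finset (DC q r × E0))) (φ : Φ) (σ : Sel q r) (η : CP q r → V)
    (h : (levSys r posV negV A).BadP 𝒞 (φ, (σ, η))) :
    (baseSys (CP q r) posV negV A).BadP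
      {F' | ∃ F ∈ 𝒞, F' = pull (embP_inj r σ) F} (φ, η) := by
  obtain ⟨h1, h2⟩ := h
  refine ⟨?_, ?_⟩
  · rintro F' ⟨F, hF, rfl⟩
    obtain ⟨e, he, p, hp, hep⟩ := h1 F hF
    refine ⟨(p, e.2), ?_, hep⟩
    rw [mem_pull]
    simp only
    rw [hp]
    exact he
  · intro W ⟨hWc, hWR⟩ hW
    obtain ⟨F, hF, hFW⟩ := h2 (W.image fun e => (embP r σ e.1, e.2)) ⟨card_image_le.trans hWc, by
      rw [image_image]
      exact hWR⟩ (by
      intro e he
      rw [mem_image] at he
      obtain ⟨e', he', rfl⟩ := he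
      exact ⟨e'.1, rfl, hW e' he'⟩)
    refine ⟨_, ⟨F, hF, rfl⟩, ?_⟩
    intro e he heW
    rw [mem_pull] at he
    exact hFW _ he (mem_image.2 ⟨e, heW, rfl⟩)

theorem badN_lev (r : ℕ) (𝒲 : Set (Finset (DC q r × E0))) (κ : Reg q r) (ν : CP q r → Q0)
    (h : (levSys r posV negV A).BadN 𝒲 (κ, ν)) :
    (baseSys (CP q r) posV negV A).BadN
      {W' | ∃ W ∈ 𝒲, W' = pull (embN_inj r κ) W} ν := by
  obtain ⟨h1, h2⟩ := h
  refine ⟨?_, ?_⟩
  · rintro W' ⟨W, hW, rfl⟩
    obtain ⟨e, he, hen⟩ := h1 W hW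
    have hen' : ¬ ∀ p, embN r κ p = e.1 → e.2 ∈ negV (ν p) := hen
    push Not at hen'
    obtain ⟨p, hp, hep⟩ := hen'
    refine ⟨(p, e.2), ?_, hep⟩
    rw [mem_pull]
    simp only
    rw [hp]
    exact he
  · intro F hFc hF
    obtain ⟨W, hW, hWF⟩ := h2 (F.image fun e => (embN r κ e.1, e.2)) (card_image_le.trans hFc) (by
      intro e he
      rw [mem_image] at he
      obtain ⟨e', he', rfl⟩ := he
      intro hcon
      exact hF e' he' (hcon e'.1 rfl))
    refine ⟨_, ⟨W, hW, rfl⟩, ?_⟩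
    intro e he heF
    rw [mem_pull] at heF
    exact hWF _ (mem_image.2 ⟨e, he, rfl⟩) heF

variable [Fintype Φ] [Fintype V] [Fintype Q0]

theorem card_badP_lev (r κ : ℕ)
    (hP : ∀ 𝒞 : Set (Finset (CP q r × E0)), (∀ F ∈ 𝒞, F.card ≤ A.c) →
      (univ.filter ((baseSys (CP q r) posV negV A).BadP 𝒞)).card * κ ≤
        Fintype.card (Φ × (CP q r → V)))
    (𝒞 : Set (Finset (DC q r × E0))) (hc : ∀ F ∈ 𝒞, F.card ≤ A.c) :
    (univ.filter ((levSys r posV negV A).BadP 𝒞)).card * κ ≤
        Fintype.card (Φ × (Sel q r × (CP q r → V))) := by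
  rw [card_eq_sum_card_fiberwise (f := fun t : Φ × (Sel q r × (CP q r → V)) => t.2.1) (t := univ)
    (fun _ _ => mem_univ _), sum_mul]
  calc ∑ σ : Sel q r, ((univ.filter ((levSys r posV negV A).BadP 𝒞)).filter
        fun t : Φ × (Sel q r × (CP q r → V)) => t.2.1 = σ).card * κ
      ≤ ∑ _σ : Sel q r, Fintype.card (Φ × (CP q r → V)) := by
        apply sum_le_sum
        intro σ _
        refine le_trans (Nat.mul_le_mul_right _ ?_) (hP
          {F' | ∃ F ∈ 𝒞, F' = pull (embP_inj r σ) F} (by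
            rintro F' ⟨F, hF, rfl⟩
            exact (card_pull _ _).trans (hc F hF)))
        apply card_le_card_of_injOn
          (fun t : Φ × (Sel q r × (CP q r → V)) => ((t.1, t.2.2) : Φ × (CP q r → V)))
        · rintro ⟨φ, σ', η⟩ ht
          rw [mem_coe, mem_filter, mem_filter] at ht
          obtain ⟨⟨-, h1⟩, h2⟩ := ht
          simp only at h2
          subst h2
          rw [mem_coe, mem_filter]
          exact ⟨mem_univ _, badP_lev r 𝒞 φ σ' η h1⟩
        · rintro ⟨φ, σ', η⟩ ht ⟨φ', σ'', η'⟩ ht' h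
          rw [mem_coe, mem_filter] at ht ht'
          have e1 : σ' = σ := ht.2
          have e2 : σ'' = σ := ht'.2
          simp only [Prod.mk.injEq] at h
          rw [e1, e2, h.1, h.2]
    _ = _ := by
        rw [sum_const, smul_eq_mul, card_univ, Fintype.card_prod, Fintype.card_prod,
          Fintype.card_prod]
        ring

theorem card_badN_lev (r κ : ℕ)
    (hN : ∀ 𝒲 : Set (Finset (CP q r × E0)),
      (∀ W ∈ 𝒲, W.card ≤ A.ℓ ∧ A.R (W.image Prod.snd)) →
      (univ.filter ((baseSys (CP q r) posV negV A).BadN 𝒲)).card * κ ≤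
        Fintype.card (CP q r → Q0))
    (𝒲 : Set (Finset (DC q r × E0))) (hc : ∀ W ∈ 𝒲, W.card ≤ A.ℓ ∧ A.R (W.image Prod.snd)) :
    (univ.filter ((levSys r posV negV A).BadN 𝒲)).card * κ ≤
        Fintype.card (Reg q r × (CP q r → Q0)) := by
  rw [card_eq_sum_card_fiberwise (f := Prod.fst) (t := univ)
    (fun _ _ => mem_univ _), sum_mul]
  calc ∑ κ' : Reg q r, ((univ.filter ((levSys r posV negV A).BadN 𝒲)).filter
        fun u : Reg q r × (CP q r → Q0) => u.1 = κ').card * κ
      ≤ ∑ _κ' : Reg q r, Fintype.card (CP q r → Q0) := by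
        apply sum_le_sum
        intro κ' _
        refine le_trans (Nat.mul_le_mul_right _ ?_) (hN
          {W' | ∃ W ∈ 𝒲, W' = pull (embN_inj r κ') W} (by
            rintro W' ⟨W, hW, rfl⟩
            refine ⟨(card_pull _ _).trans (hc W hW).1, A.hR _ _ ?_ (hc W hW).2⟩
            intro e he
            rw [mem_image] at he ⊢
            obtain ⟨e', he', rfl⟩ := he
            exact ⟨_, (mem_pull _ _ _).1 he', rfl⟩))
        apply card_le_card_of_injOn Prod.snd
        · rintro ⟨κ'', ν⟩ ht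
          rw [mem_coe, mem_filter, mem_filter] at ht
          obtain ⟨⟨-, h1⟩, h2⟩ := ht
          simp only at h2
          subst h2
          rw [mem_coe, mem_filter]
          exact ⟨mem_univ _, badN_lev r 𝒲 κ'' ν h1⟩
        · rintro ⟨κ1, ν⟩ ht ⟨κ2, ν'⟩ ht' h
          rw [mem_coe, mem_filter] at ht ht'
          have e1 : κ1 = κ' := ht.2
          have e2 : κ2 = κ' := ht'.2
          have e3 : ν = ν' := h
          rw [e1, e2, e3]
    _ = _ := by
        rw [sum_const, smul_eq_mul, card_univ, Fintype.card_prod]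

end tests

end Pool.Agent.T9h75.WT
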